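import Pool.Agent.MP_d0fd9b_nt.S64.Defs

attribute [-instance] IdemSemiring.toCanonicallyOrderedAdd AddQuantale.instAddLeftMono
  RKHS.instFunLike IdemSemiring.toMulLeftMono Fintype.decidableForallFintype instCoeHTCTOfCoeHTC
  IsOrderedMonoid.toMulLeftMono NumberField.to_charZero Quantale.instMulLeftMono
  AddQuantale.instAddRightMono instCoeTOfCoeDep covariant_swap_mul_of_covariant_mul
  CompletePartialOrder.toPartialOrder Quantale.instMulRightMono littleWedderburn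
  RCLike.charZero_rclike instCoeHTCTOfCoeTailOfCoeHTC CanonicallyOrderedAdd.toMulLeftMono
  NeZero.of_gt' instCharZeroOfIsSemireal NonUnitalAlgSemiHomClass.toDistribMulActionSemiHomClass
  CoalgHomClass.toSemilinearMapClass Group.IsPerfect.subsingleton_of_isMulCommutative
  SubsemiringClass.addSubmonoidWithOneClass TestFunctionClass.toDFunLike
  NonUnitalSubsemiringClass.toAddSubmonoidClass TotallySeparatedSpace.t2Space
  ContDiffMapSupportedInClass.toDFunLike Invertible.toNeZero Multiset.decidableDforallMultiset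
  RingHomClass.toLinearMapClassRat SemilinearIsometryClass.toSemilinearMapClass
  Vector.instDecidableForallForallMemOfDecidablePred CanonicallyOrderedMul.toMulLeftMono
  Int.decidableLTLE

-- part MP_d0fd9b_nt.S64.Loc
section

/-! The number of tuples with given imaginary parts. -/

set_option autoImplicit false

section
namespace Pool.Agent.MP_d0fd9b_nt.S64

open Finset S72 H72

theorem l1_det (u v : ℂ × ℂ) : ‖det2 u v‖ ≤ 2 * (‖u‖ * ‖v‖) := by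
  have h1 : ‖u.1 * v.2‖ ≤ ‖u‖ * ‖v‖ := by
    rw [norm_mul]
    exact mul_le_mul (norm_fst_le u) (norm_snd_le v) (norm_nonneg _) (norm_nonneg _)
  have h2 : ‖u.2 * v.1‖ ≤ ‖u‖ * ‖v‖ := by
    rw [norm_mul]
    exact mul_le_mul (norm_snd_le u) (norm_fst_le v) (norm_nonneg _) (norm_nonneg _)
  exact (norm_sub_le _ _).trans (by linarith)

theorem l1_card {x : ℝ} (hx : 0 ≤ x) : (#(Icc (-⌊x⌋ - 1) ⌊x⌋) : ℝ) ≤ 2 * x + 2 := by
  have h0 : 0 ≤ ⌊x⌋ := Int.floor_nonneg.2 hx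
  have h1 : (#(Icc (-⌊x⌋ - 1) ⌊x⌋) : ℤ) = 2 * ⌊x⌋ + 2 := by
    rw [Int.card_Icc_of_le _ _ (by omega)]
    ring
  have h2 : (#(Icc (-⌊x⌋ - 1) ⌊x⌋) : ℝ) = 2 * (⌊x⌋ : ℝ) + 2 := by exact_mod_cast h1
  linarith [Int.floor_le x]

theorem l1_mem {x t : ℝ} (h : |t| ≤ x) : ⌊t⌋ ∈ Icc (-⌊x⌋ - 1) ⌊x⌋ := by
  obtain ⟨h1, h2⟩ := abs_le.1 h
  refine mem_Icc.2 ⟨Int.le_floor.2 ?_, Int.floor_le_floor h2⟩
  push_cast
  linarith [Int.lt_floor_add_one x]

theorem lat_count (U : Finset (ℂ × ℂ)) {ρ μ D : ℝ} {δ : ℂ} (hρ : 0 ≤ ρ) (hμ : 0 < μ) (hD : 0 < D)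
    (hδ : D ≤ ‖δ‖) (h1 : ∀ u ∈ U, ‖u‖ ≤ ρ) (h2 : ∀ u ∈ U, ∀ v ∈ U, u ≠ v → μ ≤ ‖u - v‖)
    (h3 : ∀ u ∈ U, ∀ v ∈ U, ∃ N : ℤ, det2 u v = N * δ)
    (h4 : ∀ u ∈ U, ∀ v ∈ U, ∀ u' ∈ U, ∀ v' ∈ U, u' ≠ v' → det2 (u - v) (u' - v') = 0 →
      ∃ r : ℝ, u - v = r • (u' - v')) :
    (#U : ℝ) ≤ 50 * (1 + ρ / μ + ρ ^ 2 / D) := by
  classical
  have p1 : 0 ≤ ρ / μ := by positivity
  have p2 : 0 ≤ ρ ^ 2 / D := by positivity
  rcases le_or_gt #U 1 with hU | hU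
  · have : (#U : ℝ) ≤ 1 := by exact_mod_cast hU
    linarith only [p1, p2, this]
  obtain ⟨a, ha, b, hb, hab⟩ := one_lt_card.1 hU
  obtain ⟨⟨u0, u1⟩, hq, hmin⟩ := U.offDiag.exists_min_image (fun q => ‖q.1 - q.2‖)
    ⟨(a, b), mem_offDiag.2 ⟨ha, hb, hab⟩⟩
  obtain ⟨m0, m1, hne⟩ := mem_offDiag.1 hq
  simp only at m0 m1 hne hmin
  have l1 : μ ≤ ‖u0 - u1‖ := h2 _ m0 _ m1 hne
  have l2 : ‖u0 - u1‖ ≤ 2 * ρ := (norm_sub_le _ _).trans (by linarith only [h1 _ m0, h1 _ m1])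
  have l0 : 0 < ‖u0 - u1‖ := hμ.trans_le l1
  obtain ⟨φ, f1, f2⟩ := exists_dual_vector ℝ (u0 - u1) l0.ne'
  have f2' : φ (u0 - u1) = ‖u0 - u1‖ := by simpa using f2
  have hN : ∀ u, ∃ N : ℤ, u ∈ U → det2 (u0 - u1) u = N * δ := fun u => by
    by_cases hu : u ∈ U
    · obtain ⟨N0, e0⟩ := h3 _ m0 u hu
      obtain ⟨N1, e1⟩ := h3 _ m1 u hu
      refine ⟨N0 - N1, fun _ => ?_⟩
      simp only [det2, Prod.fst_sub, Prod.snd_sub] at e0 e1 ⊢
      push_cast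
      linear_combination e0 - e1
    · exact ⟨0, fun h => absurd h hu⟩
  choose N hN using hN
  generalize hl : ‖u0 - u1‖ = l at *
  have key : #U ≤ #(Icc (-⌊2 * (l * ρ) / D⌋ - 1) ⌊2 * (l * ρ) / D⌋ ×ˢ
      Icc (-⌊ρ / l⌋ - 1) ⌊ρ / l⌋) := by
    refine card_le_card_of_injOn (fun u => (N u, ⌊φ u / l⌋)) (fun u hu => ?_) fun u hu v hv e => ?_
    · refine mem_coe.2 (mem_product.2 ⟨?_, l1_mem ?_⟩)
      · have e1 := l1_det (u0 - u1) u
        rw [hN u hu, norm_mul, Complex.norm_intCast, hl] at e1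
        have e2 : |(N u : ℝ)| ≤ 2 * (l * ρ) / D := by
          rw [le_div_iff₀ hD]
          have := mul_le_mul_of_nonneg_left hδ (abs_nonneg (N u : ℝ))
          have := mul_le_mul_of_nonneg_left (h1 u hu) l0.le
          linarith
        simpa only [mem_Icc, tsub_le_iff_right, Int.floor_intCast] using l1_mem e2
      · rw [abs_div, abs_of_pos l0]
        refine div_le_div_of_nonneg_right ?_ l0.le
        have := φ.le_opNorm u
        rw [f1, one_mul, Real.norm_eq_abs] at this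
        exact this.trans (h1 u hu)
    · by_contra huv
      obtain ⟨e1, e2⟩ := Prod.mk.inj e
      have a1 := hN u hu
      have a2 := hN v hv
      obtain ⟨r, hr⟩ := h4 u hu v hv u0 m0 u1 m1 hne (by
        rw [e1] at a1
        simp only [det2, Prod.fst_sub, Prod.snd_sub] at a1 a2 ⊢
        linear_combination a2 - a1)
      have b1 := hmin (u, v) (mem_offDiag.2 ⟨hu, hv, huv⟩)
      simp only [hr, norm_smul, hl, Real.norm_eq_abs] at b1
      have b2 : φ u / l - φ v / l = r := by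
        rw [← sub_div, ← map_sub, hr, map_smul, f2', smul_eq_mul, mul_div_cancel_right₀ _ l0.ne']
      have b3 := Int.abs_sub_lt_one_of_floor_eq_floor e2
      rw [b2] at b3
      nlinarith only [hμ, l1, b1, b3]
  have k1 := l1_card (x := 2 * (l * ρ) / D) (by positivity)
  have k2 := l1_card (x := ρ / l) (by positivity)
  have k3 : (#U : ℝ) ≤ (2 * (2 * (l * ρ) / D) + 2) * (2 * (ρ / l) + 2) := by
    refine le_trans ?_ (mul_le_mul k1 k2 (Nat.cast_nonneg _) (by positivity))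
    rw [card_product] at key
    exact_mod_cast key
  have k4 : ρ / l ≤ ρ / μ := div_le_div_of_nonneg_left hρ hμ l1
  have k5 : l * ρ / D ≤ 2 * (ρ ^ 2 / D) := by
    rw [← mul_div_assoc]
    exact div_le_div_of_nonneg_right (by nlinarith only [hρ, l2]) hD.le
  have k6 : (2 * (2 * (l * ρ) / D) + 2) * (2 * (ρ / l) + 2) =
      8 * (ρ ^ 2 / D) + 8 * (l * ρ / D) + 4 * (ρ / l) + 4 := by
    field_simp
    ring
  linarith only [p1, k3, k4, k5, k6]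

end Pool.Agent.MP_d0fd9b_nt.S64

end

section
namespace Pool.Agent.MP_d0fd9b_nt.S64

open Finset S72 H72

lemma l2_unit {c : ℕ} {x : ℤ} (h : ∀ l : ℕ, l.Prime → l ∣ c → ¬ (l : ℤ) ∣ x) :
    IsUnit (x : ZMod c) := by
  rw [ZMod.coe_int_isUnit_iff_isCoprime, Int.isCoprime_iff_gcd_eq_one]
  by_contra hne
  obtain ⟨l, hl, hd⟩ := Nat.exists_prime_and_dvd hne
  have h1 : (l : ℤ) ∣ (c : ℤ) := (Int.natCast_dvd_natCast.2 hd).trans (Int.gcd_dvd_left _ _)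
  exact h l hl (Int.natCast_dvd_natCast.1 h1)
    ((Int.natCast_dvd_natCast.2 hd).trans (Int.gcd_dvd_right _ _))

lemma l2_units {n p : Fin 3 → ℤ} {m : ℤ} {c : ℕ} (hm : IsCoprime (c : ℤ) m)
    (hQ : ∀ i, (c : ℤ) ∣ Qd n m p i) (hp : ∀ l : ℕ, l.Prime → l ∣ c → ∃ i, ¬ (l : ℤ) ∣ p i)
    (i : Fin 3) : IsUnit (p i : ZMod c) := by
  refine l2_unit fun l hl hlc hd => ?_
  have hP : Prime (l : ℤ) := Nat.prime_iff_prime_int.1 hl
  have hc : (l : ℤ) ∣ c := Int.natCast_dvd_natCast.2 hlc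
  have hlm : ¬ (l : ℤ) ∣ m := fun h => hP.not_isUnit (hm.isUnit_of_dvd' hc h)
  have key : ∀ k : Fin 3, (l : ℤ) ∣ p (k + 1) * p (k + 2) → (l : ℤ) ∣ p k := fun k hk => by
    have h1 : (l : ℤ) ∣ m * p k ^ 2 := by
      have := (hc.trans (hQ k)).add (hk.mul_left (n k))
      rwa [Qd, ← mul_assoc, sub_add_cancel] at this
    exact hP.dvd_of_dvd_pow ((hP.dvd_or_dvd h1).resolve_left hlm)
  obtain ⟨k, hk⟩ := hp l hl hlc
  have h3 : ∀ a b : Fin 3, a = b ∨ b + 1 = a ∨ b + 2 = a := by decide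
  rcases h3 i k with h | h | h
  · exact hk (h ▸ hd)
  · exact hk (key k ((h ▸ hd).mul_right _))
  · exact hk (key k ((h ▸ hd).mul_left _))

lemma l2_eq {n p : Fin 3 → ℤ} {m : ℤ} {c : ℕ} (hQ : ∀ i, (c : ℤ) ∣ Qd n m p i) :
    (m : ZMod c) * (p 0 : ZMod c) ^ 2 = n 0 * p 1 * p 2 ∧
      (m : ZMod c) * (p 1 : ZMod c) ^ 2 = n 1 * p 2 * p 0 := by
  have h0 := (ZMod.intCast_zmod_eq_zero_iff_dvd _ c).2 (hQ 0)
  have h1 := (ZMod.intCast_zmod_eq_zero_iff_dvd _ c).2 (hQ 1)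
  unfold Qd at h0 h1
  push_cast at h0 h1
  exact ⟨sub_eq_zero.1 h0, sub_eq_zero.1 h1⟩

theorem sharp_cov (n : Fin 3 → ℤ) (m : ℤ) {c : ℕ} (hc : c ≠ 0) (hD : (c : ℤ) ∣ Dl n m)
    (hm : IsCoprime (c : ℤ) m) :
    Cov (fun p : Fin 3 → ℤ => (∀ i, (c : ℤ) ∣ Qd n m p i) ∧
        ∀ l : ℕ, l.Prime → l ∣ c → ∃ i, ¬ (l : ℤ) ∣ p i)
      (fun p p' => ∃ j : ℤ, ∀ i, (c : ℤ) ∣ p' i - j * p i) (Rt c (n 0) (n 1)) := by
  have _ := hD
  have : NeZero c := ⟨hc⟩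
  have hmu : IsUnit (m : ZMod c) := (ZMod.coe_int_isUnit_iff_isCoprime m c).2 hm
  unfold Rt
  refine Cov.of_label (fun p => ((p 1 : ZMod c) * (p 0 : ZMod c)⁻¹).val) _ ?_ ?_
  · rintro p ⟨hQ, hp⟩
    have hu := l2_units hm hQ hp
    obtain ⟨e0, e1⟩ := l2_eq hQ
    have i0 := ZMod.mul_inv_of_unit _ (hu 0)
    refine mem_filter.2 ⟨mem_range.2 (ZMod.val_lt _), ?_⟩
    rw [← ZMod.intCast_zmod_eq_zero_iff_dvd]
    push_cast
    rw [ZMod.natCast_zmod_val]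
    have e2 : (p 2 : ZMod c) * (n 0 * (p 1 : ZMod c) ^ 3 - n 1 * (p 0 : ZMod c) ^ 3) = 0 := by
      linear_combination (p 0 : ZMod c) ^ 2 * e1 - (p 1 : ZMod c) ^ 2 * e0
    have e3 := ((hu 2).mul_right_eq_zero).1 e2
    linear_combination ((p 0 : ZMod c)⁻¹) ^ 3 * e3 +
      (n 1 : ZMod c) * (((p 0 : ZMod c) * (p 0 : ZMod c)⁻¹) ^ 2 + p 0 * (p 0 : ZMod c)⁻¹ + 1) * i0
  · rintro p p' ⟨hQ, hp⟩ ⟨hQ', hp'⟩ hf
    have hu := l2_units hm hQ hp
    have hu' := l2_units hm hQ' hp'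
    obtain ⟨e0, -⟩ := l2_eq hQ
    obtain ⟨e0', -⟩ := l2_eq hQ'
    have i0 := ZMod.mul_inv_of_unit _ (hu 0)
    have i0' := ZMod.mul_inv_of_unit _ (hu' 0)
    have ht := ZMod.val_injective c hf
    obtain ⟨j, hj⟩ := ZMod.intCast_surjective ((p' 0 : ZMod c) * (p 0 : ZMod c)⁻¹)
    have a0 : (p' 0 : ZMod c) = j * p 0 := by
      rw [hj]; linear_combination (-(p' 0 : ZMod c)) * i0
    have a1 : (p' 1 : ZMod c) = j * p 1 := by
      rw [hj]; linear_combination (-(p' 0 : ZMod c)) * ht - (p' 1 : ZMod c) * i0'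
    have hn : IsUnit ((n 0 : ZMod c) * p' 1) := by
      have : IsUnit ((n 0 : ZMod c) * p' 1 * p' 2) := e0' ▸ hmu.mul ((hu' 0).pow 2)
      exact isUnit_of_mul_isUnit_left this
    have a2 : (p' 2 : ZMod c) = j * p 2 := by
      have : (n 0 : ZMod c) * p' 1 * (p' 2 - j * p 2) = 0 := by
        rw [a0] at e0'
        linear_combination (j : ZMod c) ^ 2 * e0 - e0' - (n 0 : ZMod c) * j * p 2 * a1
      exact sub_eq_zero.1 (hn.mul_right_eq_zero.1 this)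
    refine ⟨j, fun i => ?_⟩
    rw [← ZMod.intCast_zmod_eq_zero_iff_dvd]
    push_cast
    fin_cases i
    · exact sub_eq_zero.2 a0
    · exact sub_eq_zero.2 a1
    · exact sub_eq_zero.2 a2

end Pool.Agent.MP_d0fd9b_nt.S64

end

section
namespace Pool.Agent.MP_d0fd9b_nt.S64

open Finset S72 H72

lemma l3_cube {α : Type} {P : α → Prop} {l : ℕ} (hl : l.Prime) (x : α → ℤ)
    (h : ∀ a b, P a → P b → (l : ℤ) ∣ x b ^ 3 - x a ^ 3) :
    Cov P (fun a b => (l : ℤ) ∣ x b - x a) 3 := by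
  classical
  by_cases h0 : ∃ a, P a
  · obtain ⟨a₀, h0⟩ := h0
    have : Fact l.Prime := ⟨hl⟩
    refine (Cov.of_label (P := P) (R := fun a b => (l : ℤ) ∣ x b - x a) (fun a => (x a : ZMod l))
      (Polynomial.nthRoots 3 ((x a₀ : ZMod l) ^ 3)).toFinset (fun a ha => ?_)
      fun a b _ _ e => (ZMod.intCast_eq_intCast_iff_dvd_sub _ _ _).1 e).mono (fun _ h => h)
      (fun _ _ _ _ h => h) ((Multiset.toFinset_card_le _).trans (Polynomial.card_nthRoots _ _))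
    rw [Multiset.mem_toFinset, Polynomial.mem_nthRoots (by norm_num)]
    exact_mod_cast (ZMod.intCast_eq_intCast_iff_dvd_sub _ _ _).2 (h a a₀ ha h0)
  · exact (Cov.one fun a _ ha => absurd ⟨a, ha⟩ h0).mono (fun _ h => h) (fun _ _ _ _ h => h)
      (by norm_num)

lemma l3_lift {l : ℕ} (hl : l.Prime) : ∃ δ : ℕ, δ ≤ 1 ∧ l ^ δ ≤ 3 ∧ ∀ (x y : ℤ) (s : ℕ),
    (l : ℤ) ∣ y - x → ¬ (l : ℤ) ∣ x → (l : ℤ) ^ (s + δ) ∣ y ^ 3 - x ^ 3 → (l : ℤ) ^ s ∣ y - x := by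
  have hp := Nat.prime_iff_prime_int.1 hl
  by_cases h3 : l = 3
  · subst h3
    refine ⟨1, le_rfl, le_rfl, fun x y s ⟨c, hc⟩ hx h => ?_⟩
    have e : y ^ 3 - x ^ 3 = (x ^ 2 + 3 * (c * x + c ^ 2)) * (y - x) * ((3 : ℕ) : ℤ) := by
      obtain rfl : y = x + 3 * c := by
        push_cast at hc
        linarith
      push_cast
      ring
    rw [e, pow_succ, mul_dvd_mul_iff_right hp.ne_zero] at h
    refine (t1_cop hl (fun hd => hx (hp.dvd_of_dvd_pow (n := 2) ?_)) s).dvd_of_dvd_mul_left h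
    exact (dvd_add_left (Dvd.intro _ rfl)).1 hd
  · refine ⟨0, Nat.zero_le _, by norm_num, fun x y s hc hx h => ?_⟩
    have e : y ^ 3 - x ^ 3 = (3 * x ^ 2 + (y - x) * (y + 2 * x)) * (y - x) := by ring
    rw [e, add_zero] at h
    refine (t1_cop hl (fun hd => ?_) s).dvd_of_dvd_mul_left h
    rcases hp.dvd_or_dvd ((dvd_add_left (hc.mul_right _)).1 hd) with h' | h'
    · exact h3 ((Nat.prime_dvd_prime_iff_eq hl Nat.prime_three).1 (by exact_mod_cast h'))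
    · exact hx (hp.dvd_of_dvd_pow h')

lemma l3_core {α : Type} {P : α → Prop} {l K t e w d : ℕ} (hl : l.Prime) {A n m : ℤ}
    (hA : ¬ (l : ℤ) ∣ A) (hK : 3 * w + 1 ≤ K) (ht : e + w ≤ t) (hd : e + 2 * w ≤ K + d)
    (X Y : α → ℤ) (h : ∀ a, P a → (l : ℤ) ^ K ∣ A * X a ^ 3 - n ∧
      (l : ℤ) ^ t ∣ m - A * X a * Y a ∧ (l : ℤ) ^ w ∣ X a ∧ ¬ (l : ℤ) ^ (w + 1) ∣ X a ∧
      (l : ℤ) ^ w ∣ Y a) :
    Cov P (fun a b => (l : ℤ) ^ e ∣ X b - X a ∧ (l : ℤ) ^ e ∣ Y b - Y a) (9 * l ^ d) := by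
  obtain ⟨δ, hδ, hδ3, hlift⟩ := l3_lift hl
  have hp : (l : ℤ) ^ w ≠ 0 := pow_ne_zero _ (by exact_mod_cast hl.ne_zero)
  have hx : ∀ a, P a → X a = (l : ℤ) ^ w * (X a / (l : ℤ) ^ w) := fun a ha =>
    (Int.mul_ediv_cancel' (h a ha).2.2.1).symm
  set x : α → ℤ := fun a => X a / (l : ℤ) ^ w with hxd
  have hx' : ∀ a, P a → X a = (l : ℤ) ^ w * x a := hx
  have hu : ∀ a, P a → ¬ (l : ℤ) ∣ x a := fun a ha hdv => (h a ha).2.2.2.1 (by
    rw [hx' a ha, pow_succ]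
    exact mul_dvd_mul_left _ hdv)
  have hc : ∀ a b, P a → P b → (l : ℤ) ^ (K - 3 * w) ∣ x b ^ 3 - x a ^ 3 := fun a b ha hb => by
    have h1 := dvd_sub (h b hb).1 (h a ha).1
    have e1 : A * X b ^ 3 - n - (A * X a ^ 3 - n) =
        (l : ℤ) ^ (3 * w) * (A * (x b ^ 3 - x a ^ 3)) := by
      rw [hx' a ha, hx' b hb]
      ring
    rw [e1, show K = 3 * w + (K - 3 * w) by omega, pow_add,
      mul_dvd_mul_iff_left (pow_ne_zero _ (by exact_mod_cast hl.ne_zero))] at h1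
    exact (t1_cop hl hA _).dvd_of_dvd_mul_left h1
  refine (t1_seq (l3_cube hl x fun a b ha hb => (dvd_pow_self _ (by omega)).trans (hc a b ha hb))
    fun P' h1 h2 => t1_dig (r := min e (w + (K - 3 * w - δ))) (M := e) X hl.pos (min_le_left _ _)
      fun a b ha hb => ?_).mono (fun _ h => h) (fun a b ha hb h' => ⟨h'.2, ?_⟩) ?_
  · refine (pow_dvd_pow _ (min_le_right _ _)).trans ?_
    rw [hx' a (h1 a ha), hx' b (h1 b hb), ← mul_sub, pow_add]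
    refine mul_dvd_mul_left _ (hlift _ _ _ (h2 a b ha hb) (hu a (h1 a ha)) ?_)
    rw [show K - 3 * w - δ + δ = K - 3 * w by omega]
    exact hc a b (h1 a ha) (h1 b hb)
  · have h1 := (pow_dvd_pow _ ht).trans (dvd_sub (h a ha).2.1 (h b hb).2.1)
    have h2 : (l : ℤ) ^ (e + w) ∣ A * ((X b - X a) * Y b) := by
      rw [pow_add]
      exact (mul_dvd_mul h'.2 (h b hb).2.2.2.2).mul_left _
    have h3 := dvd_sub h1 h2
    have e1 : m - A * X a * Y a - (m - A * X b * Y b) - A * ((X b - X a) * Y b) =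
        A * (x a * (Y b - Y a)) * (l : ℤ) ^ w := by
      rw [hx' a ha]
      ring
    rw [e1, pow_add, mul_dvd_mul_iff_right hp] at h3
    exact (t1_cop hl (hu a ha) _).dvd_of_dvd_mul_left ((t1_cop hl hA _).dvd_of_dvd_mul_left h3)
  · calc 3 * l ^ (e - min e (w + (K - 3 * w - δ))) ≤ 3 * l ^ (δ + d) :=
          Nat.mul_le_mul_left _ (Nat.pow_le_pow_right hl.pos (by omega))
      _ ≤ 3 * (3 * l ^ d) := by
          rw [pow_add]
          exact Nat.mul_le_mul_left _ (Nat.mul_le_mul_right _ hδ3)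
      _ = 9 * l ^ d := by ring

lemma l3_deep {l k K t w : ℕ} {A n' n'' m X Y : ℤ} (hw : k + 1 ≤ 6 * w) (hK : k + 1 ≤ 2 * K)
    (ht : k + 1 ≤ 3 * t) (h1 : (l : ℤ) ^ K ∣ A * X ^ 3 - n') (h2 : (l : ℤ) ^ K ∣ A * Y ^ 3 - n'')
    (h3 : (l : ℤ) ^ t ∣ m - A * X * Y) (hX : (l : ℤ) ^ w ∣ X) (hY : (l : ℤ) ^ w ∣ Y) :
    (l : ℤ) ^ (k + 1) ∣ m ^ 3 - A * n' * n'' := by
  have c : ∀ {Z n : ℤ}, (l : ℤ) ^ K ∣ A * Z ^ 3 - n → (l : ℤ) ^ w ∣ Z →
      (l : ℤ) ^ min K (w * 3) ∣ n := fun {Z n} a b => by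
    have b3 := pow_dvd_pow_of_dvd b 3
    rw [← pow_mul] at b3
    exact t1_eq (dvd_sub (((pow_dvd_pow _ (min_le_right _ _)).trans b3).mul_left A)
      ((pow_dvd_pow _ (min_le_left _ _)).trans a)) (by ring)
  have hm : (l : ℤ) ^ min t (w + w) ∣ m := by
    have b2 := mul_dvd_mul hX hY
    rw [← pow_add] at b2
    exact t1_eq (dvd_add (((pow_dvd_pow _ (min_le_right _ _)).trans b2).mul_left A)
      ((pow_dvd_pow _ (min_le_left _ _)).trans h3)) (by ring)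
  have a1 := pow_dvd_pow_of_dvd hm 3
  have a2 := mul_dvd_mul (c h1 hX) (c h2 hY)
  rw [← pow_mul] at a1
  rw [← pow_add] at a2
  exact t1_eq (dvd_sub ((pow_dvd_pow _ (by omega)).trans a1)
    (((pow_dvd_pow _ (by omega)).trans a2).mul_left A)) (by ring)

lemma l3_aff {α : Type} {P : α → Prop} {l k j : ℕ} (hl : l.Prime) (hj : 6 * j < k)
    {A n' n'' m : ℤ} (hA : ¬ (l : ℤ) ∣ A) (hD : ¬ (l : ℤ) ^ (k + 1) ∣ m ^ 3 - A * n' * n'')
    (X Y : α → ℤ) (h : ∀ a, P a → (l : ℤ) ^ (k - 3 * j) ∣ A * X a ^ 3 - n' ∧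
      (l : ℤ) ^ (k - 3 * j) ∣ A * Y a ^ 3 - n'' ∧ (l : ℤ) ^ (k - 2 * j) ∣ m - A * X a * Y a) :
    Cov P (fun a b => (l : ℤ) ^ (k - 2 * j - k / 6) ∣ X b - X a ∧
      (l : ℤ) ^ (k - 2 * j - k / 6) ∣ Y b - Y a) (18 * (k + 1) * l ^ (j + k / 6)) := by
  classical
  refine (t1_val (c := #(univ : Finset Bool) * (9 * l ^ (j + k / 6)))
    (fun a i => (l : ℤ) ^ i ∣ X a ∧ (l : ℤ) ^ i ∣ Y a) (by simp) (k / 6) fun w hw => ?_).mono
    (fun _ h => h) (fun _ _ _ _ h => h) ?_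
  · have hn : ∀ a, P a ∧ ((l : ℤ) ^ w ∣ X a ∧ (l : ℤ) ^ w ∣ Y a) ∧
        (w < k / 6 → ¬ ((l : ℤ) ^ (w + 1) ∣ X a ∧ (l : ℤ) ^ (w + 1) ∣ Y a)) →
        ¬ ((l : ℤ) ^ (w + 1) ∣ X a ∧ (l : ℤ) ^ (w + 1) ∣ Y a) := fun a ha hh => by
      rcases hw.lt_or_eq with hlt | heq
      · exact ha.2.2 hlt hh
      · exact hD (l3_deep (by omega) (by omega) (by omega) (h a ha.1).1 (h a ha.1).2.1
          (h a ha.1).2.2 hh.1 hh.2)
    refine Cov.split (fun a => decide ((l : ℤ) ^ (w + 1) ∣ X a)) univ (fun _ _ => mem_univ _)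
      fun b _ => ?_
    cases b
    · exact l3_core (K := k - 3 * j) (t := k - 2 * j) (w := w) (n := n') (m := m) hl hA (by omega)
        (by omega) (by omega) X Y fun a ha => ⟨(h a ha.1.1).1, (h a ha.1.1).2.2, ha.1.2.1.1,
          of_decide_eq_false ha.2, ha.1.2.1.2⟩
    · exact (l3_core (K := k - 3 * j) (t := k - 2 * j) (w := w) (n := n'') (m := m) hl hA (by omega)
        (by omega) (by omega) Y X fun a ha => ⟨(h a ha.1.1).2.1,
          t1_eq (h a ha.1.1).2.2 (by ring), ha.1.2.1.2,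
          fun hy => hn a ha.1 ⟨of_decide_eq_true ha.2, hy⟩, ha.1.2.1.1⟩).mono (fun _ h => h)
        (fun _ _ _ _ h => h.symm) le_rfl
  · rw [card_univ, Fintype.card_bool]
    calc (k / 6 + 1) * (2 * (9 * l ^ (j + k / 6))) ≤ (k + 1) * (2 * (9 * l ^ (j + k / 6))) :=
          Nat.mul_le_mul_right _ (by omega)
      _ = _ := by ring

theorem bad_loc {l k j : ℕ} (hl : l.Prime) (hj : 6 * j < k) {A n' n'' m : ℤ} (hA : ¬ (l : ℤ) ∣ A)
    (hD : ¬ (l : ℤ) ^ (k + 1) ∣ m ^ 3 - A * n' * n'') :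
    Cov (fun p : ℤ × ℤ × ℤ => ¬ ((l : ℤ) ∣ p.1 ∧ (l : ℤ) ∣ p.2.1 ∧ (l : ℤ) ∣ p.2.2) ∧
        (l : ℤ) ^ (k - 3 * j) ∣ A * p.1 ^ 3 - n' * p.2.2 ^ 3 ∧
        (l : ℤ) ^ (k - 3 * j) ∣ A * p.2.1 ^ 3 - n'' * p.2.2 ^ 3 ∧
        (l : ℤ) ^ (k - 2 * j) ∣ m * p.2.2 ^ 2 - A * p.1 * p.2.1)
      (fun p p' => ∃ r : ℤ, (l : ℤ) ^ (k - 2 * j - k / 6) ∣ p'.1 - r * p.1 ∧
        (l : ℤ) ^ (k - 2 * j - k / 6) ∣ p'.2.1 - r * p.2.1 ∧
        (l : ℤ) ^ (k - 2 * j - k / 6) ∣ p'.2.2 - r * p.2.2) (18 * (k + 1) * l ^ (j + k / 6)) := by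
  have hp := Nat.prime_iff_prime_int.1 hl
  have h1 : ∀ {x z n : ℤ}, (l : ℤ) ^ (k - 3 * j) ∣ A * x ^ 3 - n * z ^ 3 → (l : ℤ) ∣ z →
      (l : ℤ) ∣ x := fun {x z n} a b => by
    have c := dvd_add ((dvd_pow_self _ (by omega)).trans a)
      ((b.trans (dvd_pow_self z three_ne_zero)).mul_left n)
    rw [sub_add_cancel] at c
    exact hp.dvd_of_dvd_pow ((hp.dvd_or_dvd c).resolve_left hA)
  obtain ⟨u, hu⟩ := t1_inv hl k fun p : ℤ × ℤ × ℤ => p.2.2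
  have h2 : ∀ {x z n v : ℤ}, (l : ℤ) ^ (k - 3 * j) ∣ A * x ^ 3 - n * z ^ 3 →
      (l : ℤ) ^ k ∣ 1 - v * z → (l : ℤ) ^ (k - 3 * j) ∣ A * (x * v) ^ 3 - n :=
    fun {x z n v} a b => t1_eq (dvd_sub (a.mul_left (v ^ 3))
      (((pow_dvd_pow _ (Nat.sub_le _ _)).trans b).mul_left (n * (1 + v * z + (v * z) ^ 2))))
      (by ring)
  have he : (l : ℤ) ^ (k - 2 * j - k / 6) ∣ (l : ℤ) ^ k := pow_dvd_pow _ (by omega)
  refine (l3_aff (P := fun p : ℤ × ℤ × ℤ => (l : ℤ) ^ k ∣ 1 - u p * p.2.2 ∧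
      (l : ℤ) ^ (k - 3 * j) ∣ A * p.1 ^ 3 - n' * p.2.2 ^ 3 ∧
      (l : ℤ) ^ (k - 3 * j) ∣ A * p.2.1 ^ 3 - n'' * p.2.2 ^ 3 ∧
      (l : ℤ) ^ (k - 2 * j) ∣ m * p.2.2 ^ 2 - A * p.1 * p.2.1) hl hj hA hD
    (fun p => p.1 * u p) (fun p => p.2.1 * u p) fun p hp' => ⟨h2 hp'.2.1 hp'.1, h2 hp'.2.2.1 hp'.1,
      t1_eq (dvd_add (hp'.2.2.2.mul_left (u p ^ 2))
        (((pow_dvd_pow _ (Nat.sub_le _ _)).trans hp'.1).mul_left (m * (1 + u p * p.2.2))))
        (by ring)⟩).mono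
    (fun p hp' => ⟨hu p fun hz => hp'.1 ⟨h1 hp'.2.1 hz, h1 hp'.2.2.1 hz, hz⟩, hp'.2⟩)
    (fun a b ha hb h' => ?_) le_rfl
  have ua := he.trans (hu a fun hz => ha.1 ⟨h1 ha.2.1 hz, h1 ha.2.2.1 hz, hz⟩)
  have ub := he.trans (hu b fun hz => hb.1 ⟨h1 hb.2.1 hz, h1 hb.2.2.1 hz, hz⟩)
  exact ⟨b.2.2 * u a, t1_rel ub h'.1, t1_rel ub h'.2, t1_rel0 ua⟩

end Pool.Agent.MP_d0fd9b_nt.S64

end

section
namespace Pool.Agent.MP_d0fd9b_nt.S64

open Finset S72 H72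

lemma l4_div {l g k : ℕ} (hl : l.Prime) (hg : g ≠ 0) (t : ℕ) {Q : ℤ}
    (h : ((l ^ k : ℕ) : ℤ) ∣ (g : ℤ) ^ t * Q) : (l : ℤ) ^ (k - t * g.factorization l) ∣ Q := by
  rcases le_total k (t * g.factorization l) with h1 | h1
  · simp [Nat.sub_eq_zero_of_le h1]
  have h2 : (g : ℤ) = (l : ℤ) ^ g.factorization l * (ordCompl[l] g : ℕ) := by
    exact_mod_cast (Nat.ordProj_mul_ordCompl_eq_self g l).symm
  have h3 : IsCoprime (l : ℤ) (ordCompl[l] g : ℕ) :=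
    Nat.isCoprime_iff_coprime.2 (Nat.coprime_ordCompl hl hg)
  generalize g.factorization l = j at *
  generalize g / l ^ j = g' at *
  obtain ⟨e, rfl⟩ := Nat.exists_eq_add_of_le h1
  rw [h2, Nat.cast_pow, pow_add, mul_pow, ← pow_mul, mul_comm j, mul_assoc,
    mul_dvd_mul_iff_left (pow_ne_zero _ (Nat.cast_ne_zero.2 hl.ne_zero))] at h
  rw [Nat.add_sub_cancel_left]
  exact h3.pow.dvd_of_dvd_mul_left h

theorem bad_cov2 (n : Fin 3 → ℤ) (m : ℤ) {g : ℕ} (hg : g ≠ 0) {B : ℕ} (hB : B ≠ 0) {D' : ℤ}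
    (hD : Dl n m = B * D') (hc : IsCoprime (B : ℤ) D')
    (h : ∀ l : ℕ, l.Prime → l ∣ B → ∃ i, ¬ (l : ℤ) ∣ n i) :
    ∃ γ E N Λ : ℕ, γ ∣ g ∧ (∀ l : ℕ, l.Prime → l ∣ γ * E → l ∣ B) ∧ E ≠ 0 ∧ 1 ≤ Λ ∧
      B ≤ Λ * γ * E ∧ B ^ 2 ≤ Λ * γ ^ 3 * E ^ 2 ∧ (N * Λ) ^ 6 ≤ #B.divisors ^ 36 * B ^ 5 ∧
      Cov (fun p : Fin 3 → ℤ => Prim p ∧ (∀ i, (B : ℤ) ∣ g ^ 2 * Qd n m p i) ∧
          ∀ i, (B : ℤ) ∣ g ^ 3 * Cub n p i)
        (fun p p' => ∃ j : ℤ, ∀ i, (E : ℤ) ∣ p' i - j * p i) N := by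
  induction B using Nat.recOnPosPrimePosCoprime generalizing D' with
  | zero => exact absurd rfl hB
  | one =>
    exact ⟨1, 1, 1, 1, one_dvd _, fun _ _ h => h, one_ne_zero, le_rfl, le_rfl, le_rfl, by simp,
      Cov.one fun _ _ _ _ => ⟨0, fun _ => one_dvd _⟩⟩
  | prime_pow l k hl hk =>
    obtain ⟨i, hi⟩ := h l hl (dvd_pow_self l hk.ne')
    have h2 := fun {Q : ℤ} => l4_div (k := k) (Q := Q) hl hg 2
    have h3 := fun {Q : ℤ} => l4_div (k := k) (Q := Q) hl hg 3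
    have hγ := Nat.ordProj_dvd g l
    generalize g.factorization l = j at *
    have hp : ∀ e, ∀ l' : ℕ, l'.Prime → l' ∣ l ^ j * l ^ e → l' ∣ l ^ k := fun e l' hl' hd =>
      (hl'.dvd_of_dvd_pow (pow_add l j e ▸ hd)).trans (dvd_pow_self l hk.ne')
    have hm : ∀ {a b : ℕ}, a ≤ b → l ^ a ≤ l ^ b := Nat.pow_le_pow_right hl.pos
    rw [Nat.divisors_prime_pow hl, card_map, card_range]
    have hi' : ∀ i' : Fin 3, i' = i + 1 ∨ i' = i + 2 ∨ i' = i :=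
      (by decide : ∀ i i' : Fin 3, i' = i + 1 ∨ i' = i + 2 ∨ i' = i) i
    rcases lt_or_ge (6 * j) k with hj | hj
    · refine ⟨l ^ j, l ^ (k - 2 * j - k / 6), 18 * (k + 1) * l ^ (j + k / 6), l ^ (j + 2 * (k / 6)),
        hγ, hp _, pow_ne_zero _ hl.ne_zero, pow_pos hl.pos _, ?_, ?_, ?_, ?_⟩
      · simp only [← pow_add]
        exact hm (by omega)
      · simp only [← pow_mul, ← pow_add]
        exact hm (by omega)
      · have h5 : 18 * (k + 1) ≤ (k + 1) ^ 5 * (k + 1) := Nat.mul_le_mul_right _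
          (le_trans (by norm_num) (Nat.pow_le_pow_left (Nat.succ_le_succ hk) 5))
        calc _ = (18 * (k + 1)) ^ 6 * l ^ (12 * j + 18 * (k / 6)) := by ring
          _ ≤ ((k + 1) ^ 5 * (k + 1)) ^ 6 * l ^ (k * 5) :=
            Nat.mul_le_mul (Nat.pow_le_pow_left h5 _) (hm (by omega))
          _ = _ := by rw [← pow_succ, ← pow_mul, pow_mul l]
      have e : Dl n m = m ^ 3 - n i * n (i + 1) * n (i + 2) := by
        fin_cases i <;> simp [Dl] <;> ring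
      have hD' : ¬ (l : ℤ) ^ (k + 1) ∣ m ^ 3 - n i * n (i + 1) * n (i + 2) := fun hd => by
        rw [← e, hD, Nat.cast_pow, pow_succ,
          mul_dvd_mul_iff_left (pow_ne_zero _ (Nat.cast_ne_zero.2 hl.ne_zero))] at hd
        exact (Nat.prime_iff_prime_int.1 hl).not_isUnit (hc.isUnit_of_dvd'
          (Int.natCast_dvd_natCast.2 (dvd_pow_self l hk.ne')) hd)
      obtain ⟨e1, e2, e3, e4⟩ : i + 2 + 1 = i ∧ i + 2 + 2 = i + 1 ∧ i + 1 + 1 = i + 2 ∧ i + 1 + 2 = i :=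
        (by decide : ∀ i : Fin 3, i + 2 + 1 = i ∧ i + 2 + 2 = i + 1 ∧ i + 1 + 1 = i + 2 ∧ i + 1 + 2 = i) i
      refine (cov_comap (bad_loc hl hj hi hD') (fun p : Fin 3 → ℤ => (p (i + 1), p (i + 2), p i))
        (fun p hp => ⟨fun ⟨d1, d2, d3⟩ => ?_, ?_, ?_, h2 (hp.2.1 i)⟩)
        fun p p' _ _ he => funext fun i' => ?_).mono (fun _ h => h)
        (fun p p' _ _ ⟨r, h1, h2, h3⟩ => ⟨r, fun i' => ?_⟩) le_rfl
      · obtain ⟨i', hi''⟩ := hp.1 l hl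
        rcases hi' i' with rfl | rfl | rfl <;> contradiction
      · simpa only [Cub, e1, e2] using h3 (hp.2.2 (i + 2))
      · simpa only [Cub, e3, e4, neg_sub] using (h3 (hp.2.2 (i + 1))).neg_right
      · simp only [Prod.mk.injEq] at he
        rcases hi' i' with rfl | rfl | rfl
        exacts [he.1, he.2.1, he.2.2]
      · push_cast
        rcases hi' i' with rfl | rfl | rfl <;> assumption
    · refine ⟨l ^ j, l ^ (k - 2 * j), (k - 2 * j + 1) ^ 4 * l ^ (k - 2 * j), l ^ min j (k - j),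
        hγ, hp _, pow_ne_zero _ hl.ne_zero, pow_pos hl.pos _, ?_, ?_, ?_, ?_⟩
      · simp only [← pow_add]
        exact hm (by omega)
      · simp only [← pow_mul, ← pow_add]
        exact hm (by omega)
      · rw [mul_assoc, mul_pow, ← pow_add, ← pow_mul, ← pow_mul, ← pow_mul]
        exact Nat.mul_le_mul ((Nat.pow_le_pow_left (by omega) _).trans
          (Nat.pow_le_pow_right k.succ_pos (by norm_num))) (hm (by omega))
      · refine (S72.bad_cov n m (pow_ne_zero (k - 2 * j) hl.ne_zero) fun l' hl' hd => ⟨i, ?_⟩).mono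
          (fun p hp i => by exact_mod_cast h2 (hp.2.1 i)) (fun _ _ _ _ h => h) ?_
        · rwa [(Nat.prime_dvd_prime_iff_eq hl' hl).1 (hl'.dvd_of_dvd_pow hd)]
        · rw [Nat.divisors_prime_pow hl, card_map, card_range]
  | coprime a b ha hb hab iha ihb =>
    have hc' : IsCoprime (a : ℤ) b := Nat.isCoprime_iff_coprime.2 hab
    rw [Nat.cast_mul] at hD hc
    obtain ⟨γ, E, N, Λ, a1, a2, a3, a4, a5, a6, a7, a8⟩ := iha (by omega) (D' := b * D')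
      (by rw [hD, mul_assoc]) (hc'.mul_right hc.of_mul_left_left)
      fun l hl hd => h l hl (hd.mul_right b)
    obtain ⟨γ', E', N', Λ', b1, b2, b3, b4, b5, b6, b7, b8⟩ := ihb (by omega) (D' := a * D')
      (by rw [hD]; ring) (hc'.symm.mul_right hc.of_mul_left_right)
      fun l hl hd => h l hl (hd.mul_left a)
    have hE : (γ * E).Coprime (γ' * E') := Nat.coprime_of_dvd fun l hl h1 h2 =>
      hl.one_lt.ne' (Nat.eq_one_of_dvd_coprimes hab (a2 l hl h1) (b2 l hl h2))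
    obtain ⟨u, v, e⟩ := Nat.isCoprime_iff_coprime.2 hE.coprime_mul_left.coprime_mul_left_right
    have da : (a : ℤ) ∣ (a * b : ℕ) := Int.natCast_dvd_natCast.2 (dvd_mul_right a b)
    have db : (b : ℤ) ∣ (a * b : ℕ) := Int.natCast_dvd_natCast.2 (dvd_mul_left b a)
    refine ⟨γ * γ', E * E', N * N', Λ * Λ',
      hE.coprime_mul_right.coprime_mul_right_right.mul_dvd_of_dvd_of_dvd a1 b1, fun l hl hd => ?_,
      mul_ne_zero a3 b3, Nat.mul_pos a4 b4, (Nat.mul_le_mul a5 b5).trans_eq (by ring), ?_, ?_,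
      ((a8.mono (fun p hp => ⟨hp.1, fun i => da.trans (hp.2.1 i), fun i => da.trans (hp.2.2 i)⟩)
        (fun _ _ _ _ h => h) le_rfl).and (b8.mono (fun p hp => ⟨hp.1, fun i => db.trans (hp.2.1 i),
        fun i => db.trans (hp.2.2 i)⟩) (fun _ _ _ _ h => h) le_rfl)).mono (fun _ h => h)
        (fun p p' _ _ ⟨⟨j1, d1⟩, ⟨j2, d2⟩⟩ => ⟨j1 * (v * E') + j2 * (u * E), fun i => ?_⟩) le_rfl⟩
    · rw [mul_mul_mul_comm, hl.dvd_mul] at hd
      exact hd.elim (fun h => (a2 l hl h).mul_right b) fun h => (b2 l hl h).mul_left a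
    · rw [mul_pow]
      exact (Nat.mul_le_mul a6 b6).trans_eq (by ring)
    · rw [mul_mul_mul_comm, mul_pow, hab.card_divisors_mul]
      exact (Nat.mul_le_mul a7 b7).trans_eq (by ring)
    · push_cast
      refine IsCoprime.mul_dvd ⟨u, v, e⟩ ?_ ?_
      · exact t1_eq (dvd_add (d1 i) (dvd_mul_right (E : ℤ) (u * (j1 - j2) * p i)))
          (by linear_combination (j1 * p i) * e)
      · exact t1_eq (dvd_add (d2 i) (dvd_mul_right (E' : ℤ) (v * (j2 - j1) * p i)))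
          (by linear_combination (j2 * p i) * e)

end Pool.Agent.MP_d0fd9b_nt.S64

end

section
namespace Pool.Agent.MP_d0fd9b_nt.S64

open Finset S72 H72

lemma l5_det (v : Fin 3 → ℂ × ℂ) (p : Fin 3 → ℤ) (s : ℂ)
    (h : ∀ i, det2 (v (i + 1)) (v (i + 2)) = p i * s) (y y' : Fin 3 → ℤ) :
    det2 (∑ i, y i • v i) (∑ i, y' i • v i) =
      ((p 0 * (y 1 * y' 2 - y 2 * y' 1) + p 1 * (y 2 * y' 0 - y 0 * y' 2) +
        p 2 * (y 0 * y' 1 - y 1 * y' 0) : ℤ) : ℂ) * s := by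
  have h0 : det2 (v 1) (v 2) = p 0 * s := h 0
  have h1 : det2 (v 2) (v 0) = p 1 * s := h 1
  have h2 : det2 (v 0) (v 1) = p 2 * s := h 2
  simp only [det2, Fin.sum_univ_three, Prod.fst_add, Prod.snd_add, Prod.smul_fst,
    Prod.smul_snd] at *
  simp only [zsmul_eq_mul]
  push_cast
  linear_combination ((y 1 : ℂ) * y' 2 - y 2 * y' 1) * h0 + ((y 2 : ℂ) * y' 0 - y 0 * y' 2) * h1 +
    ((y 0 : ℂ) * y' 1 - y 1 * y' 0) * h2

lemma l5_smul (a b : ℤ) (u v : ℂ × ℂ) : det2 (a • u) (b • v) = (a : ℂ) * b * det2 u v := by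
  simp only [det2, Prod.smul_fst, Prod.smul_snd]
  simp only [zsmul_eq_mul]
  ring

lemma l5_cop {L : AddSubgroup (ℂ × ℂ)} {x : ℂ × ℂ} {a b : ℤ} (h : IsCoprime a b)
    (ha : ∃ w ∈ L, x = a • w) (hb : ∃ w ∈ L, x = b • w) : ∃ w ∈ L, x = (a * b) • w := by
  obtain ⟨s, t, hst⟩ := h
  obtain ⟨w, w1, w2⟩ := ha
  obtain ⟨w', w1', w2'⟩ := hb
  refine ⟨s • w' + t • w, add_mem (zsmul_mem w1' _) (zsmul_mem w1 _), ?_⟩
  calc x = (s * a) • x + (t * b) • x := by rw [← add_smul, hst, one_smul]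
    _ = (s * a) • b • w' + (t * b) • a • w := by rw [← w2, ← w2']
    _ = _ := by module

lemma l5_bez {p : Fin 3 → ℤ} (h : Prim p) : ∃ a b c : ℤ, a * p 0 + b * p 1 + c * p 2 = 1 := by
  have h1 : Int.gcd (p 0) (Int.gcd (p 1) (p 2)) = 1 := by
    by_contra h2
    obtain ⟨l, hl, h3⟩ := Nat.exists_prime_and_dvd h2
    obtain ⟨i, hi⟩ := h l hl
    have h4 : (l : ℤ) ∣ Int.gcd (p 0) (Int.gcd (p 1) (p 2)) := Int.natCast_dvd_natCast.2 h3
    have h5 := h4.trans (Int.gcd_dvd_right _ _)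
    apply hi
    fin_cases i
    · exact h4.trans (Int.gcd_dvd_left _ _)
    · exact h5.trans (Int.gcd_dvd_left _ _)
    · exact h5.trans (Int.gcd_dvd_right _ _)
  have h2 := Int.gcd_eq_gcd_ab (p 0) (Int.gcd (p 1) (p 2))
  have h3 := Int.gcd_eq_gcd_ab (p 1) (p 2)
  rw [h1] at h2
  generalize Int.gcdA (p 0) _ = a at h2
  generalize Int.gcdB (p 0) _ = b at h2
  rw [h3] at h2
  exact ⟨a, Int.gcdA (p 1) (p 2) * b, Int.gcdB (p 1) (p 2) * b, by push_cast at h2; linear_combination -h2⟩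

lemma l5_par {v : Fin 3 → ℂ × ℂ} {p : Fin 3 → ℤ} {s : ℂ} (hs : s ≠ 0) (hp : Prim p)
    (h : ∀ i, det2 (v (i + 1)) (v (i + 2)) = p i * s) {y : Fin 3 → ℤ} (hy : ∑ i, y i • v i = 0) :
    ∃ k : ℤ, ∀ i, y i = k * p i := by
  obtain ⟨a, b, c, habc⟩ := l5_bez hp
  have key : ∀ y' : Fin 3 → ℤ, p 0 * (y 1 * y' 2 - y 2 * y' 1) + p 1 * (y 2 * y' 0 - y 0 * y' 2) +
      p 2 * (y 0 * y' 1 - y 1 * y' 0) = 0 := fun y' => by
    have h1 := l5_det v p s h y y'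
    rw [hy] at h1
    have h2 : det2 0 (∑ i, y' i • v i) = 0 := by simp [det2]
    rw [h2] at h1
    exact_mod_cast (mul_eq_zero.1 h1.symm).resolve_right hs
  have k0 := key ![1, 0, 0]
  have k1 := key ![0, 1, 0]
  have k2 := key ![0, 0, 1]
  simp only [Matrix.cons_val_zero, Matrix.cons_val_one, Matrix.cons_val] at k0 k1 k2
  refine ⟨a * y 0 + b * y 1 + c * y 2, fun i => ?_⟩
  fin_cases i
  · show y 0 = _ * p 0
    linear_combination (-y 0) * habc - b * k2 + c * k1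
  · show y 1 = _ * p 1
    linear_combination (-y 1) * habc + a * k2 - c * k0
  · show y 2 = _ * p 2
    linear_combination (-y 2) * habc - a * k1 + b * k0

theorem class_count {n : Fin 3 → ℤ} {m : ℤ} {c q B g γ E Λ : ℕ} {b : Fin 3 → ℝ} {ρ κ μ W : ℝ}
    (hμ : 0 < μ) (hW : 0 < W) (D0 : Dl n m ≠ 0) (hD : (Dl n m).natAbs = c * q * B)
    (c1 : c.Coprime q) (c2 : c.Coprime (γ * E)) (c3 : q.Coprime (γ * E)) (hγ : γ ∣ g) (hΛ : 1 ≤ Λ)
    (h1 : B ≤ Λ * γ * E) (h2 : B ^ 2 ≤ Λ * γ ^ 3 * E ^ 2) (T : Finset (Fin 3 → ℤ))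
    (p₀ : (Fin 3 → ℤ) → Fin 3 → ℤ)
    (hT : ∀ p ∈ T, Dat2 n m p b ρ κ μ W ∧ (∀ i, p i = g * p₀ p i) ∧ Prim (p₀ p))
    (hR : ∀ p ∈ T, ∀ p' ∈ T, (∃ j : ℤ, ∀ i, (c : ℤ) ∣ p' i - j * p i) ∧
      (∃ c' r₀ r₁ r₂ : ℤ, 0 < c' ∧ c' ≤ 18 ∧
        ∀ i, (q : ℤ) ∣ c' * p' i - (r₀ * p i + r₁ * E1 n m p i + r₂ * E2 n m p i)) ∧
      ∃ j : ℤ, ∀ i, (E : ℤ) ∣ p₀ p' i - j * p₀ p i) :
    (#T : ℝ) ≤ 10 ^ 35 * |κ| * Λ *
      (1 + |ρ| / (|(Dl n m : ℝ)| * μ) + ρ ^ 2 / ((Dl n m : ℝ) ^ 2 * W)) := by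
  classical
  rcases T.eq_empty_or_nonempty with rfl | ⟨p, hp⟩
  · rw [card_empty, Nat.cast_zero]; positivity
  obtain ⟨⟨hb, ⟨i₀, pi0, hκ⟩, L, δ, g₀, v, ⟨Pd, Pr, Pμ⟩, hδ, g0, hv, hρ, hdet, h0, ⟨α, α1, α2⟩,
    β, β1, β2⟩, hg, hpr⟩ := hT p hp
  have cqB : c * q * B ≠ 0 := hD ▸ Int.natAbs_ne_zero.2 D0
  have c0 : c ≠ 0 := left_ne_zero_of_mul (left_ne_zero_of_mul cqB)
  have q0 : q ≠ 0 := right_ne_zero_of_mul (left_ne_zero_of_mul cqB)
  have B0 : B ≠ 0 := right_ne_zero_of_mul cqB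
  have x0 : Λ * γ * E ≠ 0 := by omega
  have γ0 : γ ≠ 0 := right_ne_zero_of_mul (left_ne_zero_of_mul x0)
  have E0 : E ≠ 0 := right_ne_zero_of_mul x0
  have gg0 : (g : ℤ) ≠ 0 := left_ne_zero_of_mul (hg i₀ ▸ pi0)
  have δ0 : δ ≠ 0 := norm_pos_iff.1 (hW.trans_le hδ)
  obtain ⟨g₁, hg₁⟩ := hγ
  obtain ⟨e, he⟩ : (q : ℤ) ∣ Dl n m := by
    rw [← Int.natAbs_dvd_natAbs, Int.natAbs_natCast, hD]
    exact (dvd_mul_left q c).mul_right B
  set u : (Fin 3 → ℤ) → ℂ × ℂ := fun y => ∑ i, y i • v i with hu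
  have mem : ∀ y, u y ∈ L := fun y => sum_mem fun i _ => zsmul_mem (hv i) _
  obtain ⟨c₀, hc₀, c₀d, c₀le⟩ : ∃ c₀ : ℤ, 1 ≤ c₀ ∧ (∀ c' : ℤ, 0 < c' → c' ≤ 18 → c' ∣ c₀) ∧
      250 * c₀ ^ 2 ≤ 10 ^ 35 := by
    refine ⟨12252240, by norm_num, fun c' a1 a2 => ?_, by norm_num⟩
    interval_cases c' <;> norm_num
  have lin : ∀ (y τ : Fin 3 → ℤ) (j a : ℤ), (∀ i, y i = j * p i + a * τ i) → u y = a • u τ :=
    fun y τ j a h => by
      have : u y = j • ∑ i, p i • v i + a • u τ := by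
        simp only [hu, smul_sum, smul_smul, ← sum_add_distrib, ← add_smul]
        exact sum_congr rfl fun i _ => by rw [h i]
      rw [this, h0, smul_zero, zero_add]
  have A1 : ∀ p' ∈ T, ∃ w ∈ L, c₀ • u p' = ((c : ℤ) * q) • w := fun p' hp' => by
    obtain ⟨⟨j, hj⟩, ⟨c', r₀, r₁, r₂, a1, a2, a3⟩, -⟩ := hR p hp p' hp'
    choose σ hσ using hj
    choose τ hτ using a3
    obtain ⟨c'', hc''⟩ := c₀d c' a1 a2
    refine l5_cop (Nat.isCoprime_iff_coprime.2 c1) ⟨c₀ • u σ, zsmul_mem (mem _) _, ?_⟩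
      ⟨c'' • ((r₁ * e) • α + (r₂ * e) • β + u τ), zsmul_mem
        (add_mem (add_mem (zsmul_mem α1 _) (zsmul_mem β1 _)) (mem _)) _, ?_⟩
    · rw [lin p' σ j c fun i => by linear_combination hσ i, smul_comm]
    · have : c' • u p' = r₀ • ∑ i, p i • v i + r₁ • ∑ i, E1 n m p i • v i +
          r₂ • ∑ i, E2 n m p i • v i + (q : ℤ) • u τ := by
        simp only [hu, smul_sum, smul_smul, ← sum_add_distrib, ← add_smul]
        exact sum_congr rfl fun i _ => by rw [← hτ i]; congr 1; ring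
      rw [hc'', mul_comm, mul_smul, this, h0, α2, β2, he]
      module
  have A2 : ∀ p' ∈ T, ∃ τ, u p' = ((g : ℤ) * E) • u τ := fun p' hp' => by
    obtain ⟨-, -, j, hj⟩ := hR p hp p' hp'
    choose τ hτ using hj
    refine ⟨τ, lin p' τ j _ fun i => ?_⟩
    rw [(hT p' hp').2.1 i, hg i]
    linear_combination (g : ℤ) * hτ i
  have cop : IsCoprime ((c : ℤ) * q) ((γ : ℤ) * E) := by
    rw [← Nat.cast_mul, ← Nat.cast_mul]
    exact Nat.isCoprime_iff_coprime.2 (Nat.Coprime.mul_left c2 c3)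
  have A3 : ∀ p' ∈ T, ∃ w ∈ L, c₀ • u p' = ((c : ℤ) * q * (γ * E)) • w := fun p' hp' => by
    obtain ⟨τ, hτ⟩ := A2 p' hp'
    refine l5_cop cop (A1 p' hp') ⟨(c₀ * g₁) • u τ, zsmul_mem (mem _) _, ?_⟩
    rw [hτ, hg₁]; push_cast; module
  have A4 : ∀ p' ∈ T, ∀ p'' ∈ T, ∃ N : ℤ, det2 (c₀ • u p') (c₀ • u p'') =
      N * ((((c : ℤ) * q) ^ 2 * (γ ^ 3 * E ^ 2) : ℤ) * δ) := fun p' hp' p'' hp'' => by
    obtain ⟨w, w1, w2⟩ := A1 p' hp'
    obtain ⟨w', w1', w2'⟩ := A1 p'' hp''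
    obtain ⟨τ, hτ⟩ := A2 p' hp'
    obtain ⟨τ', hτ'⟩ := A2 p'' hp''
    obtain ⟨N, hN⟩ := Pd w w1 w' w1'
    have a1 : det2 (c₀ • u p') (c₀ • u p'') = ((((c : ℤ) * q) ^ 2 * N : ℤ) : ℂ) * δ := by
      rw [w2, w2', l5_smul, hN]; push_cast; ring
    obtain ⟨N', hN'⟩ : ∃ N' : ℤ, det2 (c₀ • u p') (c₀ • u p'') =
        (((γ : ℤ) ^ 3 * E ^ 2 * N' : ℤ) : ℂ) * δ := by
      refine ⟨c₀ ^ 2 * g₁ ^ 3 * g₀ * (p₀ p 0 * (τ 1 * τ' 2 - τ 2 * τ' 1) +
        p₀ p 1 * (τ 2 * τ' 0 - τ 0 * τ' 2) + p₀ p 2 * (τ 0 * τ' 1 - τ 1 * τ' 0)), ?_⟩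
      rw [hτ, hτ', l5_smul, l5_smul, l5_det v p _ hdet, hg 0, hg 1, hg 2, hg₁]
      push_cast; ring
    have a2 : ((c : ℤ) * q) ^ 2 * N = (γ : ℤ) ^ 3 * E ^ 2 * N' := by
      exact_mod_cast mul_right_cancel₀ δ0 (a1.symm.trans hN')
    have a3 : IsCoprime ((γ : ℤ) ^ 3 * E ^ 2) (((c : ℤ) * q) ^ 2) :=
      (cop.symm.of_mul_left_left.pow).mul_left (cop.symm.of_mul_left_right.pow)
    obtain ⟨N₂, hN₂⟩ := a3.dvd_of_dvd_mul_left ⟨N', a2⟩
    exact ⟨N₂, by rw [a1, hN₂]; push_cast; ring⟩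
  have ρ0 : 0 ≤ ρ := le_trans (sum_nonneg fun i _ =>
    mul_nonneg ((abs_nonneg _).trans (hb i)) (norm_nonneg _)) hρ
  have c₀R : (1 : ℝ) ≤ c₀ := by exact_mod_cast hc₀
  have P1 : (0 : ℝ) < (c : ℝ) * q * (γ * E) := by positivity
  have P2 : (0 : ℝ) < ((c : ℝ) * q) ^ 2 * (γ ^ 3 * E ^ 2) := by positivity
  have hU := lat_count (T.image fun p' => c₀ • u p') (ρ := c₀ * ρ) (μ := (c : ℝ) * q * (γ * E) * μ)
    (D := ((c : ℝ) * q) ^ 2 * (γ ^ 3 * E ^ 2) * W)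
    (δ := (((c : ℤ) * q) ^ 2 * (γ ^ 3 * E ^ 2) : ℤ) * δ) (by positivity) (by positivity) (by positivity)
    (by
      rw [norm_mul, Complex.norm_intCast]
      push_cast
      rw [abs_of_pos P2]
      exact mul_le_mul_of_nonneg_left hδ P2.le)
    (fun x hx => by
      obtain ⟨p', hp', rfl⟩ := mem_image.1 hx
      rw [norm_zsmul ℝ, Real.norm_eq_abs, abs_of_pos (by linarith only [c₀R])]
      refine mul_le_mul_of_nonneg_left ((norm_sum_le _ _).trans (le_trans (sum_le_sum fun i _ => ?_) hρ))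
        (by linarith only [c₀R])
      rw [norm_zsmul ℝ, Real.norm_eq_abs]
      exact mul_le_mul_of_nonneg_right ((hT p' hp').1.1 i) (norm_nonneg _))
    (fun x hx y hy hxy => by
      obtain ⟨p', hp', rfl⟩ := mem_image.1 hx
      obtain ⟨p'', hp'', rfl⟩ := mem_image.1 hy
      obtain ⟨w, w1, w2⟩ := A3 p' hp'
      obtain ⟨w', w1', w2'⟩ := A3 p'' hp''
      rw [w2, w2'] at hxy ⊢
      rw [← smul_sub, norm_zsmul ℝ, Real.norm_eq_abs]
      push_cast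
      rw [abs_of_pos P1]
      exact mul_le_mul_of_nonneg_left
        (Pμ _ (sub_mem w1 w1') (sub_ne_zero.2 fun h => hxy (by rw [h]))) P1.le)
    (fun x hx y hy => by
      obtain ⟨p', hp', rfl⟩ := mem_image.1 hx
      obtain ⟨p'', hp'', rfl⟩ := mem_image.1 hy
      exact A4 p' hp' p'' hp'')
    (fun x hx y hy x' hx' y' hy' hne hd => by
      have mm : ∀ z ∈ T.image fun p' => c₀ • u p', z ∈ L := fun z hz => by
        obtain ⟨p', -, rfl⟩ := mem_image.1 hz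
        exact zsmul_mem (mem _) _
      exact Pr _ (sub_mem (mm x hx) (mm y hy)) _ (sub_mem (mm x' hx') (mm y' hy'))
        (sub_ne_zero.2 hne) hd)
  have pa : (0 : ℝ) < |(p i₀ : ℝ)| := abs_pos.2 (by exact_mod_cast pi0)
  have κ1 : 1 ≤ κ := by
    have := (hb i₀).trans hκ
    nlinarith only [pa, this]
  have hF : #T ≤ (2 * ⌊2 * κ⌋₊ + 1) * #(T.image fun p' => c₀ • u p') := by
    refine card_le_mul_card_image T _ fun x hx => ?_
    obtain ⟨p₁, hp₁, rfl⟩ := mem_image.1 hx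
    have hs : T.filter (fun p' => c₀ • u p' = c₀ • u p₁) ⊆
        (Icc (-(⌊2 * κ⌋₊ : ℤ)) ⌊2 * κ⌋₊).image fun k : ℤ => fun i => p₁ i + k * p i := fun p' hp' => by
      obtain ⟨hp', a1⟩ := mem_filter.1 hp'
      have a2 : u p' = u p₁ := smul_right_injective _ (by omega : c₀ ≠ 0) a1
      have a3 : ∑ i, (p₀ p' i - p₀ p₁ i) • v i = 0 := by
        refine (smul_eq_zero_iff_right gg0).1 ?_
        rw [← sub_eq_zero.2 a2]
        simp only [hu, smul_sum, smul_smul, ← sum_sub_distrib, ← sub_smul]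
        exact sum_congr rfl fun i _ => by
          rw [(hT p' hp').2.1 i, (hT p₁ hp₁).2.1 i]; congr 1; ring
      obtain ⟨k, hk⟩ := l5_par (s := g * (g₀ * δ))
        (mul_ne_zero (by exact_mod_cast gg0) (mul_ne_zero (by exact_mod_cast g0) δ0)) hpr
        (fun i => by rw [hdet i, hg i]; push_cast; ring) a3
      have a4 : ∀ i, p' i = p₁ i + k * p i := fun i => by
        rw [(hT p' hp').2.1 i, (hT p₁ hp₁).2.1 i, hg i]
        linear_combination (g : ℤ) * hk i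
      refine mem_image.2 ⟨k, ?_, funext fun i => (a4 i).symm⟩
      have a5 : |(k : ℝ)| * |(p i₀ : ℝ)| ≤ 2 * κ * |(p i₀ : ℝ)| := by
        have b1 : (k : ℝ) * p i₀ = p' i₀ - p₁ i₀ := by
          rw [a4 i₀]; push_cast; ring
        rw [← abs_mul, b1]
        have b2 := (hT p' hp').1.1 i₀
        have b3 := (hT p₁ hp₁).1.1 i₀
        have b4 := abs_sub (p' i₀ : ℝ) (p₁ i₀)
        linarith only [hκ, b2, b3, b4]
      have a6 : k.natAbs ≤ ⌊2 * κ⌋₊ := by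
        refine Nat.le_floor ?_
        rw [Nat.cast_natAbs, Int.cast_abs]
        exact le_of_mul_le_mul_right a5 pa
      rw [mem_Icc]
      omega
    refine (card_le_card hs).trans (card_image_le.trans ?_)
    rw [Int.card_Icc]
    omega
  have hF' : (#T : ℝ) ≤ 5 * κ * #(T.image fun p' => c₀ • u p') := by
    refine (Nat.cast_le.2 hF).trans ?_
    push_cast
    refine mul_le_mul_of_nonneg_right ?_ (Nat.cast_nonneg _)
    have := Nat.floor_le (show 0 ≤ 2 * κ by linarith only [κ1])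
    linarith only [κ1, this]
  have DR : |(Dl n m : ℝ)| = c * q * B := by
    rw [← Int.cast_abs, ← Nat.cast_natAbs, hD]; push_cast; ring
  have DR2 : (Dl n m : ℝ) ^ 2 = (c * q) ^ 2 * B ^ 2 := by rw [← sq_abs, DR]; ring
  have h1' : (B : ℝ) ≤ Λ * γ * E := by exact_mod_cast h1
  have h2' : (B : ℝ) ^ 2 ≤ Λ * γ ^ 3 * E ^ 2 := by exact_mod_cast h2
  have Λ1 : (1 : ℝ) ≤ Λ := by exact_mod_cast hΛ
  have c₀le' : 250 * (c₀ : ℝ) ^ 2 ≤ 10 ^ 35 := by exact_mod_cast c₀le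
  have cc : (c₀ : ℝ) ≤ c₀ ^ 2 := by nlinarith only [c₀R]
  have t0 : (1 : ℝ) ≤ c₀ ^ 2 * Λ := by nlinarith only [c₀R, Λ1]
  have t1 : c₀ * ρ / ((c : ℝ) * q * (γ * E) * μ) ≤ c₀ ^ 2 * Λ * (ρ / (c * q * B * μ)) := by
    rw [← mul_div_assoc, div_le_div_iff₀ (by positivity) (by positivity)]
    calc _ = (ρ * c * q * μ) * (c₀ * B) := by ring
      _ ≤ (ρ * c * q * μ) * (c₀ ^ 2 * (Λ * γ * E)) := by gcongr
      _ = _ := by ring
  have t2 : (c₀ * ρ) ^ 2 / (((c : ℝ) * q) ^ 2 * (γ ^ 3 * E ^ 2) * W) ≤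
      c₀ ^ 2 * Λ * (ρ ^ 2 / ((c * q) ^ 2 * B ^ 2 * W)) := by
    rw [← mul_div_assoc, div_le_div_iff₀ (by positivity) (by positivity)]
    calc _ = (c₀ ^ 2 * ρ ^ 2 * (c * q) ^ 2 * W) * B ^ 2 := by ring
      _ ≤ (c₀ ^ 2 * ρ ^ 2 * (c * q) ^ 2 * W) * (Λ * γ ^ 3 * E ^ 2) := by gcongr
      _ = _ := by ring
  rw [DR, DR2, abs_of_nonneg ρ0, abs_of_pos (by linarith only [κ1] : 0 < κ)]
  calc (#T : ℝ) ≤ 5 * κ * (50 * (c₀ ^ 2 * Λ *
        (1 + ρ / (c * q * B * μ) + ρ ^ 2 / ((c * q) ^ 2 * B ^ 2 * W)))) := by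
        refine hF'.trans (mul_le_mul_of_nonneg_left (hU.trans ?_) (by linarith only [κ1]))
        linarith only [t0, t1, t2]
    _ = 250 * c₀ ^ 2 * (κ * Λ * (1 + ρ / (c * q * B * μ) + ρ ^ 2 / ((c * q) ^ 2 * B ^ 2 * W))) := by
        ring
    _ ≤ 10 ^ 35 * (κ * Λ * (1 + ρ / (c * q * B * μ) + ρ ^ 2 / ((c * q) ^ 2 * B ^ 2 * W))) := by
        gcongr
    _ = _ := by ring

end Pool.Agent.MP_d0fd9b_nt.S64

end

section
namespace Pool.Agent.MP_d0fd9b_nt.S64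

open Finset S72 H72

lemma l6_cop {a b : ℕ} (h : ∀ l : ℕ, l.Prime → l ∣ a → ¬ l ∣ b) : a.Coprime b := by
  by_contra h1
  obtain ⟨l, hl, h2, h3⟩ := Nat.Prime.not_coprime_iff_dvd.1 h1
  exact h l hl h2 h3

lemma l6_root {N Λ B : ℕ} (h : (N * Λ) ^ 6 ≤ #B.divisors ^ 36 * B ^ 5) :
    (N : ℝ) * Λ ≤ tau B ^ 6 * (B : ℝ) ^ (5 / 6 : ℝ) := by
  have t0 := tau_nonneg B
  refine le_of_pow_le_pow_left₀ (n := 6) (by norm_num) (by positivity) ?_
  have e : ((B : ℝ) ^ (5 / 6 : ℝ)) ^ 6 = (B : ℝ) ^ 5 := by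
    rw [← Real.rpow_natCast, ← Real.rpow_mul (Nat.cast_nonneg _), ← Real.rpow_natCast]
    norm_num
  rw [mul_pow (tau B ^ 6), e, ← pow_mul]
  unfold tau
  exact_mod_cast h

theorem fibre2 {n : Fin 3 → ℤ} {m : ℤ} {c q B : ℕ} {b : Fin 3 → ℝ} {ρ κ μ W : ℝ}
    (hμ : 0 < μ) (hW : 0 < W) (hA : Adm n m c q B) (S : Finset (Fin 3 → ℤ))
    (hS : ∀ p ∈ S, Ari n m p ∧ Dat2 n m p b ρ κ μ W) :
    (#S : ℝ) ≤ 10 ^ 35 * |κ| * (1 + |ρ| / (|(Dl n m : ℝ)| * μ) + ρ ^ 2 / ((Dl n m : ℝ) ^ 2 * W)) *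
      ((tau q * tau B) ^ 19 * Rt c (n 0) (n 1) * (B : ℝ) ^ (5 / 6 : ℝ)) := by
  classical
  have tq := tau_nonneg q
  have tB := tau_nonneg B
  rcases S.eq_empty_or_nonempty with rfl | ⟨p₁, hp₁⟩
  · rw [card_empty, Nat.cast_zero]
    positivity
  obtain ⟨n0, m0, D0, hpr, -⟩ := (hS p₁ hp₁).1
  obtain ⟨hD, hsq, hc, hq, hB⟩ := hA
  choose! g p₀ hg using fun p (hp : p ∈ S) => (hS p hp).1.2.2.2.2.2.2
  have h0 : c * q * B ≠ 0 := hD ▸ Int.natAbs_ne_zero.2 D0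
  have c0 : c ≠ 0 := left_ne_zero_of_mul (left_ne_zero_of_mul h0)
  have q0 : q ≠ 0 := right_ne_zero_of_mul (left_ne_zero_of_mul h0)
  have B0 : B ≠ 0 := right_ne_zero_of_mul h0
  have dv : ∀ k : ℕ, (k : ℤ) ∣ Dl n m ↔ k ∣ c * q * B := fun k => by rw [Int.natCast_dvd, hD]
  have cD : (c : ℤ) ∣ Dl n m := (dv c).2 ⟨q * B, mul_assoc _ _ _⟩
  have qD : (q : ℤ) ∣ Dl n m := (dv q).2 ⟨c * B, by ring⟩
  have BD : (B : ℤ) ∣ Dl n m := (dv B).2 (dvd_mul_left _ _)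
  have nq : ∀ l : ℕ, l.Prime → (l : ℤ) ∣ q → ¬ (l : ℤ) ∣ m := fun l hl h1 h2 =>
    (Nat.prime_iff_prime_int.1 hl).not_isUnit (hq.isUnit_of_dvd' h1 h2)
  have c1 : IsCoprime (q : ℤ) (n 0 * n 1 * m) := by
    refine IsCoprime.mul_right (coprime_of fun l hl h1 h2 => nq l hl h1 ?_) hq
    refine (Nat.prime_iff_prime_int.1 hl).dvd_of_dvd_pow (n := 3) ?_
    have := dvd_add (h1.trans qD) (h2.mul_right (n 2))
    rwa [Dl, sub_add_cancel] at this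
  have cg : ∀ p ∈ S, ∀ l : ℕ, l.Prime → l ∣ c → ¬ l ∣ g p := by
    intro p hp l hl h1 h2
    have h3 := (hg p hp).2.2.2 l hl (hc l hl h1).1 h2
    rw [← Nat.cast_pow, dv, mul_assoc] at h3
    have h4 := (Nat.Coprime.pow_left 2 (hl.coprime_iff_not_dvd.2 (hc l hl h1).2.1)).dvd_of_dvd_mul_right h3
    exact hl.one_lt.ne' (Nat.isUnit_iff.1 (hsq l (by rwa [← pow_two])))
  have gd : ∀ p ∈ S, g p ∈ (q * B).divisors := fun p hp =>
    Nat.mem_divisors.2 ⟨(l6_cop fun l hl h1 h2 => cg p hp l hl h2 h1).dvd_of_dvd_mul_left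
      (by rw [← mul_assoc]; exact (dv _).1 (hg p hp).2.2.1), mul_ne_zero q0 B0⟩
  obtain ⟨D', hD'⟩ := id BD
  have cB : IsCoprime (B : ℤ) D' := by
    refine coprime_of fun l hl h1 h2 => ?_
    have h3 := hB l hl (Int.natCast_dvd_natCast.1 h1)
    have h4 : D'.natAbs = c * q := by
      rw [hD', Int.natAbs_mul, Int.natAbs_natCast, mul_comm] at hD
      exact mul_right_cancel₀ B0 hD
    rw [Int.natCast_dvd, h4] at h2
    rcases (Nat.Prime.dvd_mul hl).1 h2 with h5 | h5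
    · exact (hc l hl h5).2.2 h3
    · exact nq l hl (Int.natCast_dvd_natCast.2 h5) h3
  set Y : ℝ := 1 + |ρ| / (|(Dl n m : ℝ)| * μ) + ρ ^ 2 / ((Dl n m : ℝ) ^ 2 * W) with hY
  have Y0 : 0 ≤ Y := by positivity
  have key : ∀ g₀ ∈ (q * B).divisors, (#(S.filter fun p => g p = g₀) : ℝ) ≤
      10 ^ 35 * |κ| * Y * (tau q ^ 18 * tau B ^ 6 * Rt c (n 0) (n 1) * (B : ℝ) ^ (5 / 6 : ℝ)) := by
    intro g₀ hg₀
    obtain ⟨γ, E, N, Λ, a1, a2, -, a4, a5, a6, a7, a8⟩ := bad_cov2 n m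
      (Nat.pos_of_mem_divisors hg₀).ne' B0 hD' cB fun l hl h => hpr l hl (hB l hl h)
    have hp : ∀ p, p ∈ S ∧ g p = g₀ → ∀ i, p i = g₀ * p₀ p i := fun p h i => h.2 ▸ (hg p h.1).1 i
    have cov := (((sharp_cov n m c0 cD (coprime_of fun l hl h =>
        (hc l hl (Int.natCast_dvd_natCast.1 h)).2.2)).mono (P' := fun p => p ∈ S ∧ g p = g₀)
        (fun p h => ⟨fun i => cD.trans ((hS p h.1).1.2.2.2.2.1 i), fun l hl h1 => by
          obtain ⟨i, hi⟩ := (hg p h.1).2.1 l hl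
          refine ⟨i, fun h2 => ?_⟩
          rw [(hg p h.1).1 i] at h2
          exact ((Nat.prime_iff_prime_int.1 hl).dvd_or_dvd h2).elim
            (fun h3 => cg p h.1 l hl h1 (Int.natCast_dvd_natCast.1 h3)) hi⟩)
        (fun _ _ _ _ h => h) le_rfl).and
      ((good_cov n m q0 (mul_ne_zero (mul_ne_zero (n0 0) (n0 1)) m0) c1).mono (fun _ _ => trivial)
        (fun _ _ _ _ h => h) le_rfl)).and
      (cov_comap a8 p₀ (fun p h => ⟨(hg p h.1).2.1, fun i => by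
          have := BD.trans ((hS p h.1).1.2.2.2.2.1 i)
          rw [Qd, hp p h i, hp p h (i + 1), hp p h (i + 2)] at this
          exact this.trans (dvd_of_eq (by rw [Qd]; ring)), fun i => by
          have := BD.trans ((hS p h.1).1.2.2.2.2.2.1 i)
          rw [Cub, hp p h (i + 1), hp p h (i + 2)] at this
          exact this.trans (dvd_of_eq (by rw [Cub]; ring))⟩)
        fun x y hx hy e => funext fun i => by rw [hp x hx i, hp y hy i, e])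
    have h1 := cov (S.filter fun p => g p = g₀) (fun p h => mem_filter.1 h)
      ⌊10 ^ 35 * |κ| * Λ * Y⌋₊ fun T hT hR => Nat.le_floor (class_count hμ hW D0 hD
        (l6_cop fun l hl h h' => (hc l hl h).2.1 (h'.mul_right _))
        (l6_cop fun l hl h h' => (hc l hl h).2.1 ((a2 l hl h').mul_left _))
        (l6_cop fun l hl h h' => nq l hl (Int.natCast_dvd_natCast.2 h) (hB l hl (a2 l hl h')))
        a1 a4 a5 a6 T p₀ (fun p h => ⟨(hS p (mem_filter.1 (hT h)).1).2, hp p (mem_filter.1 (hT h)),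
          (hg p (mem_filter.1 (hT h)).1).2.1⟩)
        fun p h p' h' => ⟨(hR p h p' h').1.1, (hR p h p' h').1.2, (hR p h p' h').2⟩)
    have h2 := l6_root a7
    calc (#(S.filter fun p => g p = g₀) : ℝ)
        ≤ Rt c (n 0) (n 1) * tau q ^ 18 * N * ⌊10 ^ 35 * |κ| * Λ * Y⌋₊ := by
          unfold tau
          exact_mod_cast h1
      _ ≤ Rt c (n 0) (n 1) * tau q ^ 18 * N * (10 ^ 35 * |κ| * Λ * Y) :=
          mul_le_mul_of_nonneg_left (Nat.floor_le (by positivity)) (by positivity)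
      _ = 10 ^ 35 * |κ| * Y * (tau q ^ 18 * Rt c (n 0) (n 1)) * (N * Λ) := by ring
      _ ≤ 10 ^ 35 * |κ| * Y * (tau q ^ 18 * Rt c (n 0) (n 1)) * (tau B ^ 6 * (B : ℝ) ^ (5 / 6 : ℝ)) :=
          mul_le_mul_of_nonneg_left h2 (by positivity)
      _ = _ := by ring
  rw [card_eq_sum_card_fiberwise (f := g) (t := (q * B).divisors) fun p hp => gd p hp, Nat.cast_sum]
  refine (sum_le_card_nsmul _ _ _ key).trans ?_
  have h3 : tau B ^ 7 ≤ tau B ^ 19 := pow_le_pow_right₀ (one_le_tau B0) (by norm_num)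
  rw [nsmul_eq_mul]
  calc _ ≤ tau q * tau B * (10 ^ 35 * |κ| * Y *
        (tau q ^ 18 * tau B ^ 6 * Rt c (n 0) (n 1) * (B : ℝ) ^ (5 / 6 : ℝ))) :=
        mul_le_mul_of_nonneg_right (tau_mul_le q B) (by positivity)
    _ = 10 ^ 35 * |κ| * Y * (tau q ^ 19 * Rt c (n 0) (n 1) * (B : ℝ) ^ (5 / 6 : ℝ)) * tau B ^ 7 := by
        ring
    _ ≤ 10 ^ 35 * |κ| * Y * (tau q ^ 19 * Rt c (n 0) (n 1) * (B : ℝ) ^ (5 / 6 : ℝ)) * tau B ^ 19 :=
        mul_le_mul_of_nonneg_left h3 (by positivity)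
    _ = _ := by ring

end Pool.Agent.MP_d0fd9b_nt.S64

end

end

-- part MP_d0fd9b_nt.S64.Ana
section

/-! Mean values and the sieve step. -/

set_option autoImplicit false

section
namespace Pool.Agent.MP_d0fd9b_nt.S64

open Finset S72 H72

/-- the radical -/
def n1_rad (n : ℕ) : ℕ := ∏ l ∈ n.primeFactors, l

lemma n1_rad_pos (n : ℕ) : 0 < n1_rad n :=
  prod_pos fun _ h => (Nat.prime_of_mem_primeFactors h).pos

/-- the weight -/
noncomputable def n1_f (n : ℕ) : ℝ := (n : ℝ) ^ (-(1 / 12) : ℝ) / n1_rad n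

lemma n1_f_nonneg (n : ℕ) : 0 ≤ n1_f n := by unfold n1_f; positivity

lemma n1_f_mul {m n : ℕ} (h : Nat.Coprime m n) : n1_f (m * n) = n1_f m * n1_f n := by
  unfold n1_f n1_rad
  rw [h.primeFactors_mul, prod_union h.disjoint_primeFactors, Nat.cast_mul, Nat.cast_mul,
    Real.mul_rpow (by positivity) (by positivity), div_mul_div_comm]

lemma n1_f_pow {p : ℕ} (hp : p.Prime) (k : ℕ) :
    n1_f (p ^ (k + 1)) = (p : ℝ) ^ (-(13 / 12) : ℝ) * ((p : ℝ) ^ (-(1 / 12) : ℝ)) ^ k := by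
  have h0 : (0 : ℝ) < p := by exact_mod_cast hp.pos
  unfold n1_f n1_rad
  rw [Nat.primeFactors_prime_pow k.succ_ne_zero hp, prod_singleton, Nat.cast_pow,
    ← Real.rpow_natCast, ← Real.rpow_natCast, ← Real.rpow_mul h0.le, ← Real.rpow_mul h0.le,
    ← Real.rpow_add h0, ← Real.rpow_sub_one h0.ne']
  congr 1
  push_cast
  ring

lemma n1_loc {p : ℕ} (hp : p.Prime) : Summable (fun k : ℕ => ‖n1_f (p ^ k)‖) ∧
    ∑' k : ℕ, n1_f (p ^ k) ≤
      Real.exp ((1 - (2 : ℝ) ^ (-(1 / 12) : ℝ))⁻¹ * (p : ℝ) ^ (-(13 / 12) : ℝ)) := by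
  have h2 : (2 : ℝ) ≤ p := by exact_mod_cast hp.two_le
  have hx : (p : ℝ) ^ (-(1 / 12) : ℝ) ≤ (2 : ℝ) ^ (-(1 / 12) : ℝ) :=
    Real.rpow_le_rpow_of_nonpos two_pos h2 (by norm_num)
  have h1 : (2 : ℝ) ^ (-(1 / 12) : ℝ) < 1 :=
    Real.rpow_lt_one_of_one_lt_of_neg one_lt_two (by norm_num)
  have hs : HasSum (fun k : ℕ => n1_f (p ^ (k + 1)))
      ((p : ℝ) ^ (-(13 / 12) : ℝ) * (1 - (p : ℝ) ^ (-(1 / 12) : ℝ))⁻¹) := by
    simp only [n1_f_pow hp]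
    exact (hasSum_geometric_of_lt_one (by positivity) (hx.trans_lt h1)).mul_left _
  have hs' := (hasSum_nat_add_iff (f := fun k : ℕ => n1_f (p ^ k)) 1).1 hs
  refine ⟨by simpa only [Real.norm_of_nonneg (n1_f_nonneg _)] using hs'.summable, ?_⟩
  rw [hs'.tsum_eq]
  refine le_trans ?_ (Real.add_one_le_exp _)
  have e : ∑ i ∈ range 1, n1_f (p ^ i) = 1 := by simp only [range_one, n1_f, Nat.cast_pow, one_div, n1_rad, Nat.cast_prod, sum_singleton, pow_zero, Real.one_rpow, Nat.primeFactors_one, prod_empty, ne_eq, one_ne_zero, not_false_eq_true, div_self]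
  rw [e, mul_comm]
  have := sub_pos.2 h1
  gcongr

lemma n1_sum : ∃ C : ℝ, 0 ≤ C ∧ ∀ S : Finset ℕ, ∑ n ∈ S, n1_f n ≤ C := by
  classical
  have hz : Summable fun n : ℕ => (n : ℝ) ^ (-(13 / 12) : ℝ) :=
    Real.summable_nat_rpow.2 (by norm_num)
  have h1 : 0 < 1 - (2 : ℝ) ^ (-(1 / 12) : ℝ) :=
    sub_pos.2 (Real.rpow_lt_one_of_one_lt_of_neg one_lt_two (by norm_num))
  refine ⟨Real.exp ((1 - (2 : ℝ) ^ (-(1 / 12) : ℝ))⁻¹ * ∑' n : ℕ, (n : ℝ) ^ (-(13 / 12) : ℝ)),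
    (Real.exp_pos _).le, fun S => ?_⟩
  set s := S.biUnion Nat.primeFactors with hs
  have h := (EulerProduct.summable_and_hasSum_factoredNumbers_prod_filter_prime_tsum
    (f := n1_f) (by simp [n1_f, n1_rad]) n1_f_mul (fun hp => (n1_loc hp).1) s).2
  replace h := (hasSum_subtype_iff_indicator (f := n1_f)).1 h
  calc ∑ n ∈ S, n1_f n = ∑ n ∈ S, (Nat.factoredNumbers s).indicator n1_f n := by
        refine sum_congr rfl fun n hn => ?_
        rcases eq_or_ne n 0 with rfl | h0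
        · rw [Set.indicator_of_notMem fun h => Nat.ne_zero_of_mem_factoredNumbers h rfl]
          simp [n1_f]
        · rw [Set.indicator_of_mem (Nat.mem_factoredNumbers_of_primeFactors_subset h0
            (subset_biUnion_of_mem _ hn))]
    _ ≤ _ := sum_le_hasSum S (fun n _ => Set.indicator_nonneg (fun n _ => n1_f_nonneg n) n) h
    _ ≤ ∏ p ∈ s with p.Prime,
        Real.exp ((1 - (2 : ℝ) ^ (-(1 / 12) : ℝ))⁻¹ * (p : ℝ) ^ (-(13 / 12) : ℝ)) :=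
        prod_le_prod (fun p _ => tsum_nonneg fun _ => n1_f_nonneg _)
          fun p hp => (n1_loc (mem_filter.1 hp).2).2
    _ ≤ _ := by
        rw [← Real.exp_sum, ← mul_sum]
        gcongr
        exact hz.sum_le_tsum _ fun n _ => by positivity

lemma n1_sf {q : ℕ} (h : SF q) : (q : ℝ) ^ (-(11 / 12) : ℝ) ≤ 3 * n1_f q := by
  rcases eq_or_ne q 0 with rfl | h0
  · simp [n1_f]
  have h1 : (1 : ℝ) ≤ q := by exact_mod_cast Nat.pos_of_ne_zero h0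
  have h2 : n1_rad q ^ 2 ∣ 6 * q := by
    rw [n1_rad, ← prod_pow]
    refine prod_dvd_of_isRelPrime (fun a ha b hb hab => Nat.coprime_iff_isRelPrime.1
      (Nat.coprime_pow_primes _ _ (Nat.prime_of_mem_primeFactors ha)
        (Nat.prime_of_mem_primeFactors hb) hab)) fun l hl => ?_
    have hp := Nat.prime_of_mem_primeFactors hl
    have hd := Nat.dvd_of_mem_primeFactors hl
    rcases le_or_gt 5 l with h5 | h5
    · exact (h l hp h5 hd).mul_left _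
    · rw [pow_two]
      refine mul_dvd_mul ?_ hd
      interval_cases l <;> simp_all (config := {decide := true})
  have h3 : (n1_rad q : ℝ) ^ 2 ≤ 6 * q := by exact_mod_cast Nat.le_of_dvd (by omega) h2
  have h4 : (n1_rad q : ℝ) ≤ 3 * (q : ℝ) ^ (5 / 6 : ℝ) := by
    refine le_of_sq_le_sq (h3.trans ?_) (by positivity)
    have : (q : ℝ) ≤ ((q : ℝ) ^ (5 / 6 : ℝ)) ^ 2 := by
      rw [← Real.rpow_natCast, ← Real.rpow_mul (by positivity)]
      exact (Real.rpow_one _).symm.trans_le (Real.rpow_le_rpow_of_exponent_le h1 (by norm_num))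
    linarith only [this]
  have h5 : (0 : ℝ) < n1_rad q := by exact_mod_cast n1_rad_pos q
  rw [n1_f, ← mul_div_assoc, le_div_iff₀ h5]
  calc _ ≤ (q : ℝ) ^ (-(11 / 12) : ℝ) * (3 * (q : ℝ) ^ (5 / 6 : ℝ)) := by gcongr
    _ = _ := by
      rw [mul_left_comm, ← Real.rpow_add (by positivity)]
      norm_num

lemma n1_cnt {r : ℕ} (hr : 0 < r) {M : ℝ} (hM : 0 ≤ M) (S : Finset ℤ)
    (h : ∀ m ∈ S, m ≠ 0 ∧ |(m : ℝ)| ≤ M ∧ (r : ℤ) ∣ m) : (#S : ℝ) ≤ 2 * M / r := by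
  have h1 : #S ≤ 2 * #((Ioc 0 ⌊M⌋₊).filter fun x => r ∣ x) := by
    refine card_le_mul_card_image_of_maps_to (f := Int.natAbs) (fun m hm => ?_) 2 fun x _ => ?_
    · obtain ⟨h0, h1, h2⟩ := h m hm
      refine mem_filter.2 ⟨mem_Ioc.2 ⟨Int.natAbs_pos.2 h0, Nat.le_floor ?_⟩, Int.natCast_dvd.1 h2⟩
      rwa [Nat.cast_natAbs, Int.cast_abs]
    · refine le_trans (card_le_card (t := {(x : ℤ), -(x : ℤ)}) fun m hm => ?_) card_le_two
      have := (mem_filter.1 hm).2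
      simp only [mem_insert, mem_singleton]
      omega
  rw [Nat.Ioc_filter_dvd_card_eq_div] at h1
  calc (#S : ℝ) ≤ 2 * ((⌊M⌋₊ / r : ℕ) : ℝ) := by exact_mod_cast h1
    _ ≤ 2 * ((⌊M⌋₊ : ℝ) / r) := by gcongr; exact Nat.cast_div_le
    _ ≤ 2 * (M / r) := by gcongr; exact Nat.floor_le hM
    _ = _ := by ring

theorem triple_sum : ∃ C : ℝ, 0 ≤ C ∧ ∀ M : ℝ, 0 ≤ M → ∀ T : Finset (ℤ × ℕ × ℕ),
    (∀ t ∈ T, t.1 ≠ 0 ∧ |(t.1 : ℝ)| ≤ M ∧ SF t.2.1 ∧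
      ∀ l : ℕ, l.Prime → l ∣ t.2.2 → (l : ℤ) ∣ t.1) →
    ∑ t ∈ T, (t.2.1 : ℝ) ^ (-(11 / 12) : ℝ) * (t.2.2 : ℝ) ^ (-(1 / 12) : ℝ) ≤ C * M := by
  classical
  obtain ⟨C, hC, h⟩ := n1_sum
  refine ⟨6 * (C * C), by positivity, fun M hM T hT => ?_⟩
  rw [← sum_fiberwise_of_maps_to (g := Prod.snd) (t := T.image Prod.snd)
    fun t ht => mem_image_of_mem _ ht]
  calc _ ≤ ∑ u ∈ T.image Prod.snd, 6 * M * (n1_f u.1 * n1_f u.2) := by
        refine sum_le_sum fun u hu => ?_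
        obtain ⟨t₀, ht₀, rfl⟩ := mem_image.1 hu
        rw [sum_congr rfl (g := fun _ => (t₀.2.1 : ℝ) ^ (-(11 / 12) : ℝ) *
          (t₀.2.2 : ℝ) ^ (-(1 / 12) : ℝ)) fun t ht => by rw [(mem_filter.1 ht).2], sum_const,
          nsmul_eq_mul]
        have h1 : (#(T.filter fun t => t.2 = t₀.2) : ℝ) ≤ 2 * M / n1_rad t₀.2.2 := by
          rw [← card_image_of_injOn (f := Prod.fst) fun a ha b hb e => Prod.ext e
            ((mem_filter.1 ha).2.trans (mem_filter.1 hb).2.symm)]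
          refine n1_cnt (n1_rad_pos _) hM _ fun m hm => ?_
          obtain ⟨t, ht, rfl⟩ := mem_image.1 hm
          obtain ⟨ht, e⟩ := mem_filter.1 ht
          refine ⟨(hT t ht).1, (hT t ht).2.1, Int.natCast_dvd.2 ?_⟩
          refine prod_primes_dvd _ (fun l hl => (Nat.prime_of_mem_primeFactors hl).prime)
            fun l hl => Int.natCast_dvd.1 ((hT t ht).2.2.2 l (Nat.prime_of_mem_primeFactors hl) ?_)
          rw [e]
          exact Nat.dvd_of_mem_primeFactors hl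
        have h2 := n1_sf (hT t₀ ht₀).2.2.1
        calc _ ≤ 2 * M / n1_rad t₀.2.2 * (3 * n1_f t₀.2.1 * (t₀.2.2 : ℝ) ^ (-(1 / 12) : ℝ)) := by
              gcongr
          _ = _ := by rw [n1_f.eq_1 t₀.2.2]; ring
    _ ≤ ∑ u ∈ (T.image fun t => t.2.1) ×ˢ (T.image fun t => t.2.2),
        6 * M * (n1_f u.1 * n1_f u.2) := by
        refine sum_le_sum_of_subset_of_nonneg (fun u hu => ?_) fun u _ _ =>
          mul_nonneg (by positivity) (mul_nonneg (n1_f_nonneg _) (n1_f_nonneg _))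
        obtain ⟨t, ht, rfl⟩ := mem_image.1 hu
        exact mem_product.2 ⟨mem_image_of_mem _ ht, mem_image_of_mem _ ht⟩
    _ = 6 * M * ((∑ q ∈ T.image fun t => t.2.1, n1_f q) * ∑ B ∈ T.image fun t => t.2.2, n1_f B) := by
        rw [← mul_sum, sum_product' (f := fun a b => n1_f a * n1_f b), sum_mul_sum]
    _ ≤ 6 * M * (C * C) := by
        gcongr
        exacts [sum_nonneg fun _ _ => n1_f_nonneg _, h _, h _]
    _ = _ := by ring

end Pool.Agent.MP_d0fd9b_nt.S64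

end

section
namespace Pool.Agent.MP_d0fd9b_nt.S64

open Finset S72 H72

theorem n2_exp {lam x : ℝ} (h0 : 0 ≤ x) (h1 : x ≤ 1) :
    Real.exp (lam * x) ≤ 1 + (Real.exp lam - 1) * x := by
  have := convexOn_exp.2 (Set.mem_univ 0) (Set.mem_univ lam) (sub_nonneg.2 h1) h0 (by ring)
  simp only [smul_eq_mul, mul_zero, zero_add, Real.exp_zero] at this
  rw [mul_comm lam x]
  linarith

theorem n2_sub (f : ℕ → ℝ) (hf : ∀ l, 0 ≤ f l) (P S : Finset ℕ)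
    (hS : ∀ c ∈ S, Squarefree c ∧ c.primeFactors ⊆ P) :
    ∑ c ∈ S, ∏ l ∈ c.primeFactors, f l ≤ Real.exp (∑ l ∈ P, f l) := by
  rw [← sum_image (s := S) (g := Nat.primeFactors) (f := fun T => ∏ l ∈ T, f l) fun a ha b hb e => by
    rw [← Nat.prod_primeFactors_of_squarefree (hS a ha).1, e,
      Nat.prod_primeFactors_of_squarefree (hS b hb).1]]
  refine (sum_le_sum_of_subset_of_nonneg (t := P.powerset) (fun T hT => ?_)
    fun T _ _ => prod_nonneg fun l _ => hf l).trans ?_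
  · obtain ⟨c, hc, rfl⟩ := mem_image.1 hT
    exact mem_powerset.2 (hS c hc).2
  · rw [← prod_one_add, Real.exp_sum]
    exact prod_le_prod (fun l _ => by linarith [hf l]) fun l _ => by
      linarith [Real.add_one_le_exp (f l)]

theorem rankin {lam : ℝ} (h : 0 ≤ lam) : ∃ C : ℝ, 0 ≤ C ∧ ∀ y : ℝ, 2 ≤ y → ∀ S : Finset ℕ,
    (∀ c ∈ S, Squarefree c ∧ ∀ l : ℕ, l.Prime → l ∣ c → (l : ℝ) ≤ y) →
    ∑ c ∈ S, al c / c * (c : ℝ) ^ (lam / Real.log y) ≤ C * Real.log y := by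
  obtain ⟨C1, hC1, m1⟩ := MP_48b1c3_nt.H54.mertens1
  obtain ⟨C2, -, m2⟩ := MP_48b1c3_nt.H54.mertens2
  obtain ⟨E, hE⟩ : ∃ E, E = Real.exp lam := ⟨_, rfl⟩
  have hE1 : 1 ≤ E := hE ▸ Real.one_le_exp h
  refine ⟨Real.exp (C2 + (E - 1) * (3 + 2 * C1) + E * 2), (Real.exp_pos _).le, fun y hy S hS => ?_⟩
  have hL : 1 / 2 ≤ Real.log y :=
    le_trans (by linarith [Real.log_two_gt_d9]) (Real.log_le_log two_pos hy)
  have hL0 : 0 < Real.log y := by linarith only [hL]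
  have e1 : ∀ c ∈ S, al c / c * (c : ℝ) ^ (lam / Real.log y) =
      ∏ l ∈ c.primeFactors, (1 + 1 / (l : ℝ)) / l * (l : ℝ) ^ (lam / Real.log y) := fun c hc => by
    rw [prod_mul_distrib, prod_div_distrib, Real.finsetProd_rpow _ _ fun _ _ => Nat.cast_nonneg _,
      ← Nat.cast_prod, Nat.prod_primeFactors_of_squarefree (hS c hc).1, al]
  rw [sum_congr rfl e1]
  refine (n2_sub (fun l => (1 + 1 / (l : ℝ)) / l * (l : ℝ) ^ (lam / Real.log y))
    (fun l => by positivity) (MP_48b1c3_nt.H54.PI 0 y) S fun c hc => ⟨(hS c hc).1, fun l hl => ?_⟩).trans ?_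
  · have hp := Nat.prime_of_mem_primeFactors hl
    exact MP_48b1c3_nt.H54.mem_PI.2 ⟨by exact_mod_cast hp.pos,
      (hS c hc).2 l hp (Nat.dvd_of_mem_primeFactors hl), hp⟩
  rw [← Real.exp_log hL0, ← Real.exp_add, Real.exp_log hL0, Real.exp_le_exp]
  have b1 : ∀ l ∈ MP_48b1c3_nt.H54.PI 0 y, (1 + 1 / (l : ℝ)) / l * (l : ℝ) ^ (lam / Real.log y) ≤
      1 / l + (E - 1) / Real.log y * (Real.log l / l) + E * ((l : ℝ) ^ 2)⁻¹ := fun l hl => by
    obtain ⟨h0, h1, -⟩ := MP_48b1c3_nt.H54.mem_PI.1 hl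
    have x0 : 0 ≤ Real.log l / Real.log y := div_nonneg (Real.log_natCast_nonneg l) hL0.le
    have x1 : Real.log l / Real.log y ≤ 1 := (div_le_one hL0).2 (Real.log_le_log h0 h1)
    have k := n2_exp (lam := lam) x0 x1
    rw [← hE] at k
    rw [Real.rpow_def_of_pos h0, (by ring : Real.log l * (lam / Real.log y) =
      lam * (Real.log l / Real.log y))]
    have k2 : Real.exp (lam * (Real.log l / Real.log y)) ≤ E := by nlinarith only [hE1, x1, k]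
    calc (1 + 1 / (l : ℝ)) / l * Real.exp (lam * (Real.log l / Real.log y))
        = 1 / l * Real.exp (lam * (Real.log l / Real.log y)) +
          ((l : ℝ) ^ 2)⁻¹ * Real.exp (lam * (Real.log l / Real.log y)) := by field_simp
      _ ≤ 1 / l * (1 + (E - 1) * (Real.log l / Real.log y)) + ((l : ℝ) ^ 2)⁻¹ * E := by gcongr
      _ = _ := by ring
  refine (sum_le_sum b1).trans ?_
  rw [sum_add_distrib, sum_add_distrib, ← mul_sum, ← mul_sum]
  have s1 := (abs_le.1 (m2 y hy)).2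
  have s2 : (E - 1) / Real.log y * ∑ l ∈ MP_48b1c3_nt.H54.PI 0 y, Real.log l / l ≤
      (E - 1) * (3 + 2 * C1) := by
    rw [div_mul_eq_mul_div, mul_div_assoc]
    refine mul_le_mul_of_nonneg_left ?_ (by linarith only [hE1])
    rw [div_le_iff₀ hL0]
    nlinarith only [m1 y (by linarith only [hy]), hC1, hL]
  have s3 : ∑ l ∈ MP_48b1c3_nt.H54.PI 0 y, ((l : ℝ) ^ 2)⁻¹ ≤ 2 := by
    refine (sum_le_sum_of_subset_of_nonneg (t := Ioo 0 (⌊y⌋₊ + 1)) (fun l hl => ?_)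
      fun _ _ _ => by positivity).trans ((sum_Ioo_inv_sq_le 0 _).trans (by norm_num))
    obtain ⟨-, h1, hp⟩ := MP_48b1c3_nt.H54.mem_PI.1 hl
    exact mem_Ioo.2 ⟨hp.pos, Nat.lt_succ_of_le (Nat.le_floor h1)⟩
  have s4 := mul_le_mul_of_nonneg_left s3 (by linarith only [hE1] : 0 ≤ E)
  linarith

end Pool.Agent.MP_d0fd9b_nt.S64

end

section
namespace Pool.Agent.MP_d0fd9b_nt.S64

open Finset S72 H72

lemma n3a_spaced (T : Finset ℤ) {V : ℝ} (hV : 0 ≤ V) {q : ℕ} (hq : q ≠ 0)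
    (h1 : ∀ x ∈ T, |(x : ℝ)| ≤ V) (h2 : ∀ x ∈ T, ∀ y ∈ T, (q : ℤ) ∣ x - y) :
    (#T : ℝ) ≤ 2 * V / q + 1 := by
  have q0 : (0 : ℝ) < q := by positivity
  have h3 : #T ≤ #(range (⌊2 * V / q⌋₊ + 1)) := by
    refine card_le_card_of_injOn (fun x => ⌊(x + V) / q⌋₊) (fun x hx => ?_) fun x hx y hy e => ?_
    · refine mem_coe.2 (mem_range.2 (Nat.lt_succ_of_le (Nat.floor_le_floor ?_)))
      gcongr
      linarith [(abs_le.1 (h1 x hx)).2]
    · have a1 : 0 ≤ (x + V) / q := div_nonneg (by linarith only [(abs_le.1 (h1 x hx)).1]) q0.le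
      have a2 : 0 ≤ (y + V) / q := div_nonneg (by linarith only [(abs_le.1 (h1 y hy)).1]) q0.le
      have b1 := Nat.floor_le a1
      have b2 := Nat.floor_le a2
      have b3 := Nat.lt_floor_add_one ((x + V) / q)
      have b4 := Nat.lt_floor_add_one ((y + V) / q)
      simp only at e
      rw [e] at b1 b3
      rw [le_div_iff₀ q0] at b1 b2
      rw [div_lt_iff₀ q0] at b3 b4
      have b5 : |((x - y : ℤ) : ℝ)| < q := by
        push_cast
        rw [abs_lt]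
        constructor <;> linarith only [b1, b4, b2, b3]
      exact sub_eq_zero.1 (Int.eq_zero_of_abs_lt_dvd (h2 x hx y hy) (by exact_mod_cast b5))
  rw [card_range] at h3
  have h4 : ((⌊2 * V / q⌋₊ : ℕ) : ℝ) ≤ 2 * V / q := Nat.floor_le (by positivity)
  have h5 : (#T : ℝ) ≤ (⌊2 * V / q⌋₊ : ℕ) + 1 := by exact_mod_cast h3
  linarith only [h4, h5]

lemma n3a_count {c : ℕ} {α β : ℤ} {U V : ℝ} (hc : c ≠ 0) (hU : 0 ≤ U) (hV : 0 ≤ V)
    (hβ : IsCoprime β c) {k k' : ℕ} (hk : k ≠ 0) (hk' : k' ≠ 0) (S : Finset (ℤ × ℤ))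
    (hS : ∀ x ∈ S, (x.1 ≠ 0 ∧ x.2 ≠ 0 ∧ |(x.1 : ℝ)| ≤ U ∧ |(x.2 : ℝ)| ≤ V ∧ IsCoprime x.2 c) ∧
      (k : ℤ) ∣ x.1 ∧ (k' : ℤ) ∣ x.2) :
    ∑ x ∈ S, (Rt c (α * x.1) (β * x.2) : ℝ) ≤ 2 * U / k * (2 * V / k' + c) := by
  have c0 : (0 : ℝ) < c := by positivity
  have h0 : (0 : ℤ) ∉ S.image Prod.fst := fun h => by
    obtain ⟨x, hx, e⟩ := mem_image.1 h
    exact (hS x hx).1.1 e
  have hA : (#(S.image Prod.fst) : ℝ) ≤ 2 * U / k := by
    have key : ∀ x ∈ insert 0 (S.image Prod.fst), |(x : ℝ)| ≤ U ∧ (k : ℤ) ∣ x := fun x hx => by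
      rcases mem_insert.1 hx with rfl | hx'
      · simp [hU]
      · obtain ⟨y, hy, rfl⟩ := mem_image.1 hx'
        exact ⟨(hS y hy).1.2.2.1, (hS y hy).2.1⟩
    have := n3a_spaced _ hU hk (fun x hx => (key x hx).1)
      fun x hx y hy => dvd_sub (key x hx).2 (key y hy).2
    rw [card_insert_of_notMem h0] at this
    push_cast at this
    linarith
  rw [← sum_fiberwise_of_maps_to (g := Prod.fst) (t := S.image Prod.fst)
    fun x hx => mem_image_of_mem _ hx]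
  refine (sum_le_card_nsmul _ _ (2 * V / k' + c) fun u _ => ?_).trans ?_
  · simp only [Rt, card_filter, Nat.cast_sum]
    rw [sum_comm]
    refine (sum_le_card_nsmul _ _ (2 * V / (k' * c : ℕ) + 1) fun t _ => ?_).trans (le_of_eq ?_)
    · rw [← Nat.cast_sum, ← card_filter,
        ← card_image_of_injOn (f := Prod.snd) fun x hx y hy e => Prod.ext
          ((mem_filter.1 (mem_filter.1 (mem_coe.1 hx)).1).2.trans
            (mem_filter.1 (mem_filter.1 (mem_coe.1 hy)).1).2.symm) e]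
      refine n3a_spaced _ hV (mul_ne_zero hk' hc) (fun x' hx' => ?_) fun x' hx' y' hy' => ?_
      · obtain ⟨x, hx, rfl⟩ := mem_image.1 hx'
        exact (hS x (mem_filter.1 (mem_filter.1 hx).1).1).1.2.2.2.1
      · obtain ⟨x, hx, rfl⟩ := mem_image.1 hx'
        obtain ⟨y, hy, rfl⟩ := mem_image.1 hy'
        obtain ⟨hx, x2⟩ := mem_filter.1 hx
        obtain ⟨hy, y2⟩ := mem_filter.1 hy
        obtain ⟨hx, x1⟩ := mem_filter.1 hx
        obtain ⟨hy, y1⟩ := mem_filter.1 hy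
        rw [x1] at x2
        rw [y1] at y2
        have d1 : (c : ℤ) ∣ β * (x.2 - y.2) := by
          rw [show β * (x.2 - y.2) = α * u * t ^ 3 - β * y.2 - (α * u * t ^ 3 - β * x.2) by ring]
          exact dvd_sub y2 x2
        push_cast
        exact IsCoprime.mul_dvd ((hS x hx).1.2.2.2.2.of_isCoprime_of_dvd_left (hS x hx).2.2)
          (dvd_sub (hS x hx).2.2 (hS y hy).2.2) (hβ.symm.dvd_of_dvd_mul_left d1)
    · rw [card_range, nsmul_eq_mul]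
      push_cast
      field_simp
  · rw [nsmul_eq_mul]
    gcongr

lemma n3a_swap {X : Type} (S : Finset X) (K : Finset ℕ) (P : ℕ → X → Prop)
    [∀ k, DecidablePred (P k)] [∀ x, DecidablePred fun k => P k x] {F R : X → ℝ} {w b : ℕ → ℝ}
    (hR : ∀ x, 0 ≤ R x) (hw : ∀ k, 0 ≤ w k)
    (hF : ∀ x ∈ S, F x ≤ ∑ k ∈ K.filter fun k => P k x, w k)
    (hb : ∀ k ∈ K, ∑ x ∈ S.filter (P k), R x ≤ b k) :
    ∑ x ∈ S, F x * R x ≤ ∑ k ∈ K, w k * b k := by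
  refine (sum_le_sum fun x hx => mul_le_mul_of_nonneg_right (hF x hx) (hR x)).trans ?_
  simp only [sum_filter, sum_mul]
  rw [sum_comm]
  refine sum_le_sum fun k hk => le_trans (le_of_eq ?_) (mul_le_mul_of_nonneg_left (hb k hk) (hw k))
  rw [sum_filter, mul_sum]
  exact sum_congr rfl fun x _ => by split_ifs <;> simp

lemma n3a_tau (s : ℕ) : ∃ C : ℝ, 0 ≤ C ∧ ∀ n : ℕ, n ≠ 0 → tau n ^ s ≤ C * √n := by
  obtain ⟨C, -, hC⟩ := divisor_bound (s * 2)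
  refine ⟨√C, Real.sqrt_nonneg _, fun n hn => ?_⟩
  rw [← Real.sqrt_mul (Nat.cast_nonneg _)]
  refine Real.le_sqrt_of_sq_le ?_
  rw [← pow_mul, tau]
  exact_mod_cast hC n hn

lemma n3a_al : ∃ C : ℝ, 0 ≤ C ∧ ∀ (x : ℤ) (U : ℝ), x ≠ 0 → |(x : ℝ)| ≤ U →
    al x.natAbs ^ 3 ≤ ∑ k ∈ (Icc 1 ⌊U⌋₊).filter fun k : ℕ => (k : ℤ) ∣ x, C * (√k)⁻¹ := by
  obtain ⟨C, C0, hC⟩ := n3a_tau 3
  refine ⟨C, C0, fun x U hx hU => ?_⟩
  have hn : x.natAbs ≠ 0 := Int.natAbs_ne_zero.2 hx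
  have hp : ∀ T ∈ x.natAbs.primeFactors.powerset, ∀ l ∈ T, l.Prime := fun T hT l hl =>
    Nat.prime_of_mem_primeFactors (mem_powerset.1 hT hl)
  have h1 : al x.natAbs ^ 3 ≤ ∏ l ∈ x.natAbs.primeFactors, (1 + 8 / (l : ℝ)) := by
    rw [al, ← prod_pow]
    refine prod_le_prod (fun _ _ => by positivity) fun l hl => ?_
    have l1 : (1 : ℝ) ≤ l := by exact_mod_cast (Nat.prime_of_mem_primeFactors hl).one_le
    have a1 : 1 / (l : ℝ) ≤ 1 := (div_le_one (by linarith)).2 l1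
    have a2 : 0 ≤ 1 / (l : ℝ) := by positivity
    rw [show 8 / (l : ℝ) = 8 * (1 / l) by ring]
    generalize 1 / (l : ℝ) = y at a1 a2
    linarith only [mul_nonneg a2 (sub_nonneg.2 a1), mul_nonneg a2 (mul_nonneg a2 (sub_nonneg.2 a1)), a2]
  rw [prod_one_add] at h1
  have h2 : ∀ T ∈ x.natAbs.primeFactors.powerset,
      ∏ l ∈ T, 8 / (l : ℝ) ≤ C * (√((∏ l ∈ T, l : ℕ) : ℝ))⁻¹ := fun T hT => by
    have k0 : ∏ l ∈ T, l ≠ 0 := prod_ne_zero_iff.2 fun l hl => (hp T hT l hl).ne_zero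
    have a1 := two_pow_le_tau k0
    rw [Nat.primeFactors_prod (hp T hT)] at a1
    have a2 := (pow_le_pow_left₀ (by positivity) a1 3).trans (hC _ k0)
    rw [← pow_mul, mul_comm, pow_mul] at a2
    rw [prod_div_distrib, prod_const, ← Nat.cast_prod]
    generalize ∏ l ∈ T, l = k at k0 a2
    have k1 : (0 : ℝ) < k := by positivity
    have k2 : 0 < √(k : ℝ) := Real.sqrt_pos.2 k1
    rw [div_le_iff₀ k1]
    refine (le_of_eq (by norm_num)).trans (a2.trans (le_of_eq ?_))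
    rw [mul_assoc, ← div_eq_inv_mul, Real.div_sqrt]
  refine (h1.trans (sum_le_sum h2)).trans ?_
  rw [← sum_image (g := fun T : Finset ℕ => ∏ l ∈ T, l) (f := fun k : ℕ => C * (√(k : ℝ))⁻¹)
    fun T hT T' hT' e => by
      rw [← Nat.primeFactors_prod (hp T hT), ← Nat.primeFactors_prod (hp T' hT')]
      exact congrArg Nat.primeFactors e]
  refine sum_le_sum_of_subset_of_nonneg (fun k hk => ?_) fun _ _ _ => by positivity
  obtain ⟨T, hT, rfl⟩ := mem_image.1 hk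
  have d1 : ∏ l ∈ T, l ∣ x.natAbs :=
    (prod_dvd_prod_of_subset _ _ _ (mem_powerset.1 hT)).trans (Nat.prod_primeFactors_dvd _)
  refine mem_filter.2 ⟨mem_Icc.2 ⟨Nat.pos_of_dvd_of_pos d1 (Nat.pos_of_ne_zero hn),
    (Nat.le_of_dvd (Nat.pos_of_ne_zero hn) d1).trans (Nat.le_floor ?_)⟩, Int.natCast_dvd.2 d1⟩
  rwa [Nat.cast_natAbs, Int.cast_abs]

lemma n3a_s1 (N : ℕ) : ∑ k ∈ Icc 1 N, (√(k : ℝ))⁻¹ ≤ 2 * √N := by
  induction N with
  | zero => simp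
  | succ N ih =>
    rw [sum_Icc_succ_top (by omega)]
    have a0 : 0 < √((N + 1 : ℕ) : ℝ) := Real.sqrt_pos.2 (by positivity)
    have a1 : √((N + 1 : ℕ) : ℝ) ^ 2 = N + 1 := by rw [Real.sq_sqrt (by positivity)]; simp
    have a2 : √(N : ℝ) ^ 2 = N := Real.sq_sqrt (by positivity)
    have a3 : (√((N + 1 : ℕ) : ℝ))⁻¹ ≤ 2 * √((N + 1 : ℕ) : ℝ) - 2 * √N := by
      rw [inv_le_iff_one_le_mul₀ a0]
      linarith only [sq_nonneg (√((N + 1 : ℕ) : ℝ) - √N), a1, a2]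
    linarith

lemma n3a_s2 : ∃ K : ℝ, 0 ≤ K ∧ ∀ N : ℕ, ∑ k ∈ Icc 1 N, (√(k : ℝ))⁻¹ / k ≤ K := by
  have hs := (Real.summable_nat_rpow_inv (p := 1 / 2 + 1)).2 (by norm_num)
  refine ⟨∑' n : ℕ, ((n : ℝ) ^ (1 / 2 + 1 : ℝ))⁻¹, tsum_nonneg fun _ => by positivity, fun N => ?_⟩
  refine le_trans (le_of_eq (sum_congr rfl fun k hk => ?_))
    (hs.sum_le_tsum (Icc 1 N) fun _ _ => by positivity)
  have k0 : (0 : ℝ) < k := by exact_mod_cast (mem_Icc.1 hk).1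
  rw [Real.rpow_add k0, Real.rpow_one, ← Real.sqrt_eq_rpow, mul_inv, div_eq_mul_inv]

theorem weight_one (a : ℕ) : ∃ C : ℝ, 0 ≤ C ∧ ∀ (c : ℕ) (α β : ℤ) (U V : ℝ), c ≠ 0 → 0 ≤ U →
    (c : ℝ) ^ 2 ≤ V → IsCoprime β c → ∀ S : Finset (ℤ × ℤ),
    (∀ k ∈ S, k.1 ≠ 0 ∧ k.2 ≠ 0 ∧ |(k.1 : ℝ)| ≤ U ∧ |(k.2 : ℝ)| ≤ V ∧ IsCoprime k.2 c) →
    ∑ k ∈ S, tau (Int.gcd k.1 k.2) ^ a * (al k.1.natAbs * al k.2.natAbs) *
      Rt c (α * k.1) (β * k.2) ≤ C * U * V := by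
  obtain ⟨A, A0, hA⟩ := n3a_al
  obtain ⟨B, B0, hB⟩ := n3a_tau (a * 3)
  obtain ⟨K, K0, hK⟩ := n3a_s2
  refine ⟨6 * A * K + (A + B) * (4 * K + 4), by positivity, fun c α β U V hc hU hcV hβ S hS => ?_⟩
  have c1 : (1 : ℝ) ≤ c := by exact_mod_cast Nat.pos_of_ne_zero hc
  have cV : (c : ℝ) ≤ V := by nlinarith only [hcV, c1]
  have hV : 0 ≤ V := by linarith
  have hR : ∀ x : ℤ × ℤ, (0 : ℝ) ≤ Rt c (α * x.1) (β * x.2) := fun _ => Nat.cast_nonneg _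
  have key : ∑ k ∈ Icc 1 ⌊V⌋₊, (√(k : ℝ))⁻¹ * (2 * U * (2 * V / k + c)) ≤ (4 * K + 4) * U * V := by
    have e : ∀ k : ℕ, (√(k : ℝ))⁻¹ * (2 * U * (2 * V / k + c)) =
        4 * U * V * ((√(k : ℝ))⁻¹ / k) + 2 * U * c * (√(k : ℝ))⁻¹ := fun k => by ring
    simp only [e]
    rw [sum_add_distrib, ← mul_sum, ← mul_sum]
    have a1 : √(⌊V⌋₊ : ℝ) ≤ √V := Real.sqrt_le_sqrt (Nat.floor_le hV)
    have a2 : (c : ℝ) ≤ √V := Real.le_sqrt_of_sq_le hcV
    have a3 : c * √(⌊V⌋₊ : ℝ) ≤ V :=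
      (mul_le_mul a2 a1 (Real.sqrt_nonneg _) (Real.sqrt_nonneg _)).trans (Real.mul_self_sqrt hV).le
    have a4 := mul_le_mul_of_nonneg_left (hK ⌊V⌋₊) (by positivity : 0 ≤ 4 * U * V)
    have a5 := mul_le_mul_of_nonneg_left (n3a_s1 ⌊V⌋₊) (by positivity : 0 ≤ 2 * U * c)
    have a6 := mul_le_mul_of_nonneg_left a3 hU
    linarith
  have s1 := n3a_swap S (Icc 1 ⌊U⌋₊) (fun k x => (k : ℤ) ∣ x.1) hR (fun k => by positivity)
    (fun x hx => hA x.1 U (hS x hx).1 (hS x hx).2.2.1) fun k hk =>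
      n3a_count (k := k) (k' := 1) hc hU hV hβ (by have := (mem_Icc.1 hk).1; omega) one_ne_zero _
        fun x hx => ⟨hS x (mem_filter.1 hx).1, (mem_filter.1 hx).2, by simp⟩
  have s2 := n3a_swap S (Icc 1 ⌊V⌋₊) (fun k x => (k : ℤ) ∣ x.2) hR (fun k => by positivity)
    (fun x hx => hA x.2 V (hS x hx).2.1 (hS x hx).2.2.2.1) fun k hk =>
      n3a_count (k := 1) (k' := k) hc hU hV hβ one_ne_zero (by have := (mem_Icc.1 hk).1; omega) _
        fun x hx => ⟨hS x (mem_filter.1 hx).1, by simp, (mem_filter.1 hx).2⟩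
  have s3 := n3a_swap S (Icc 1 ⌊V⌋₊) (fun k x => (k : ℤ) ∣ x.1 ∧ (k : ℤ) ∣ x.2)
    (F := fun x => (tau (Int.gcd x.1 x.2) ^ a) ^ 3) (w := fun k => B * √k) hR
    (fun k => by positivity) (fun x hx => ?_) fun k hk =>
      n3a_count (k := k) (k' := k) hc hU hV hβ (by have := (mem_Icc.1 hk).1; omega)
        (by have := (mem_Icc.1 hk).1; omega) _
        fun x hx => ⟨hS x (mem_filter.1 hx).1, (mem_filter.1 hx).2⟩
  · have t1 : ∑ k ∈ Icc 1 ⌊U⌋₊, A * (√(k : ℝ))⁻¹ * (2 * U / k * (2 * V / (1 : ℕ) + c)) ≤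
        6 * A * K * U * V := by
      have e : ∀ k : ℕ, A * (√(k : ℝ))⁻¹ * (2 * U / k * (2 * V / (1 : ℕ) + c)) =
          2 * A * U * (2 * V + c) * ((√(k : ℝ))⁻¹ / k) := fun k => by push_cast; ring
      simp only [e]
      rw [← mul_sum]
      calc _ ≤ 2 * A * U * (2 * V + V) * K := by gcongr; exact hK _
        _ = _ := by ring
    have t2 : ∑ k ∈ Icc 1 ⌊V⌋₊, A * (√(k : ℝ))⁻¹ * (2 * U / (1 : ℕ) * (2 * V / k + c)) ≤
        A * ((4 * K + 4) * U * V) := by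
      refine le_trans (le_of_eq ?_) (mul_le_mul_of_nonneg_left key A0)
      rw [mul_sum]
      exact sum_congr rfl fun k _ => by push_cast; ring
    have t3 : ∑ k ∈ Icc 1 ⌊V⌋₊, B * √(k : ℝ) * (2 * U / k * (2 * V / k + c)) ≤
        B * ((4 * K + 4) * U * V) := by
      refine le_trans (le_of_eq ?_) (mul_le_mul_of_nonneg_left key B0)
      rw [mul_sum]
      refine sum_congr rfl fun k _ => ?_
      rw [← Real.sqrt_div_self]
      ring
    have t4 : ∑ k ∈ S, tau (Int.gcd k.1 k.2) ^ a * (al k.1.natAbs * al k.2.natAbs) *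
        Rt c (α * k.1) (β * k.2) ≤ ∑ x ∈ S, (al x.1.natAbs ^ 3 * Rt c (α * x.1) (β * x.2) +
          al x.2.natAbs ^ 3 * Rt c (α * x.1) (β * x.2) +
          (tau (Int.gcd x.1 x.2) ^ a) ^ 3 * Rt c (α * x.1) (β * x.2)) := by
      refine sum_le_sum fun x _ => ?_
      rw [← add_mul, ← add_mul]
      refine mul_le_mul_of_nonneg_right ?_ (hR x)
      have b1 := zero_le_one.trans (one_le_al x.1.natAbs)
      have b2 := zero_le_one.trans (one_le_al x.2.natAbs)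
      have b3 := pow_nonneg (tau_nonneg (Int.gcd x.1 x.2)) a
      generalize al x.1.natAbs = p at b1
      generalize al x.2.natAbs = q at b2
      generalize tau (Int.gcd x.1 x.2) ^ a = r at b3
      have b4 := mul_nonneg (add_nonneg (add_nonneg b1 b2) b3)
        (add_nonneg (add_nonneg (sq_nonneg (p - q)) (sq_nonneg (q - r))) (sq_nonneg (r - p)))
      have b5 := mul_nonneg b3 (mul_nonneg b1 b2)
      linarith only [b4, b5]
    rw [sum_add_distrib, sum_add_distrib] at t4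
    linarith
  · have g0 : Int.gcd x.1 x.2 ≠ 0 := fun h => (hS x hx).1 (Int.gcd_eq_zero_iff.1 h).1
    rw [← pow_mul]
    refine (hB _ g0).trans (single_le_sum (f := fun k : ℕ => B * √k) (fun _ _ => by positivity) ?_)
    refine mem_filter.2 ⟨mem_Icc.2 ⟨Nat.pos_of_ne_zero g0, ?_⟩, Int.gcd_dvd_left .., Int.gcd_dvd_right ..⟩
    refine (Int.gcd_le_natAbs_right _ (hS x hx).2.1).trans (Nat.le_floor ?_)
    rw [Nat.cast_natAbs, Int.cast_abs]
    exact (hS x hx).2.2.2.1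

end Pool.Agent.MP_d0fd9b_nt.S64

end

section
namespace Pool.Agent.MP_d0fd9b_nt.S64

open Finset S72 H72

lemma n3b_GG {P : Finset ℕ} (hP : ∀ l ∈ P, l.Prime) {q : ℕ} (hq : q ≠ 0) (z : ℕ) :
    GG P z ≤ al q * GG (P.filter fun l => ¬ l ∣ q) z := by
  rw [al, prod_one_add, GG, GG, sum_mul_sum, ← sum_product']
  refine sum_le_of_injOn (fun S => (S.filter (· ∣ q), S.filter fun l => ¬ l ∣ q))
    (fun S hS => ?_) (fun S _ T _ h => ?_) (fun S _ => ?_) fun _ => by positivity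
  · simp only [sets, mem_product, mem_filter, mem_powerset] at hS ⊢
    refine ⟨fun l hl => ?_, filter_subset_filter _ hS.1, le_trans ?_ hS.2⟩
    · rw [mem_filter] at hl
      exact Nat.mem_primeFactors.2 ⟨hP l (hS.1 hl.1), hl.2, hq⟩
    · exact prod_le_prod_of_subset_of_one_le' (filter_subset _ _) fun l hl _ =>
        (hP l (hS.1 hl)).one_le
  · simp only [Prod.mk.injEq] at h
    rw [← filter_union_filter_not_eq (· ∣ q) S, ← filter_union_filter_not_eq (· ∣ q) T,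
      h.1, h.2]
  · exact (prod_filter_mul_prod_filter_not S (· ∣ q) _).symm

/-- the sieve on a progression with integer data -/
lemma n3b_selberg {z : ℕ} (hz : 1 ≤ z) {P : Finset ℕ} {a q : ℤ}
    (hP : ∀ l ∈ P, l.Prime ∧ l ≤ z ∧ ¬ (l : ℤ) ∣ q) (K : ℕ) :
    (((range K).filter fun k : ℕ => ∀ l ∈ P, ¬ (l : ℤ) ∣ a + q * k).card : ℝ) ≤
      K / GG P z + z ^ 4 := by
  have hF : ((z.factorial : ℕ) : ℤ) ≠ 0 := by exact_mod_cast z.factorial_ne_zero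
  have hd : ∀ l ∈ P, ∀ x : ℤ, (l : ℤ) ∣ ((x % z.factorial).toNat : ℤ) - x := fun l hl x => by
    rw [Int.toNat_of_nonneg (Int.emod_nonneg _ hF)]
    have h1 : (l : ℤ) ∣ (z.factorial : ℕ) := by
      exact_mod_cast Nat.dvd_factorial (hP l hl).1.pos (hP l hl).2.1
    exact h1.trans Int.dvd_emod_sub_self
  have h := selberg (q := (q % z.factorial).toNat) (z := z) (P := P) hz (fun l hl =>
    ⟨(hP l hl).1, fun h => (hP l hl).2.2 (by
      have h1 : (l : ℤ) ∣ ((q % z.factorial).toNat : ℤ) := by exact_mod_cast h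
      simpa only [Int.ofNat_toNat, sub_sub_cancel] using h1.sub (hd l hl q))⟩) (a % z.factorial).toNat K
  refine le_trans ?_ h
  refine Nat.cast_le.2 (card_le_card fun k hk => ?_)
  rw [mem_filter] at hk ⊢
  refine ⟨hk.1, fun l hl h => hk.2 l hl ?_⟩
  have h1 : (l : ℤ) ∣ ((a % z.factorial).toNat : ℤ) + ((q % z.factorial).toNat : ℤ) * k := by
    exact_mod_cast h
  have h2 := (h1.sub (hd l hl a)).sub ((hd l hl q).mul_right k)
  exact (congrArg (fun t : ℤ => (l : ℤ) ∣ t) (by ring)).mp h2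

theorem sieve_step {u v w : ℤ} (hu : u ≠ 0) (hv : v ≠ 0) {c H z : ℕ} (hc : c ≠ 0) (hH : H ≠ 0)
    (hz : 2 ≤ z) (hcop : IsCoprime (u * v) c) {V : ℝ} (hV : (z : ℝ) ^ 5 * (c * H) ≤ V) (S : Finset ℤ)
    (hS : ∀ k ∈ S, |(k : ℝ)| ≤ V ∧ ((c * H : ℕ) : ℤ) ∣ w - u * v * k ∧
      ∀ l : ℕ, l.Prime → l ≤ z → (l : ℤ) ∣ w - u * v * k → l ∣ c * H) :
    (#S : ℝ) ≤ 7 * V * (al c * al H * (al u.natAbs * al v.natAbs) * (Int.gcd u H * Int.gcd v H)) /
      (c * H * Real.log z) := by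
  have hz1 : (2 : ℝ) ≤ z := by exact_mod_cast hz
  have hlog : 0 < Real.log z := Real.log_pos (by linarith only [hz1])
  have hlogz : Real.log z ≤ z := (Real.log_le_sub_one_of_pos (by linarith only [hz1])).trans (by linarith only [])
  have hM0 : c * H ≠ 0 := mul_ne_zero hc hH
  have hM : (0 : ℝ) < (c : ℝ) * H := by exact_mod_cast Nat.pos_of_ne_zero hM0
  have hz5 : (1 : ℝ) ≤ (z : ℝ) ^ 5 := one_le_pow₀ (by linarith only [hz1])
  have hMV : (c : ℝ) * H ≤ V := le_trans (le_mul_of_one_le_left hM.le hz5) hV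
  have hV0 : 0 < V := hM.trans_le hMV
  have hg1 : (1 : ℝ) ≤ Int.gcd u H := by
    exact_mod_cast Int.gcd_pos_of_ne_zero_left _ hu
  have hg2 : (1 : ℝ) ≤ Int.gcd v H := by
    exact_mod_cast Int.gcd_pos_of_ne_zero_left _ hv
  set A : ℝ := al c * al H * (al u.natAbs * al v.natAbs) with hA
  set G : ℝ := (Int.gcd u H : ℝ) * Int.gcd v H with hG
  have hA1 : 1 ≤ A := one_le_mul_of_one_le_of_one_le
    (one_le_mul_of_one_le_of_one_le (one_le_al _) (one_le_al _))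
    (one_le_mul_of_one_le_of_one_le (one_le_al _) (one_le_al _))
  have hG1 : 1 ≤ G := one_le_mul_of_one_le_of_one_le hg1 hg2
  rcases S.eq_empty_or_nonempty with rfl | hne
  · simp only [card_empty, Nat.cast_zero]
    positivity
  -- the modulus of the progression
  set N : ℕ := u.natAbs * v.natAbs with hN
  have hN0 : N ≠ 0 := mul_ne_zero (Int.natAbs_ne_zero.2 hu) (Int.natAbs_ne_zero.2 hv)
  have hNuv : (u * v).natAbs = N := Int.natAbs_mul u v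
  set g : ℕ := Nat.gcd (c * H) N with hg
  have hg0 : 0 < g := Nat.gcd_pos_of_pos_left _ (Nat.pos_of_ne_zero hM0)
  obtain ⟨Q, hQ⟩ : g ∣ c * H := Nat.gcd_dvd_left _ _
  have hQ0 : 0 < Q := Nat.pos_of_ne_zero fun h => hM0 (by rw [hQ, h, mul_zero])
  have hgG : (g : ℝ) ≤ G := by
    have h1 : Nat.Coprime N c := by
      rw [← hNuv]
      simpa [Int.gcd] using Int.isCoprime_iff_gcd_eq_one.1 hcop
    have h2 : g = Nat.gcd H N := by
      rw [hg]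
      exact Nat.Coprime.gcd_mul_left_cancel H h1.symm
    have h3 : g ∣ Int.gcd u H * Int.gcd v H := by
      rw [h2, hN]
      have := gcd_mul_dvd_mul_gcd H u.natAbs v.natAbs
      simp only [gcd_eq_nat_gcd] at this
      simpa only [Int.gcd, Int.natAbs_natCast, Nat.gcd_comm] using this
    have h4 := Nat.le_of_dvd (Nat.mul_pos (Int.gcd_pos_of_ne_zero_left _ hu)
      (Int.gcd_pos_of_ne_zero_left _ hv)) h3
    rw [hG]
    exact_mod_cast h4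
  have hdiff : ∀ k ∈ S, ∀ k' ∈ S, (Q : ℤ) ∣ k - k' := fun k hk k' hk' => by
    have h1 : ((c * H : ℕ) : ℤ) ∣ u * v * (k - k') := by
      have := (hS k' hk').2.1.sub (hS k hk).2.1
      exact (congrArg (fun t : ℤ => ((c * H : ℕ) : ℤ) ∣ t) (by ring)).mp this
    have h2 : c * H ∣ N * (k - k').natAbs := by
      have := Int.natAbs_dvd_natAbs.2 h1
      rwa [Int.natAbs_natCast, Int.natAbs_mul, hNuv] at this
    obtain ⟨N', hN'⟩ : g ∣ N := Nat.gcd_dvd_right _ _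
    have h3 : Nat.Coprime Q N' := by
      have h4 : Nat.gcd (g * Q) (g * N') = g := by rw [← hQ, ← hN']
      rw [Nat.gcd_mul_left] at h4
      exact Nat.eq_of_mul_eq_mul_left hg0 (by rw [mul_one]; exact h4)
    rw [hQ, hN', mul_assoc] at h2
    exact Int.natCast_dvd.2 (h3.dvd_of_dvd_mul_left (Nat.dvd_of_mul_dvd_mul_left hg0 h2))
  have hQR : (0 : ℝ) < Q := by exact_mod_cast hQ0
  have hQM : (c : ℝ) * H = g * Q := by exact_mod_cast hQ
  have hgR : (1 : ℝ) ≤ g := by exact_mod_cast hg0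
  have hQV : (Q : ℝ) ≤ V := le_trans (by rw [hQM]; exact le_mul_of_one_le_left hQR.le hgR) hMV
  set k₀ := S.min' hne with hk₀
  have hk₀S : k₀ ∈ S := S.min'_mem hne
  set K : ℕ := ⌊2 * V / Q⌋₊ + 1 with hK
  have hKle : (K : ℝ) ≤ 3 * V / Q := by
    have h1 : (⌊2 * V / Q⌋₊ : ℝ) ≤ 2 * V / Q := Nat.floor_le (by positivity)
    have h2 : 1 ≤ V / Q := (one_le_div hQR).2 hQV
    have h3 : 3 * V / Q = 2 * V / Q + V / Q := by ring
    rw [hK, h3]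
    push_cast
    linarith only [h1, h2]
  set P := ((Icc 1 z).filter Nat.Prime).filter fun l => ¬ l ∣ c * H * N with hP
  have hPm : ∀ l ∈ P, l.Prime ∧ l ≤ z ∧ ¬ l ∣ c * H * N := fun l hl => by
    simp only [hP, mem_filter, mem_Icc] at hl
    exact ⟨hl.1.2, hl.1.1.2, hl.2⟩
  have h1 := n3b_selberg (z := z) (by omega) (P := P) (a := w - u * v * k₀) (q := -(u * v * Q))
    (fun l hl => ⟨(hPm l hl).1, (hPm l hl).2.1, fun h => (hPm l hl).2.2 (by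
      have h2 := Int.natAbs_dvd_natAbs.2 (dvd_neg.1 h)
      rw [Int.natAbs_natCast, Int.natAbs_mul, hNuv, Int.natAbs_natCast] at h2
      refine h2.trans ⟨g, ?_⟩
      rw [hQ]
      ring)⟩) K
  have h2 : #S ≤ ((range K).filter fun k : ℕ =>
      ∀ l ∈ P, ¬ (l : ℤ) ∣ (w - u * v * k₀) + -(u * v * Q) * k).card := by
    refine le_trans (card_le_card (t := ((range K).filter fun k : ℕ =>
      ∀ l ∈ P, ¬ (l : ℤ) ∣ (w - u * v * k₀) + -(u * v * Q) * k).image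
        fun i : ℕ => k₀ + Q * i) fun k hk => ?_) card_image_le
    obtain ⟨i, hi⟩ := hdiff k hk k₀ hk₀S
    have hkk : k₀ ≤ k := S.min'_le k hk
    have hQZ : (0 : ℤ) < Q := by exact_mod_cast hQ0
    have hi0 : 0 ≤ i := by
      by_contra h
      push Not at h
      have := mul_neg_of_pos_of_neg hQZ h
      omega
    lift i to ℕ using hi0
    have hk' : k = k₀ + Q * i := by linarith only [hi]
    refine mem_image.2 ⟨i, mem_filter.2 ⟨mem_range.2 ?_, fun l hl h => (hPm l hl).2.2 ?_⟩, hk'.symm⟩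
    · refine Nat.lt_succ_of_le (Nat.le_floor ?_)
      rw [le_div_iff₀ hQR]
      have h3 : (k : ℝ) - k₀ = Q * i := by exact_mod_cast hi
      have h4 := abs_le.1 (hS k hk).1
      have h5 := abs_le.1 (hS k₀ hk₀S).1
      linarith only [h3, h4, h5]
    · refine ((hS k hk).2.2 l (hPm l hl).1 (hPm l hl).2.1 ?_).mul_right N
      convert h using 1
      rw [hk']
      ring
  have h3 := n3b_GG (P := (Icc 1 z).filter Nat.Prime) (fun l hl => (mem_filter.1 hl).2)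
    (mul_ne_zero hM0 hN0) z
  rw [← hP] at h3
  have h4 := log_le_GG z
  have h6 := one_le_GG P (z := z) (by omega)
  have h7 : al (c * H * N) ≤ A := by
    refine (al_mul_le _ _).trans ?_
    have := one_le_al c
    have := one_le_al H
    have := one_le_al N
    exact mul_le_mul (al_mul_le _ _) (al_mul_le _ _) (by linarith only [this]) (by positivity)
  have h8 : Real.log z ≤ 2 * (A * GG P z) := by
    have : al (c * H * N) * GG P z ≤ A * GG P z := by gcongr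
    linarith only [h3, h4, this]
  have h9 : (K : ℝ) / GG P z ≤ 6 * V * (A * G) / (c * H * Real.log z) := by
    rw [div_le_div_iff₀ (by linarith only [h6]) (by positivity)]
    calc (K : ℝ) * (c * H * Real.log z) ≤ 3 * V / Q * (c * H * (2 * (A * GG P z))) := by gcongr
      _ = 6 * V * (A * g) * GG P z := by rw [hQM]; field_simp; ring
      _ ≤ 6 * V * (A * G) * GG P z := by gcongr
  have h10 : (z : ℝ) ^ 4 ≤ V * (A * G) / (c * H * Real.log z) := by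
    rw [le_div_iff₀ (by positivity)]
    calc (z : ℝ) ^ 4 * (c * H * Real.log z) ≤ (z : ℝ) ^ 4 * (c * H * z) := by gcongr
      _ = (z : ℝ) ^ 5 * (c * H) := by ring
      _ ≤ V := hV
      _ ≤ V * (A * G) := le_mul_of_one_le_right hV0.le (one_le_mul_of_one_le_of_one_le hA1 hG1)
  have h11 : (#S : ℝ) ≤ K / GG P z + z ^ 4 := le_trans (by exact_mod_cast h2) h1
  calc (#S : ℝ) ≤ 6 * V * (A * G) / (c * H * Real.log z) + V * (A * G) / (c * H * Real.log z) := by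
        linarith only [h9, h10, h11]
    _ = _ := by ring

end Pool.Agent.MP_d0fd9b_nt.S64

end

section
namespace Pool.Agent.MP_d0fd9b_nt.S64

open Finset S72 H72

lemma n4_pair (a : ℕ) {H d e : ℕ} (hH : H ≠ 0) (hd : d ∣ H) (he : e ∣ H) {k l : ℤ} (hk : k ≠ 0) :
    tau (Int.gcd (d * k) (e * l)) ^ a * (al (d * k).natAbs * al (e * l).natAbs) ≤
      tau H ^ (2 * a + 2) * (tau (Int.gcd k l) ^ a * (al k.natAbs * al l.natAbs)) := by
  have d0 : d ≠ 0 := ne_zero_of_dvd_ne_zero hH hd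
  have e0 : e ≠ 0 := ne_zero_of_dvd_ne_zero hH he
  have g0 : Int.gcd k l ≠ 0 := fun h => hk (Int.gcd_eq_zero_iff.1 h).1
  have h1 : Int.gcd (d * k) (e * l) ∣ d * e * Int.gcd k l := by
    have : d * e * Int.gcd k l = Int.gcd (((d * e : ℕ) : ℤ) * k) (((d * e : ℕ) : ℤ) * l) := by
      rw [Int.gcd_mul_left, Int.natAbs_natCast]
    rw [this]
    refine Int.dvd_gcd ((Int.gcd_dvd_left _ _).trans ⟨e, by push_cast; ring⟩)
      ((Int.gcd_dvd_right _ _).trans ⟨d, by push_cast; ring⟩)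
  have td := tau_mono hH hd
  have te := tau_mono hH he
  have t0 := tau_nonneg H
  have h2 : tau (Int.gcd (d * k) (e * l)) ≤ tau H ^ 2 * tau (Int.gcd k l) := by
    refine (tau_mono (mul_ne_zero (mul_ne_zero d0 e0) g0) h1).trans ((tau_mul_le _ _).trans ?_)
    refine mul_le_mul_of_nonneg_right ((tau_mul_le _ _).trans ?_) (tau_nonneg _)
    rw [pow_two]
    exact mul_le_mul td te (tau_nonneg _) t0
  have h3 : ∀ {f : ℕ} (x : ℤ), f ∣ H → al (f * x).natAbs ≤ tau H * al x.natAbs := fun {f} x hf => by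
    rw [Int.natAbs_mul, Int.natAbs_natCast]
    exact (al_mul_le _ _).trans (mul_le_mul_of_nonneg_right
      ((al_le_tau (ne_zero_of_dvd_ne_zero hH hf)).trans (tau_mono hH hf))
      (zero_le_one.trans (one_le_al _)))
  have a1 := zero_le_one.trans (one_le_al k.natAbs)
  have a2 := zero_le_one.trans (one_le_al l.natAbs)
  have a3 := zero_le_one.trans (one_le_al (e * l).natAbs)
  have a4 := zero_le_one.trans (one_le_al (d * k).natAbs)
  have t1 := tau_nonneg (Int.gcd k l)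
  have t2 := tau_nonneg (Int.gcd (d * k) (e * l))
  calc _ ≤ (tau H ^ 2 * tau (Int.gcd k l)) ^ a * ((tau H * al k.natAbs) * (tau H * al l.natAbs)) := by
        gcongr
        · exact h3 k hd
        · exact h3 l he
    _ = _ := by rw [mul_pow, ← pow_mul, pow_add]; ring

lemma n4_outer (a : ℕ) : ∃ C : ℝ, 0 ≤ C ∧ ∀ (c H : ℕ) (U V : ℝ), c ≠ 0 → H ≠ 0 → 0 ≤ U →
    (c : ℝ) ^ 2 * H ≤ V → ∀ T : Finset (ℤ × ℤ),
    (∀ k ∈ T, k.1 ≠ 0 ∧ k.2 ≠ 0 ∧ |(k.1 : ℝ)| ≤ U ∧ |(k.2 : ℝ)| ≤ V ∧ IsCoprime k.2 c) →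
    ∑ k ∈ T, tau (Int.gcd k.1 k.2) ^ a * (al k.1.natAbs * al k.2.natAbs) * Rt c k.1 k.2 *
      (Int.gcd k.1 H * Int.gcd k.2 H) ≤ C * tau H ^ (2 * a + 4) * (U * V) := by
  obtain ⟨C, hC, h⟩ := weight_one a
  refine ⟨C, hC, fun c H U V hc hH hU hV T hT => ?_⟩
  have hV0 : 0 ≤ V := le_trans (by positivity) hV
  have t0 := tau_nonneg H
  have hg : ∀ x : ℤ, Int.gcd x H ∣ H := fun x => by
    exact_mod_cast Int.gcd_dvd_right x H
  rw [← sum_fiberwise_of_maps_to (t := H.divisors ×ˢ H.divisors)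
    (g := fun k : ℤ × ℤ => (Int.gcd k.1 H, Int.gcd k.2 H))
    fun k _ => mem_product.2 ⟨Nat.mem_divisors.2 ⟨hg _, hH⟩, Nat.mem_divisors.2 ⟨hg _, hH⟩⟩]
  refine (sum_le_card_nsmul _ _ (tau H ^ (2 * a + 2) * (C * (U * V))) ?_).trans (le_of_eq ?_)
  · rintro ⟨d, e⟩ hde
    obtain ⟨hd, he⟩ := mem_product.1 hde
    have hd' : d ∣ H := Nat.dvd_of_mem_divisors hd
    have he' : e ∣ H := Nat.dvd_of_mem_divisors he
    have d0 : (0 : ℝ) < d := by exact_mod_cast Nat.pos_of_mem_divisors hd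
    have e0 : (0 : ℝ) < e := by exact_mod_cast Nat.pos_of_mem_divisors he
    set S := T.filter fun k : ℤ × ℤ => (Int.gcd k.1 H, Int.gcd k.2 H) = (d, e) with hS
    have hm : ∀ k ∈ S, k ∈ T ∧ Int.gcd k.1 H = d ∧ Int.gcd k.2 H = e ∧ (d : ℤ) * (k.1 / d) = k.1 ∧
        (e : ℤ) * (k.2 / e) = k.2 := fun k hk => by
      obtain ⟨h1, h2⟩ := mem_filter.1 hk
      obtain ⟨h3, h4⟩ := Prod.mk.inj h2
      exact ⟨h1, h3, h4, Int.mul_ediv_cancel' (h3 ▸ Int.gcd_dvd_left _ _),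
        Int.mul_ediv_cancel' (h4 ▸ Int.gcd_dvd_left _ _)⟩
    rcases S.eq_empty_or_nonempty with h0 | ⟨k0, hk0⟩
    · rw [h0, sum_empty]; positivity
    have hec : IsCoprime (e : ℤ) c := by
      have := (hT _ (hm _ hk0).1).2.2.2.2
      rw [← (hm _ hk0).2.2.2.2] at this
      exact this.of_mul_left_left
    have hab : ∀ {f : ℕ} {x : ℤ} {W : ℝ}, (0 : ℝ) < f → (f : ℤ) * (x / f) = x → |(x : ℝ)| ≤ W →
        |((x / f : ℤ) : ℝ)| ≤ W / f := fun {f x W} f0 hx hW => by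
      rw [le_div_iff₀ f0]
      rw [← hx] at hW
      push_cast at hW
      rwa [abs_mul, abs_of_pos f0, mul_comm] at hW
    have h1 := h c d e (U / d) (V / e) hc (by positivity) (by
      rw [le_div_iff₀ e0]
      refine le_trans ?_ hV
      gcongr
      exact Nat.le_of_dvd (Nat.pos_of_ne_zero hH) he') hec
      (S.image fun k : ℤ × ℤ => (k.1 / d, k.2 / e)) (fun k' hk' => by
        obtain ⟨k, hk, rfl⟩ := mem_image.1 hk'
        obtain ⟨m1, -, -, m2, m3⟩ := hm k hk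
        obtain ⟨n1, n2, n3, n4, n5⟩ := hT k m1
        refine ⟨fun z => n1 ?_, fun z => n2 ?_, hab d0 m2 n3, hab e0 m3 n4, ?_⟩
        · rw [← m2, show k.1 / (d : ℤ) = 0 from z, mul_zero]
        · rw [← m3, show k.2 / (e : ℤ) = 0 from z, mul_zero]
        · rw [← m3] at n5
          exact n5.of_mul_left_right)
    rw [sum_image fun k hk k' hk' hkk => by
      obtain ⟨q1, q2⟩ := Prod.mk.inj hkk
      refine Prod.ext ?_ ?_
      · rw [← (hm k hk).2.2.2.1, ← (hm k' hk').2.2.2.1, q1]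
      · rw [← (hm k hk).2.2.2.2, ← (hm k' hk').2.2.2.2, q2]] at h1
    have h2 : C * (U * V) = d * e * (C * (U / d) * (V / e)) := by field_simp
    rw [h2, ← mul_assoc]
    refine le_trans ?_ (mul_le_mul_of_nonneg_left h1 (by positivity))
    rw [mul_sum]
    refine sum_le_sum fun k hk => ?_
    obtain ⟨m1, m2, m3, m4, m5⟩ := hm k hk
    have h3 := n4_pair a hH hd' he' (k := k.1 / d) (l := k.2 / e) fun z =>
      (hT k m1).1 (by rw [← m4, z, mul_zero])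
    simp only [m2, m3, m4, m5] at h3 ⊢
    have := mul_le_mul_of_nonneg_right h3
      (by positivity : (0 : ℝ) ≤ Rt c k.1 k.2 * (d * e))
    linarith only [this]
  · rw [card_product, nsmul_eq_mul, Nat.cast_mul]
    change tau H * tau H * _ = _
    ring

theorem inner_sum (a : ℕ) : ∃ C : ℝ, 0 ≤ C ∧ ∀ (c H z : ℕ) (m : ℤ) (N : Fin 3 → ℝ), c ≠ 0 → H ≠ 0 →
    2 ≤ z → 0 ≤ N 0 → (c : ℝ) ^ 2 * H ≤ N 1 → (z : ℝ) ^ 5 * (c * H) ≤ N 2 → IsCoprime (c : ℤ) m →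
    ∀ S : Finset (Fin 3 → ℤ), (∀ n ∈ S, (∀ i, n i ≠ 0 ∧ |(n i : ℝ)| ≤ N i) ∧
      ((c * H : ℕ) : ℤ) ∣ Dl n m ∧ ∀ l : ℕ, l.Prime → l ≤ z → (l : ℤ) ∣ Dl n m → l ∣ c * H) →
    ∑ n ∈ S, tau (Int.gcd (n 0) (n 1)) ^ a * Rt c (n 0) (n 1) ≤
      C * (tau H ^ (2 * a + 5) / H) * (al c / c) / Real.log z * (N 0 * N 1 * N 2) := by
  obtain ⟨C, hC, h⟩ := n4_outer a
  refine ⟨7 * C, by positivity, fun c H z m N hc hH hz h0 h1 h2 hm S hS => ?_⟩
  have hN1 : 0 ≤ N 1 := le_trans (by positivity) h1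
  have hN2 : 0 ≤ N 2 := le_trans (by positivity) h2
  have hl : 0 < Real.log z := Real.log_pos (by exact_mod_cast hz)
  have c0 : (0 : ℝ) < c := by exact_mod_cast Nat.pos_of_ne_zero hc
  have H0 : (0 : ℝ) < H := by exact_mod_cast Nat.pos_of_ne_zero hH
  have a1 := zero_le_one.trans (one_le_al c)
  have a2 := zero_le_one.trans (one_le_al H)
  have t0 := tau_nonneg H
  have hcop : ∀ n ∈ S, IsCoprime (n 0 * n 1) c := fun n hn => by
    obtain ⟨t, ht⟩ := (Int.natCast_dvd_natCast.2 (dvd_mul_right c H)).trans (hS n hn).2.1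
    have h3 : n 0 * n 1 * n 2 = m ^ 3 + c * (-t) := by unfold Dl at ht; linarith only [ht]
    have h4 : IsCoprime (n 0 * n 1 * n 2) c := by
      rw [h3]
      exact (hm.symm.pow_left (m := 3)).add_mul_left_left _
    exact h4.of_mul_left_left
  have h3 := h c H (N 0) (N 1) hc hH h0 h1 (S.image fun n => (n 0, n 1)) fun k hk => by
    obtain ⟨n, hn, rfl⟩ := mem_image.1 hk
    exact ⟨((hS n hn).1 0).1, ((hS n hn).1 1).1, ((hS n hn).1 0).2, ((hS n hn).1 1).2,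
      (hcop n hn).of_mul_left_right⟩
  rw [sum_comp (fun k : ℤ × ℤ => tau (Int.gcd k.1 k.2) ^ a * Rt c k.1 k.2) fun n : Fin 3 → ℤ => (n 0, n 1)]
  have h4 := mul_le_mul_of_nonneg_left h3
    (by positivity : 0 ≤ 7 * N 2 * (al c * al H) / (c * H * Real.log z))
  rw [mul_sum] at h4
  refine le_trans (sum_le_sum fun k hk => ?_) (h4.trans ?_)
  · obtain ⟨n, hn, rfl⟩ := mem_image.1 hk
    have h5 := sieve_step (w := m ^ 3) ((hS n hn).1 0).1 ((hS n hn).1 1).1 hc hH hz (hcop n hn) h2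
      ((S.filter fun n' => (n' 0, n' 1) = (n 0, n 1)).image fun n' => n' 2) fun k hk => by
        obtain ⟨n', hn', rfl⟩ := mem_image.1 hk
        obtain ⟨q1, q2⟩ := mem_filter.1 hn'
        obtain ⟨q3, q4⟩ := Prod.mk.inj q2
        rw [← q3, ← q4]
        exact ⟨((hS n' q1).1 2).2, (hS n' q1).2⟩
    rw [card_image_of_injOn fun x hx y hy hxy => by
      obtain ⟨p1, p2⟩ := Prod.mk.inj (mem_filter.1 (mem_coe.1 hx)).2
      obtain ⟨p3, p4⟩ := Prod.mk.inj (mem_filter.1 (mem_coe.1 hy)).2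
      funext i
      fin_cases i
      · exact p1.trans p3.symm
      · exact p2.trans p4.symm
      · exact hxy] at h5
    rw [nsmul_eq_mul]
    have t1 := tau_nonneg (Int.gcd (n 0) (n 1))
    refine (mul_le_mul_of_nonneg_right h5 (by positivity)).trans (le_of_eq ?_)
    ring
  · have h5 : al H ≤ tau H := al_le_tau hH
    calc _ ≤ 7 * N 2 * (al c * tau H) / (c * H * Real.log z) *
          (C * tau H ^ (2 * a + 4) * (N 0 * N 1)) := by gcongr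
      _ = _ := by field_simp; ring

end Pool.Agent.MP_d0fd9b_nt.S64

end

end
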