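import Pool.Agent.MP_d0fd9b_nt.Mg.S64_Ana
import Pool.Agent.MP_d0fd9b_nt.S64.Geo

attribute [-instance] IdemSemiring.toCanonicallyOrderedAdd AddQuantale.instAddLeftMono
  IdemSemiring.toMulLeftMono IsOrderedMonoid.toMulLeftMono Quantale.instMulLeftMono
  NumberField.to_charZero RKHS.instFunLike LinearOrderedCommMonoidWithZero.toPosMulStrictMono
  CanonicallyOrderedAdd.toMulLeftMono AddQuantale.instAddRightMono instCoeHTCTOfCoeHTC
  Quantale.instMulRightMono covariant_swap_mul_of_covariant_mul littleWedderburn instCoeTOfCoeDep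
  ValuationRing.instIsBezout CanonicallyOrderedMul.toMulLeftMono CompletePartialOrder.toPartialOrder

-- part MP_d0fd9b_nt.S64.Sum
section

/-! The sum of the costs over a box. -/

set_option autoImplicit false

section
namespace Pool.Agent.MP_d0fd9b_nt.S64

open Finset S72 H72

lemma n5_fib {K M : ℝ} (hK : 0 ≤ K) (hM : 0 ≤ M) {H : ℕ} (hH : 0 < H) (S : Finset ((Fin 3 → ℤ) × ℤ))
    (h : ∀ k ∈ S, Dl k.1 k.2 ≠ 0 ∧ (H : ℤ) ∣ Dl k.1 k.2 ∧ |(Dl k.1 k.2 : ℝ)| ≤ M)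
    (hf : ∀ d : ℤ, (#(S.filter fun k => Dl k.1 k.2 = d) : ℝ) ≤ K) :
    (#S : ℝ) ≤ 2 * M / H * K := by
  classical
  have hH' : (0 : ℝ) < H := by exact_mod_cast hH
  set n : ℕ := ⌊M / H⌋₊ with hn
  have hmap : ∀ k ∈ S, Dl k.1 k.2 ∈ ((Icc (-(n : ℤ)) n).erase 0).image fun j : ℤ => (H : ℤ) * j := by
    intro k hk
    obtain ⟨h0, ⟨j, hj⟩, h2⟩ := h k hk
    refine mem_image.2 ⟨j, mem_erase.2 ⟨fun e => h0 (by rw [hj, e, mul_zero]), ?_⟩, hj.symm⟩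
    have h3 : ((j.natAbs : ℕ) : ℝ) ≤ M / H := by
      rw [le_div_iff₀ hH', Nat.cast_natAbs, Int.cast_abs]
      rw [hj] at h2
      push_cast at h2
      rwa [abs_mul, abs_of_pos hH', mul_comm] at h2
    have h4 : j.natAbs ≤ n := Nat.le_floor h3
    rw [mem_Icc]
    omega
  rw [card_eq_sum_card_fiberwise hmap]
  push_cast
  refine (sum_le_card_nsmul _ _ K fun d _ => hf d).trans ?_
  rw [nsmul_eq_mul]
  refine mul_le_mul_of_nonneg_right ?_ hK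
  have h5 : #(((Icc (-(n : ℤ)) n).erase 0).image fun j : ℤ => (H : ℤ) * j) ≤ 2 * n := by
    refine card_image_le.trans ?_
    rw [card_erase_of_mem (by simp only [mem_Icc, Left.neg_nonpos_iff, Nat.cast_nonneg, and_self]), Int.card_Icc]
    omega
  have h6 : (n : ℝ) ≤ M / H := Nat.floor_le (by positivity)
  calc _ ≤ ((2 * n : ℕ) : ℝ) := by exact_mod_cast h5
    _ = 2 * (n : ℝ) := by push_cast; ring
    _ ≤ 2 * (M / H) := by linarith only [h6]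
    _ = _ := by ring

lemma n5_pow {q B Z : ℝ} (hq : 0 < q) (hB : 0 < B) (hZ : 0 < Z) (h : Z ≤ q * B) :
    B ^ (5 / 6 : ℝ) / (q * B) ≤
      Z ^ (-(1 / 12) : ℝ) * (q ^ (-(11 / 12) : ℝ) * B ^ (-(1 / 12) : ℝ)) := by
  have h1 : (q * B) ^ (-(1 / 12) : ℝ) ≤ Z ^ (-(1 / 12) : ℝ) :=
    Real.rpow_le_rpow_of_nonpos hZ h (by norm_num)
  refine le_trans (le_of_eq ?_) (mul_le_mul_of_nonneg_right h1 (by positivity))
  rw [Real.mul_rpow hq.le hB.le, div_eq_iff (by positivity)]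
  have e1 : q ^ (-(1 / 12) : ℝ) * q ^ (-(11 / 12) : ℝ) * q = 1 := by
    rw [← Real.rpow_add hq, ← Real.rpow_add_one hq.ne']; norm_num
  have e2 : B ^ (-(1 / 12) : ℝ) * B ^ (-(1 / 12) : ℝ) * B = B ^ (5 / 6 : ℝ) := by
    rw [← Real.rpow_add hB, ← Real.rpow_add_one hB.ne']; norm_num
  linear_combination (-(B ^ (-(1 / 12) : ℝ) * B ^ (-(1 / 12) : ℝ) * B)) * e1 - e2

theorem tail {ε : ℝ} (hε : 0 < ε) : ∃ C : ℝ, 0 ≤ C ∧ ∀ M Z : ℝ, 1 ≤ M → 1 ≤ Z →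
    ∀ (S : Finset ((Fin 3 → ℤ) × ℤ)) (q B : (Fin 3 → ℤ) × ℤ → ℕ),
    (∀ k ∈ S, (∀ i, k.1 i ≠ 0) ∧ k.2 ≠ 0 ∧ |(k.2 : ℝ)| ≤ M ∧
      |((k.1 0 * k.1 1 * k.1 2 : ℤ) : ℝ)| ≤ M ^ 3 ∧ Dl k.1 k.2 ≠ 0 ∧ Z ≤ q k * B k ∧
      ((q k * B k : ℕ) : ℤ) ∣ Dl k.1 k.2 ∧ SF (q k) ∧
      ∀ l : ℕ, l.Prime → l ∣ B k → (l : ℤ) ∣ k.2) →
    ∑ k ∈ S, (B k : ℝ) ^ (5 / 6 : ℝ) ≤ C * M ^ (4 + ε) * Z ^ (-(1 / 12) : ℝ) := by
  classical
  obtain ⟨C₁, hC₁, h₁⟩ := t3_triple (show 0 < ε / 6 by positivity)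
  obtain ⟨C₂, hC₂, h₂⟩ := triple_sum
  refine ⟨4 * C₁ * 2 ^ (ε / 3) * C₂, by positivity, fun M Z hM hZ S q B hS => ?_⟩
  have hM0 : 0 < M := by linarith
  have hM3 : M ≤ M ^ 3 := le_self_pow₀ hM (by norm_num)
  have hΩ : 1 ≤ 2 * M ^ 3 := by linarith
  set K := C₁ * (2 * M ^ 3) ^ (ε / 6) * (2 * M ^ 3) ^ (ε / 6) with hKdef
  have hK0 : 0 ≤ K := by positivity
  have hK : K = C₁ * 2 ^ (ε / 3) * M ^ ε := by
    rw [hKdef, mul_assoc, ← Real.rpow_add (by positivity), Real.mul_rpow (by norm_num) (by positivity),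
      ← Real.rpow_natCast M 3, ← Real.rpow_mul hM0.le]
    rw [show ε / 6 + ε / 6 = ε / 3 by ring, show ((3 : ℕ) : ℝ) * (ε / 3) = ε by push_cast; ring]
    ring
  have hD : ∀ k ∈ S, |(Dl k.1 k.2 : ℝ)| ≤ 2 * M ^ 3 := fun k hk => by
    obtain ⟨-, -, a3, a4, -⟩ := hS k hk
    have e : (Dl k.1 k.2 : ℝ) = (k.2 : ℝ) ^ 3 - ((k.1 0 * k.1 1 * k.1 2 : ℤ) : ℝ) := by
      rw [Dl]; push_cast; ring
    have a5 : |(k.2 : ℝ) ^ 3| ≤ M ^ 3 := by
      rw [abs_pow]; exact pow_le_pow_left₀ (abs_nonneg _) a3 3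
    rw [e]
    exact (abs_sub _ _).trans (by linarith only [a4, a5])
  set f : (Fin 3 → ℤ) × ℤ → ℤ × ℕ × ℕ := fun k => (k.2, q k, B k) with hf
  have hT := h₂ M hM0.le (S.image f) fun t ht => by
    obtain ⟨k, hk, rfl⟩ := mem_image.1 ht
    obtain ⟨-, a2, a3, -, -, -, -, a8, a9⟩ := hS k hk
    exact ⟨a2, a3, a8, a9⟩
  rw [← sum_fiberwise_of_maps_to (s := S) (t := S.image f) (g := f)
    (fun k hk => mem_image_of_mem f hk)]
  have key : ∀ t ∈ S.image f, ∑ k ∈ S with f k = t, (B k : ℝ) ^ (5 / 6 : ℝ) ≤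
      4 * M ^ 3 * K * Z ^ (-(1 / 12) : ℝ) *
        ((t.2.1 : ℝ) ^ (-(11 / 12) : ℝ) * (t.2.2 : ℝ) ^ (-(1 / 12) : ℝ)) := by
    intro t ht
    obtain ⟨k₀, hk₀, rfl⟩ := mem_image.1 ht
    have hZ' : Z ≤ (q k₀ : ℝ) * B k₀ := (hS k₀ hk₀).2.2.2.2.2.1
    have hH : 0 < q k₀ * B k₀ := by
      have : (0 : ℝ) < ((q k₀ * B k₀ : ℕ) : ℝ) := by push_cast; linarith only [hZ, hZ']
      exact_mod_cast this
    have hq : (0 : ℝ) < q k₀ := by exact_mod_cast Nat.pos_of_mul_pos_right hH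
    have hB : (0 : ℝ) < B k₀ := by exact_mod_cast Nat.pos_of_mul_pos_left hH
    have hfib : ∀ k ∈ S.filter fun k => f k = f k₀,
        k ∈ S ∧ k.2 = k₀.2 ∧ q k = q k₀ ∧ B k = B k₀ := fun k hk => by
      obtain ⟨a, b⟩ := mem_filter.1 hk
      simp only [hf, Prod.mk.injEq] at b
      exact ⟨a, b⟩
    have hc := n5_fib (M := 2 * M ^ 3) hK0 (by positivity) hH (S.filter fun k => f k = f k₀) (fun k hk => by
      obtain ⟨a, -, b, c⟩ := hfib k hk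
      refine ⟨(hS k a).2.2.2.2.1, ?_, hD k a⟩
      rw [← b, ← c]; exact (hS k a).2.2.2.2.2.2.1) fun d => by
        rcases ((S.filter fun k => f k = f k₀).filter
          fun k => Dl k.1 k.2 = d).eq_empty_or_nonempty with e | ⟨k₁, hk₁⟩
        · rw [e, card_empty, Nat.cast_zero]; exact hK0
        refine h₁ _ hΩ k₀.2 d _ fun k hk => ?_
        obtain ⟨a, b⟩ := mem_filter.1 hk
        obtain ⟨a1, a2, -⟩ := hfib k a
        refine ⟨(hS k a1).1, a2, b, ?_, b ▸ hD k a1⟩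
        have := (hS k₀ hk₀).2.2.1
        linarith only [hM, hM3, this]
    rw [sum_congr rfl (g := fun _ => (B k₀ : ℝ) ^ (5 / 6 : ℝ)) fun k hk => by rw [(hfib k hk).2.2.2],
      sum_const, nsmul_eq_mul]
    have hp := n5_pow hq hB (by linarith only [hZ]) hZ'
    push_cast at hc
    calc _ ≤ 2 * (2 * M ^ 3) / (q k₀ * B k₀) * K * (B k₀ : ℝ) ^ (5 / 6 : ℝ) :=
          mul_le_mul_of_nonneg_right hc (by positivity)
      _ = 4 * M ^ 3 * K * ((B k₀ : ℝ) ^ (5 / 6 : ℝ) / (q k₀ * B k₀)) := by ring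
      _ ≤ 4 * M ^ 3 * K * (Z ^ (-(1 / 12) : ℝ) *
          ((q k₀ : ℝ) ^ (-(11 / 12) : ℝ) * (B k₀ : ℝ) ^ (-(1 / 12) : ℝ))) :=
          mul_le_mul_of_nonneg_left hp (by positivity)
      _ = _ := by simp only [hf]; ring
  refine (sum_le_sum key).trans ?_
  rw [← mul_sum]
  refine (mul_le_mul_of_nonneg_left hT (by positivity)).trans (le_of_eq ?_)
  rw [hK, Real.rpow_add hM0, show (4 : ℝ) = ((4 : ℕ) : ℝ) by norm_num, Real.rpow_natCast]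
  push_cast
  ring

end Pool.Agent.MP_d0fd9b_nt.S64

end

section
namespace Pool.Agent.MP_d0fd9b_nt.S64

open Finset S72 H72

theorem decomp (m : ℤ) {D : ℕ} (hD : D ≠ 0) : ∃ r q B : ℕ, D = r * q * B ∧ Squarefree r ∧
    (∀ l : ℕ, l.Prime → l ∣ r → 5 ≤ l ∧ ¬ l ∣ q * B ∧ ¬ (l : ℤ) ∣ m) ∧ IsCoprime (q : ℤ) m ∧ SF q ∧
    ∀ l : ℕ, l.Prime → l ∣ B → (l : ℤ) ∣ m := by
  have one : ∀ l : ℕ, l.Prime → ¬ l ∣ 1 := fun l hl => hl.not_dvd_one
  have sf1 : SF 1 := fun l hl _ h => absurd h (one l hl)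
  induction D using Nat.recOnPosPrimePosCoprime with
  | zero => exact absurd rfl hD
  | one =>
    exact ⟨1, 1, 1, rfl, squarefree_one, fun l hl h => absurd h (one l hl), isCoprime_one_left, sf1,
      fun l hl h => absurd h (one l hl)⟩
  | prime_pow p v hp hv =>
    have key : ∀ l : ℕ, l.Prime → l ∣ p ^ v → l = p := fun l hl h =>
      (Nat.prime_dvd_prime_iff_eq hl hp).1 (hl.dvd_of_dvd_pow h)
    by_cases hm : (p : ℤ) ∣ m
    · exact ⟨1, 1, p ^ v, by ring, squarefree_one, fun l hl h => absurd h (one l hl),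
        isCoprime_one_left, sf1, fun l hl h => key l hl h ▸ hm⟩
    · by_cases h1 : v = 1 ∧ 5 ≤ p
      · refine ⟨p ^ v, 1, 1, by ring, ?_, fun l hl h => ?_, isCoprime_one_left, sf1,
          fun l hl h => absurd h (one l hl)⟩
        · rw [h1.1, pow_one]; exact hp.prime.squarefree
        · rw [key l hl h]
          exact ⟨h1.2, one p hp, hm⟩
      · refine ⟨1, p ^ v, 1, by ring, squarefree_one, fun l hl h => absurd h (one l hl), ?_,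
          fun l hl h5 h => ?_, fun l hl h => absurd h (one l hl)⟩
        · push_cast
          exact (((Nat.prime_iff_prime_int.1 hp).irreducible.coprime_iff_not_dvd).2 hm).pow_left
        · obtain rfl := key l hl h
          refine pow_dvd_pow _ ?_
          by_contra h2
          exact h1 ⟨by omega, h5⟩
  | coprime a b ha hb hab iha ihb =>
    obtain ⟨r, q, B, rfl, a1, a2, a3, a4, a5⟩ := iha (by omega)
    obtain ⟨r', q', B', rfl, b1, b2, b3, b4, b5⟩ := ihb (by omega)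
    have hco : ∀ l : ℕ, l.Prime → l ∣ r * q * B → ¬ l ∣ r' * q' * B' := fun l hl h h' =>
      one l hl (hab ▸ Nat.dvd_gcd h h')
    refine ⟨r * r', q * q', B * B', by ring, ?_, fun l hl h => ?_, ?_, fun l hl h5 h => ?_,
      fun l hl h => ?_⟩
    · refine (Nat.squarefree_mul ?_).2 ⟨a1, b1⟩
      exact (hab.coprime_dvd_left ⟨q * B, by ring⟩).coprime_dvd_right ⟨q' * B', by ring⟩
    · have e : q * q' * (B * B') = q * B * (q' * B') := by ring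
      rw [e, hl.dvd_mul]
      rcases hl.dvd_mul.1 h with h | h
      · refine ⟨(a2 l hl h).1, ?_, (a2 l hl h).2.2⟩
        rintro (h' | h')
        · exact (a2 l hl h).2.1 h'
        · exact hco l hl (h.trans ⟨q * B, by ring⟩) (h'.trans ⟨r', by ring⟩)
      · refine ⟨(b2 l hl h).1, ?_, (b2 l hl h).2.2⟩
        rintro (h' | h')
        · exact hco l hl (h'.trans ⟨r, by ring⟩) (h.trans ⟨q' * B', by ring⟩)
        · exact (b2 l hl h).2.1 h'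
    · push_cast
      exact a3.mul_left b3
    · rcases hl.dvd_mul.1 h with h | h
      · exact (a4 l hl h5 h).mul_right _
      · exact (b4 l hl h5 h).mul_left _
    · rcases hl.dvd_mul.1 h with h | h
      · exact a5 l hl h
      · exact b5 l hl h

theorem n6_mem {P : Finset ℕ} (hP : ∀ p ∈ P, p.Prime) {l : ℕ} (hl : l.Prime) (h : l ∣ ∏ p ∈ P, p) :
    l ∈ P := by
  obtain ⟨p, hp, h1⟩ := (Prime.dvd_finsetProd_iff hl.prime _).1 h
  rwa [(Nat.prime_dvd_prime_iff_eq hl (hP p hp)).1 h1]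

theorem segment {r : ℕ} (hr : Squarefree r) (h3 : ∀ l : ℕ, l.Prime → l ∣ r → 3 ≤ l) {I : ℕ}
    (hI : 1 ≤ I) : ∃ j c e : ℕ, 1 ≤ j ∧ j ≤ I ∧ r = c * e ∧ c ≤ 2 ^ 2 ^ I ∧
      (∀ l : ℕ, l.Prime → l ∣ c → l ≤ 2 ^ 2 ^ j) ∧ (∀ l : ℕ, l.Prime → l ∣ e → 2 ^ 2 ^ (j - 1) < l) ∧
      (j = I ∨ 2 ^ 2 ^ (I - 1) < c) := by
  classical
  let c : ℕ → ℕ := fun x => ∏ p ∈ r.primeFactors.filter (· ≤ x), p
  have hY : 2 ^ 2 ^ I = 2 ^ 2 ^ (I - 1) * 2 ^ 2 ^ (I - 1) := by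
    rw [← pow_add, ← two_mul, ← pow_succ', Nat.sub_add_cancel hI]
  have h2 : ∀ i : ℕ, 2 ≤ 2 ^ 2 ^ i := fun i => Nat.le_self_pow (by positivity) 2
  have hc2 : c 2 ≤ 2 ^ 2 ^ I := by
    have : r.primeFactors.filter (· ≤ 2) = ∅ := filter_eq_empty_iff.2 fun p hp h => by
      have := h3 p (Nat.prime_of_mem_primeFactors hp) (Nat.dvd_of_mem_primeFactors hp)
      omega
    simp only [c, this, prod_empty]
    exact Nat.one_le_two_pow
  set x := Nat.findGreatest (fun x => c x ≤ 2 ^ 2 ^ I) (2 ^ 2 ^ I) with hx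
  have x1 : x ≤ 2 ^ 2 ^ I := Nat.findGreatest_le _
  have x2 : 2 ≤ x := Nat.le_findGreatest (P := fun x => c x ≤ 2 ^ 2 ^ I) (h2 I) hc2
  have x3 : c x ≤ 2 ^ 2 ^ I := Nat.findGreatest_spec (P := fun x => c x ≤ 2 ^ 2 ^ I) (h2 I) hc2
  have hsplit : r = c x * ∏ p ∈ r.primeFactors.filter (fun p => ¬ p ≤ x), p := by
    rw [prod_filter_mul_prod_filter_not, Nat.prod_primeFactors_of_squarefree hr]
  have hcx : ∀ l : ℕ, l.Prime → l ∣ c x → l ≤ x := fun l hl h =>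
    (mem_filter.1 (n6_mem (fun p hp => Nat.prime_of_mem_primeFactors (mem_filter.1 hp).1) hl h)).2
  have hex : ∀ l : ℕ, l.Prime → l ∣ ∏ p ∈ r.primeFactors.filter (fun p => ¬ p ≤ x), p → x < l :=
    fun l hl h => not_le.1
      (mem_filter.1 (n6_mem (fun p hp => Nat.prime_of_mem_primeFactors (mem_filter.1 hp).1) hl h)).2
  by_cases hb : 2 ^ 2 ^ (I - 1) ≤ x
  · exact ⟨I, c x, _, hI, le_rfl, hsplit, x3, fun l hl h => (hcx l hl h).trans x1,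
      fun l hl h => hb.trans_lt (hex l hl h), Or.inl rfl⟩
  · have hb' : x + 1 ≤ 2 ^ 2 ^ (I - 1) := by omega
    have hE : ∃ j, x + 1 ≤ 2 ^ 2 ^ j := ⟨_, hb'⟩
    have j1 : Nat.find hE ≤ I - 1 := Nat.find_min' hE hb'
    have j2 := Nat.find_spec hE
    have j3 : 1 ≤ Nat.find hE := by
      by_contra h
      have h0 : Nat.find hE = 0 := by omega
      rw [h0] at j2
      omega
    have j4 : ¬ x + 1 ≤ 2 ^ 2 ^ (Nat.find hE - 1) := Nat.find_min hE (by omega)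
    refine ⟨Nat.find hE, c x, _, j3, by omega, hsplit, x3, fun l hl h => ?_, fun l hl h => ?_,
      Or.inr ?_⟩
    · have := hcx l hl h
      omega
    · have := hex l hl h
      omega
    · have hle : x + 1 ≤ 2 ^ 2 ^ I := by
        rw [hY]
        exact hb'.trans (Nat.le_mul_of_pos_left _ (by positivity))
      have h1 : ¬ c (x + 1) ≤ 2 ^ 2 ^ I :=
        Nat.findGreatest_is_greatest (P := fun x => c x ≤ 2 ^ 2 ^ I) (Nat.lt_succ_self x) hle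
      have h4 : c (x + 1) ≤ (x + 1) * c x := by
        have hn : x + 1 ∉ r.primeFactors.filter (· ≤ x) := fun h => by
          have := (mem_filter.1 h).2
          omega
        simp only [c]
        rw [← prod_insert (f := fun p => p) hn]
        refine prod_le_prod_of_subset_of_one_le' (fun p hp => ?_) fun p hp _ => ?_
        · obtain ⟨h5, h6⟩ := mem_filter.1 hp
          rcases Nat.lt_or_ge x p with h | h
          · exact mem_insert.2 (Or.inl (by omega))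
          · exact mem_insert.2 (Or.inr (mem_filter.2 ⟨h5, h⟩))
        · rcases mem_insert.1 hp with rfl | h
          · omega
          · exact (Nat.prime_of_mem_primeFactors (mem_filter.1 h).1).one_le
      by_contra h5
      exact h1 (h4.trans (hY ▸ Nat.mul_le_mul hb' (not_lt.1 h5)))

end Pool.Agent.MP_d0fd9b_nt.S64

end

section
namespace Pool.Agent.MP_d0fd9b_nt.S64

open Finset S72 H72

lemma n7_tau {e i d : ℕ} (he : Squarefree e) (h1 : e ≤ (2 ^ 2 ^ (i + 1 + d)) ^ 64)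
    (h2 : ∀ l : ℕ, l.Prime → l ∣ e → 2 ^ 2 ^ i < l) : tau e ≤ 2 ^ (128 * 2 ^ d) := by
  have h3 : (2 ^ 2 ^ i) ^ #e.primeFactors ≤ e := by
    conv_rhs => rw [← Nat.prod_primeFactors_of_squarefree he]
    exact pow_card_le_prod _ _ _ fun p hp =>
      (h2 p (Nat.prime_of_mem_primeFactors hp) (Nat.dvd_of_mem_primeFactors hp)).le
  have h4 := h3.trans h1
  rw [← pow_mul, ← pow_mul, Nat.pow_le_pow_iff_right (by norm_num)] at h4
  have h5 : #e.primeFactors ≤ 128 * 2 ^ d := by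
    refine Nat.le_of_mul_le_mul_left (h4.trans (le_of_eq ?_)) (show 0 < 2 ^ i by positivity)
    ring
  have h6 : #e.divisors ≤ 2 ^ #e.primeFactors := by
    rw [Nat.card_divisors he.ne_zero]
    exact prod_le_pow_card _ _ _ fun p _ => Nat.succ_le_succ (he.natFactorization_le_one p)
  unfold tau
  exact_mod_cast h6.trans (Nat.pow_le_pow_right (by norm_num) h5)

lemma n7_wt {K : ℝ} (hK : 1 ≤ K) {c i d : ℕ} (hc : c ≠ 0) (h : d = 0 ∨ 2 ^ 2 ^ (i + d) < c) :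
    K ^ 2 ^ d ≤ K * (1 / 2) ^ d *
      (c : ℝ) ^ (2 * Real.log (2 * K) / Real.log ((2 : ℝ) ^ 2 ^ (i + 1))) := by
  have l2 : 0 < Real.log 2 := Real.log_pos (by norm_num)
  have lK : 0 ≤ Real.log (2 * K) := Real.log_nonneg (by linarith)
  have c1 : (1 : ℝ) ≤ c := by exact_mod_cast Nat.one_le_iff_ne_zero.2 hc
  have hs : 0 ≤ 2 * Real.log (2 * K) / Real.log ((2 : ℝ) ^ 2 ^ (i + 1)) := by
    rw [Real.log_pow]; positivity
  rcases h with rfl | h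
  · simpa only [pow_zero, pow_one, one_div, mul_one, Real.log_pow, Nat.cast_pow, Nat.cast_ofNat, ge_iff_le] using le_mul_of_one_le_right (by linarith only [hK] : 0 ≤ K) (Real.one_le_rpow c1 hs)
  have h1 : ((2 : ℝ) ^ 2 ^ (i + d)) ≤ c := by exact_mod_cast h.le
  have h2 : (2 * K) ^ 2 ^ d ≤
      (c : ℝ) ^ (2 * Real.log (2 * K) / Real.log ((2 : ℝ) ^ 2 ^ (i + 1))) := by
    refine le_trans (le_of_eq ?_) (Real.rpow_le_rpow (by positivity) h1 hs)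
    rw [Real.rpow_def_of_pos (by positivity), Real.log_pow, Real.log_pow,
      ← Real.exp_log (show 0 < (2 * K) ^ 2 ^ d by positivity), Real.log_pow]
    congr 1
    push_cast
    field_simp
    ring
  have h3 : (1 : ℝ) ≤ (1 / 2) ^ d * 2 ^ 2 ^ d := by
    rw [one_div, inv_pow, ← div_eq_inv_mul, one_le_div (by positivity)]
    exact pow_le_pow_right₀ (by norm_num) (Nat.lt_two_pow_self).le
  calc K ^ 2 ^ d ≤ K * ((1 / 2) ^ d * 2 ^ 2 ^ d) * K ^ 2 ^ d :=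
        le_mul_of_one_le_left (by positivity) (one_le_mul_of_one_le_of_one_le hK h3)
    _ = K * (1 / 2) ^ d * (2 * K) ^ 2 ^ d := by rw [mul_pow]; ring
    _ ≤ _ := mul_le_mul_of_nonneg_left h2 (by positivity)

lemma n7_pow (b : ℕ) : ∃ C : ℝ, 0 ≤ C ∧ ∀ q B : ℕ, q * B ≠ 0 →
    tau (q * B) ^ b / (q * B : ℕ) * (B : ℝ) ^ (5 / 6 : ℝ) ≤
      C * ((q : ℝ) ^ (-(11 / 12) : ℝ) * (B : ℝ) ^ (-(1 / 12) : ℝ)) := by
  obtain ⟨C, C1, hC⟩ := tau_le (ε := 1 / (12 * (b + 1))) (by positivity)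
  refine ⟨C ^ (b + 1), by positivity, fun q B h => ?_⟩
  have hq : (0 : ℝ) < q := by exact_mod_cast Nat.pos_of_ne_zero (left_ne_zero_of_mul h)
  have hB : (0 : ℝ) < B := by exact_mod_cast Nat.pos_of_ne_zero (right_ne_zero_of_mul h)
  have h1 : tau (q * B) ^ b ≤ C ^ (b + 1) * ((q : ℝ) * B) ^ (1 / 12 : ℝ) := by
    refine (pow_le_pow_right₀ (one_le_tau h) (Nat.le_succ b)).trans ?_
    refine (pow_le_pow_left₀ (tau_nonneg _) (hC (q * B) h (q * B) (by push_cast; rfl)) _).trans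
      (le_of_eq ?_)
    rw [mul_pow, ← Real.rpow_mul_natCast (by positivity)]
    congr 2
    push_cast
    field_simp
  have e1 : (q : ℝ) ^ (-(11 / 12) : ℝ) * q = q ^ (1 / 12 : ℝ) := by
    rw [← Real.rpow_add_one hq.ne']; norm_num
  have e2 : (B : ℝ) ^ (-(1 / 12) : ℝ) * B = B ^ (1 / 12 : ℝ) * B ^ (5 / 6 : ℝ) := by
    rw [← Real.rpow_add hB, ← Real.rpow_add_one hB.ne']; norm_num
  push_cast
  rw [div_mul_eq_mul_div, div_le_iff₀ (by positivity)]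
  refine (mul_le_mul_of_nonneg_right h1 (by positivity)).trans (le_of_eq ?_)
  rw [Real.mul_rpow hq.le hB.le, ← e1]
  linear_combination (-(C ^ (b + 1) * (q : ℝ) ^ (-(11 / 12) : ℝ) * q)) * e2

lemma n7_cost (a : ℕ) (n : Fin 3 → ℤ) {c e q B d : ℕ} (h : q * B ≠ 0)
    (he : tau e ≤ 2 ^ (128 * 2 ^ d)) :
    cost a n c (e * q) B ≤ ((2 : ℝ) ^ (128 * a)) ^ 2 ^ d * tau (q * B) ^ (2 * a) *
      (B : ℝ) ^ (5 / 6 : ℝ) * (tau (Int.gcd (n 0) (n 1)) ^ a * Rt c (n 0) (n 1)) := by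
  have t0 := tau_nonneg
  have h1 : tau (e * q) * tau B ≤ 2 ^ (128 * 2 ^ d) * tau (q * B) ^ 2 := by
    have a1 := tau_mul_le e q
    have a2 : tau q ≤ tau (q * B) := tau_mono h (dvd_mul_right _ _)
    have a3 : tau B ≤ tau (q * B) := tau_mono h (dvd_mul_left _ _)
    calc _ ≤ (2 ^ (128 * 2 ^ d) * tau (q * B)) * tau (q * B) :=
          mul_le_mul (a1.trans (mul_le_mul he a2 (t0 _) (by positivity))) a3 (t0 _)
            (mul_nonneg (by positivity) (t0 _))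
      _ = _ := by ring
  have h2 := pow_le_pow_left₀ (mul_nonneg (t0 _) (t0 _)) h1 a
  have h3 : ((2 : ℝ) ^ (128 * 2 ^ d) * tau (q * B) ^ 2) ^ a =
      ((2 : ℝ) ^ (128 * a)) ^ 2 ^ d * tau (q * B) ^ (2 * a) := by
    rw [mul_pow, ← pow_mul, ← pow_mul, ← pow_mul]
    congr 2
    ring
  rw [h3] at h2
  have h4 : 0 ≤ tau (Int.gcd (n 0) (n 1)) ^ a * Rt c (n 0) (n 1) * (B : ℝ) ^ (5 / 6 : ℝ) :=
    mul_nonneg (mul_nonneg (pow_nonneg (t0 _) _) (by positivity)) (by positivity)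
  calc cost a n c (e * q) B = (tau (e * q) * tau B) ^ a *
        (tau (Int.gcd (n 0) (n 1)) ^ a * Rt c (n 0) (n 1) * (B : ℝ) ^ (5 / 6 : ℝ)) := by
        rw [cost, mul_assoc (tau _), mul_pow]; ring
    _ ≤ _ := (mul_le_mul_of_nonneg_right h2 h4).trans (le_of_eq (by ring))

lemma n7_fix (a : ℕ) : ∃ C : ℝ, 0 ≤ C ∧ ∀ (i d : ℕ) (M : ℝ) (N : Fin 3 → ℝ), 0 ≤ M →
    (∀ r, ((2 : ℝ) ^ 2 ^ (i + 1 + d)) ^ 5 ≤ N r) →
    ∀ (S : Finset ((Fin 3 → ℤ) × ℤ)) (c e q B : (Fin 3 → ℤ) × ℤ → ℕ),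
    (∀ k ∈ S, (∀ r, k.1 r ≠ 0 ∧ |(k.1 r : ℝ)| ≤ N r) ∧ k.2 ≠ 0 ∧ |(k.2 : ℝ)| ≤ M ∧ Dl k.1 k.2 ≠ 0 ∧
      Adm k.1 k.2 (c k) (e k * q k) (B k) ∧ Squarefree (e k) ∧ e k ≤ (2 ^ 2 ^ (i + 1 + d)) ^ 64 ∧
      q k * B k ≤ 2 ^ 2 ^ (i + 1 + d) ∧ SF (q k) ∧ c k ≤ 2 ^ 2 ^ (i + 1 + d) ∧
      (∀ l : ℕ, l.Prime → l ∣ c k → l ≤ 2 ^ 2 ^ (i + 1)) ∧
      (∀ l : ℕ, l.Prime → l ∣ e k → 2 ^ 2 ^ i < l) ∧ (d = 0 ∨ 2 ^ 2 ^ (i + d) < c k)) →
    ∑ k ∈ S, cost a k.1 (c k) (e k * q k) (B k) ≤ C * (1 / 2) ^ d * (N 0 * N 1 * N 2 * M) := by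
  classical
  set K : ℝ := 2 ^ (128 * a) with hKdef
  have hK : 1 ≤ K := one_le_pow₀ (by norm_num)
  obtain ⟨C₁, c1, h₁⟩ := inner_sum a
  obtain ⟨C₂, c2, h₂⟩ := n7_pow (2 * a + (2 * a + 5))
  obtain ⟨C₃, c3, h₃⟩ := triple_sum
  obtain ⟨C₄, c4, h₄⟩ := rankin (lam := 2 * Real.log (2 * K))
    (mul_nonneg zero_le_two (Real.log_nonneg (by linarith)))
  refine ⟨2 * K * C₁ * C₂ * C₃ * C₄, by positivity, fun i d M N hM hN S c e q B hS => ?_⟩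
  set Z : ℝ := 2 ^ 2 ^ (i + 1 + d) with hZ
  have Z1 : 1 ≤ Z := one_le_pow₀ (by norm_num)
  have N0 : ∀ r, 0 ≤ N r := fun r => le_trans (by positivity) (hN r)
  have l2 : 0 < Real.log 2 := Real.log_pos (by norm_num)
  set z : ℕ := 2 ^ 2 ^ i with hz
  set y : ℝ := 2 ^ 2 ^ (i + 1) with hy
  have z2 : 2 ≤ z := le_self_pow₀ (by norm_num) (by positivity)
  have y2 : 2 ≤ y := le_self_pow₀ (by norm_num) (by positivity)
  have lz : 0 < Real.log z := Real.log_pos (by exact_mod_cast z2)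
  have lyz : Real.log y = 2 * Real.log z := by
    rw [hy, hz]; push_cast; rw [Real.log_pow, Real.log_pow]; push_cast; ring
  have z5 : (z : ℝ) ^ 5 ≤ Z ^ 3 := by
    rw [hz, hZ]; push_cast
    rw [← pow_mul, ← pow_mul]
    refine pow_le_pow_right₀ (by norm_num) ?_
    have : 1 ≤ 2 ^ d := Nat.one_le_two_pow
    rw [pow_add, pow_add]
    nlinarith only [Nat.one_le_two_pow (n := i), this]
  set s := 2 * Real.log (2 * K) / Real.log y with hs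
  set f : (Fin 3 → ℤ) × ℤ → ℤ × ℕ × ℕ := fun k => (k.2, q k, B k) with hf
  have hT := h₃ M hM (S.image f) fun t ht => by
    obtain ⟨k, hk, rfl⟩ := mem_image.1 ht
    obtain ⟨-, a2, a3, -, a5, -, -, -, a9, -⟩ := hS k hk
    exact ⟨a2, a3, a9, a5.2.2.2.2⟩
  have hC := h₄ y y2 (S.image c) fun t ht => by
    obtain ⟨k, hk, rfl⟩ := mem_image.1 ht
    obtain ⟨-, -, -, -, a5, -, -, -, -, -, a11, -⟩ := hS k hk
    exact ⟨a5.2.1, fun l hl h => by rw [hy]; exact_mod_cast a11 l hl h⟩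
  rw [← sum_fiberwise_of_maps_to (s := S) (t := S.image f ×ˢ S.image c) (g := fun k => (f k, c k))
    (fun k hk => mem_product.2 ⟨mem_image_of_mem f hk, mem_image_of_mem c hk⟩)]
  have key : ∀ t ∈ S.image f ×ˢ S.image c,
      ∑ k ∈ S with (f k, c k) = t, cost a k.1 (c k) (e k * q k) (B k) ≤
      K * (1 / 2) ^ d * C₁ * C₂ / Real.log z * (N 0 * N 1 * N 2) *
        (((t.1.2.1 : ℝ) ^ (-(11 / 12) : ℝ) * (t.1.2.2 : ℝ) ^ (-(1 / 12) : ℝ)) *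
          (al t.2 / t.2 * (t.2 : ℝ) ^ s)) := by
    intro t _
    have al0 : ∀ u, 0 ≤ al u := fun u => zero_le_one.trans (one_le_al u)
    have NN : 0 ≤ N 0 * N 1 * N 2 := mul_nonneg (mul_nonneg (N0 0) (N0 1)) (N0 2)
    rcases (S.filter fun k => (f k, c k) = t).eq_empty_or_nonempty with h0 | ⟨k₀, hk₀⟩
    · rw [h0, sum_empty]
      have := al0 t.2
      positivity
    obtain ⟨hk₁, rfl⟩ := mem_filter.1 hk₀
    set F := S.filter fun k => (f k, c k) = (f k₀, c k₀) with hF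
    have hfib : ∀ k ∈ F, k ∈ S ∧ k.2 = k₀.2 ∧ q k = q k₀ ∧ B k = B k₀ ∧ c k = c k₀ := fun k hk => by
      obtain ⟨a, b⟩ := mem_filter.1 hk
      simp only [hf, Prod.mk.injEq] at b
      exact ⟨a, b.1.1, b.1.2.1, b.1.2.2, b.2⟩
    obtain ⟨-, -, -, b4, b5, -, -, b8, -, b10, -, -, b13⟩ := hS k₀ hk₁
    have hne : c k₀ * (e k₀ * q k₀) * B k₀ ≠ 0 := b5.1 ▸ Int.natAbs_ne_zero.2 b4
    have hc0 : c k₀ ≠ 0 := left_ne_zero_of_mul (left_ne_zero_of_mul hne)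
    have hH : q k₀ * B k₀ ≠ 0 := mul_ne_zero
      (right_ne_zero_of_mul (right_ne_zero_of_mul (left_ne_zero_of_mul hne)))
      (right_ne_zero_of_mul hne)
    have cZ : (c k₀ : ℝ) ≤ Z := by rw [hZ]; exact_mod_cast b10
    have HZ : ((q k₀ * B k₀ : ℕ) : ℝ) ≤ Z := by rw [hZ]; exact_mod_cast b8
    have hcop : IsCoprime (c k₀ : ℤ) k₀.2 := by
      rw [Int.isCoprime_iff_gcd_eq_one, Int.gcd, Int.natAbs_natCast]
      refine Nat.Coprime.gcd_eq_one (Nat.coprime_of_dvd fun l hl h1 h2 => ?_)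
      exact (b5.2.2.1 l hl h1).2.2 (Int.natCast_dvd.2 h2)
    have hI := h₁ (c k₀) (q k₀ * B k₀) z k₀.2 N hc0 hH z2 (N0 0)
      (le_trans (le_trans (mul_le_mul (pow_le_pow_left₀ (by positivity) cZ 2) HZ (by positivity)
        (by positivity)) (by rw [← pow_succ]; exact pow_le_pow_right₀ Z1 (by norm_num))) (hN 1))
      (le_trans (le_trans (mul_le_mul z5 (mul_le_mul cZ HZ (by positivity) (by positivity))
        (by positivity) (by positivity)) (le_of_eq (by ring))) (hN 2)) hcop (F.image Prod.fst)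
      fun n hn => by
        obtain ⟨k, hk, rfl⟩ := mem_image.1 hn
        obtain ⟨hk, e1, e2, e3, e4⟩ := hfib k hk
        obtain ⟨a1, -, -, -, a5, -, -, -, -, -, -, a12, -⟩ := hS k hk
        rw [← e1, ← e2, ← e3, ← e4]
        refine ⟨a1, Int.natCast_dvd.2 ⟨e k, by rw [a5.1]; ring⟩, fun l hl h1 h2 => ?_⟩
        have h3 : l ∣ e k * (c k * (q k * B k)) := by
          have := Int.natCast_dvd.1 h2
          rw [a5.1] at this
          exact this.trans (dvd_of_eq (by ring))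
        exact ((Nat.Prime.dvd_mul hl).1 h3).resolve_left fun h4 => absurd (a12 l hl h4) (not_lt.2 h1)
    rw [sum_image fun k hk k' hk' h => Prod.ext h
      ((hfib k hk).2.1.trans (hfib k' hk').2.1.symm)] at hI
    have hw := n7_wt hK hc0 b13
    have hp := h₂ _ _ hH
    have t0 := tau_nonneg (q k₀ * B k₀)
    have a0 := al0 (c k₀)
    calc _ ≤ ∑ k ∈ F, K ^ 2 ^ d * tau (q k₀ * B k₀) ^ (2 * a) * (B k₀ : ℝ) ^ (5 / 6 : ℝ) *
          (tau (Int.gcd (k.1 0) (k.1 1)) ^ a * Rt (c k₀) (k.1 0) (k.1 1)) := by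
          refine sum_le_sum fun k hk => ?_
          obtain ⟨hk, -, e2, e3, e4⟩ := hfib k hk
          obtain ⟨-, -, -, -, -, a6, a7, -, -, -, -, a12, -⟩ := hS k hk
          rw [e2, e3, e4]
          exact n7_cost a k.1 hH (n7_tau a6 a7 a12)
      _ ≤ K ^ 2 ^ d * tau (q k₀ * B k₀) ^ (2 * a) * (B k₀ : ℝ) ^ (5 / 6 : ℝ) *
          (C₁ * (tau (q k₀ * B k₀) ^ (2 * a + 5) / (q k₀ * B k₀ : ℕ)) * (al (c k₀) / c k₀) /
            Real.log z * (N 0 * N 1 * N 2)) := by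
          rw [← mul_sum]
          exact mul_le_mul_of_nonneg_left hI (by positivity)
      _ = K ^ 2 ^ d * (tau (q k₀ * B k₀) ^ (2 * a + (2 * a + 5)) / (q k₀ * B k₀ : ℕ) *
          (B k₀ : ℝ) ^ (5 / 6 : ℝ)) * (C₁ * (al (c k₀) / c k₀) / Real.log z * (N 0 * N 1 * N 2)) := by
          rw [pow_add (tau _) (2 * a) (2 * a + 5)]; ring
      _ ≤ _ := by
          refine (mul_le_mul_of_nonneg_right (mul_le_mul hw hp (by positivity) (by positivity))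
            (by positivity)).trans (le_of_eq ?_)
          simp only [hf]
          ring
  refine (sum_le_sum key).trans ?_
  rw [← mul_sum, sum_product' (f := fun (t : ℤ × ℕ × ℕ) (u : ℕ) =>
    ((t.2.1 : ℝ) ^ (-(11 / 12) : ℝ) * (t.2.2 : ℝ) ^ (-(1 / 12) : ℝ)) * (al u / u * (u : ℝ) ^ s)),
    ← sum_mul_sum]
  have NN : 0 ≤ N 0 * N 1 * N 2 := mul_nonneg (mul_nonneg (N0 0) (N0 1)) (N0 2)
  refine (mul_le_mul_of_nonneg_left (mul_le_mul hT hC (sum_nonneg fun u _ => ?_) (by positivity))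
    (by positivity)).trans (le_of_eq ?_)
  · have := zero_le_one.trans (one_le_al u)
    positivity
  · rw [lyz]
    field_simp

theorem main_part (a : ℕ) : ∃ C : ℝ, 0 ≤ C ∧ ∀ (I : ℕ) (M : ℝ) (N : Fin 3 → ℝ), 1 ≤ I → 0 ≤ M →
    (∀ i, ((2 : ℝ) ^ 2 ^ I) ^ 5 ≤ N i) →
    ∀ (S : Finset ((Fin 3 → ℤ) × ℤ)) (j c e q B : (Fin 3 → ℤ) × ℤ → ℕ),
    (∀ k ∈ S, (∀ i, k.1 i ≠ 0 ∧ |(k.1 i : ℝ)| ≤ N i) ∧ k.2 ≠ 0 ∧ |(k.2 : ℝ)| ≤ M ∧ Dl k.1 k.2 ≠ 0 ∧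
      Adm k.1 k.2 (c k) (e k * q k) (B k) ∧ Squarefree (e k) ∧ e k ≤ (2 ^ 2 ^ I) ^ 64 ∧
      q k * B k ≤ 2 ^ 2 ^ I ∧ SF (q k) ∧ 1 ≤ j k ∧ j k ≤ I ∧ c k ≤ 2 ^ 2 ^ I ∧
      (∀ l : ℕ, l.Prime → l ∣ c k → l ≤ 2 ^ 2 ^ j k) ∧
      (∀ l : ℕ, l.Prime → l ∣ e k → 2 ^ 2 ^ (j k - 1) < l) ∧ (j k = I ∨ 2 ^ 2 ^ (I - 1) < c k)) →
    ∑ k ∈ S, cost a k.1 (c k) (e k * q k) (B k) ≤ C * (N 0 * N 1 * N 2 * M) := by
  classical
  obtain ⟨C, c0, hC⟩ := n7_fix a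
  refine ⟨C * 2, by positivity, fun I M N hI hM hN S j c e q B hS => ?_⟩
  have N0 : ∀ r, 0 ≤ N r := fun r => le_trans (by positivity) (hN r)
  have NN : 0 ≤ N 0 * N 1 * N 2 * M := mul_nonneg (mul_nonneg (mul_nonneg (N0 0) (N0 1)) (N0 2)) hM
  rw [← sum_fiberwise_of_maps_to (s := S) (t := range I) (g := fun k => I - j k) fun k hk => by
    obtain ⟨-, -, -, -, -, -, -, -, -, a10, -⟩ := hS k hk
    rw [mem_range]; omega]
  have key : ∀ d ∈ range I, ∑ k ∈ S with I - j k = d, cost a k.1 (c k) (e k * q k) (B k) ≤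
      C * (N 0 * N 1 * N 2 * M) * (1 / 2) ^ d := by
    intro d hd
    obtain ⟨i, rfl⟩ : ∃ i, I = i + 1 + d := ⟨I - 1 - d, by have := mem_range.1 hd; omega⟩
    refine (hC i d M N hM hN _ c e q B fun k hk => ?_).trans (le_of_eq (by ring))
    obtain ⟨hk, hj⟩ := mem_filter.1 hk
    obtain ⟨a1, a2, a3, a4, a5, a6, a7, a8, a9, a10, a11, a12, a13, a14, a15⟩ := hS k hk
    have e1 : j k = i + 1 := by omega
    rw [e1] at a13 a14 a15
    refine ⟨a1, a2, a3, a4, a5, a6, a7, a8, a9, a12, a13, a14, a15.imp (by omega) fun h => ?_⟩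
    rwa [show i + 1 + d - 1 = i + d by omega] at h
  refine (sum_le_sum key).trans ?_
  rw [← mul_sum]
  exact (mul_le_mul_of_nonneg_left (sum_geometric_two_le I) (by positivity)).trans
    (le_of_eq (by ring))

end Pool.Agent.MP_d0fd9b_nt.S64

end

section
namespace Pool.Agent.MP_d0fd9b_nt.S64

open Finset S72 H72

lemma n8_crude (a : ℕ) {ε : ℝ} (hε : 0 < ε) : ∃ C : ℝ, 0 ≤ C ∧ ∀ M Z : ℝ, 1 ≤ M → 1 ≤ Z →
    ∀ (S : Finset ((Fin 3 → ℤ) × ℤ)) (r q B : (Fin 3 → ℤ) × ℤ → ℕ),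
    (∀ k ∈ S, (∀ i, k.1 i ≠ 0) ∧ k.2 ≠ 0 ∧ |(k.2 : ℝ)| ≤ M ∧
      |((k.1 0 * k.1 1 * k.1 2 : ℤ) : ℝ)| ≤ M ^ 3 ∧ Dl k.1 k.2 ≠ 0 ∧ Z ≤ q k * B k ∧
      (Dl k.1 k.2).natAbs = r k * q k * B k ∧ SF (q k) ∧
      ∀ l : ℕ, l.Prime → l ∣ B k → (l : ℤ) ∣ k.2) →
    ∑ k ∈ S, cost a k.1 1 (r k * q k) (B k) ≤ C * M ^ (4 + ε) * Z ^ (-(1 / 12) : ℝ) := by
  obtain ⟨C₁, c1, h1⟩ := tail (half_pos hε)
  obtain ⟨C₂, c2, h2⟩ := tau_le (ε := ε / (24 * (a + 1))) (by positivity)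
  refine ⟨(C₂ ^ 3) ^ a * 2 ^ ε * C₁, by positivity, fun M Z hM hZ S r q B hS => ?_⟩
  have x1 : 1 ≤ (2 * M ^ 3) ^ (ε / (24 * (a + 1))) :=
    Real.one_le_rpow (by linarith only [one_le_pow₀ (n := 3) hM]) (by positivity)
  have x2 : (((2 * M ^ 3) ^ (ε / (24 * (a + 1)))) ^ 3) ^ a ≤ 2 ^ ε * M ^ (ε / 2) := by
    refine (pow_le_pow_right₀ (one_le_pow₀ x1) a.le_succ).trans ?_
    rw [← pow_mul, ← Real.rpow_natCast, ← Real.rpow_mul (by positivity),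
      show ε / (24 * (a + 1)) * ((3 * a.succ : ℕ) : ℝ) = ε / 8 by push_cast; field_simp; ring,
      Real.mul_rpow (by norm_num) (by positivity), ← Real.rpow_natCast, ← Real.rpow_mul (by positivity)]
    gcongr
    · norm_num
    · linarith only [hε]
    · push_cast; linarith
  calc _ ≤ ∑ k ∈ S, (C₂ ^ 3) ^ a * (2 ^ ε * M ^ (ε / 2)) * (B k : ℝ) ^ (5 / 6 : ℝ) :=
        sum_le_sum fun k hk => ?_
    _ ≤ (C₂ ^ 3) ^ a * (2 ^ ε * M ^ (ε / 2)) * (C₁ * M ^ (4 + ε / 2) * Z ^ (-(1 / 12) : ℝ)) := by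
        rw [← mul_sum]
        gcongr
        refine h1 M Z hM hZ S q B fun k hk => ?_
        obtain ⟨a1, a2, a3, a4, a5, a6, a7, a8⟩ := hS k hk
        exact ⟨a1, a2, a3, a4, a5, a6, Int.natCast_dvd.2 ⟨r k, by rw [a7]; ring⟩, a8⟩
    _ = _ := by
        rw [show 4 + ε = ε / 2 + (4 + ε / 2) by ring, Real.rpow_add (by linarith only [hM]) (ε / 2)]; ring
  obtain ⟨a1, a2, a3, a4, a5, a6, a7, a8⟩ := hS k hk
  have d0 : r k * q k * B k ≠ 0 := a7 ▸ Int.natAbs_ne_zero.2 a5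
  have d1 : ((r k * q k * B k : ℕ) : ℝ) ≤ 2 * M ^ 3 := by
    rw [← a7, Nat.cast_natAbs, Int.cast_abs, Dl, Int.cast_sub, Int.cast_pow]
    refine (abs_sub _ _).trans ?_
    rw [abs_pow]
    linarith only [pow_le_pow_left₀ (abs_nonneg _) a3 3, a4]
  have t : ∀ n : ℕ, n ≠ 0 → n ≤ r k * q k * B k → tau n ≤ C₂ * (2 * M ^ 3) ^ (ε / (24 * (a + 1))) :=
    fun n n0 hn => h2 n n0 _ ((Nat.cast_le.2 hn).trans d1)
  have t1 := t _ (left_ne_zero_of_mul d0) (Nat.le_of_dvd (Nat.pos_of_ne_zero d0) (dvd_mul_right _ _))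
  have t2 := t _ (right_ne_zero_of_mul d0) (Nat.le_of_dvd (Nat.pos_of_ne_zero d0) (dvd_mul_left _ _))
  have t3 : tau (Int.gcd (k.1 0) (k.1 1)) ≤ C₂ * (2 * M ^ 3) ^ (ε / (24 * (a + 1))) := by
    refine h2 _ (fun h => a1 0 (Int.gcd_eq_zero_iff.1 h).1) _ (le_trans ?_ (a4.trans (by
      linarith only [d1])))
    have := Int.le_of_dvd (abs_pos.2 (mul_ne_zero (mul_ne_zero (a1 0) (a1 1)) (a1 2)))
      ((dvd_abs _ _).2 (((Int.gcd_dvd_left (k.1 0) (k.1 1)).mul_right (k.1 1)).mul_right (k.1 2)))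
    exact_mod_cast this
  have e : Rt 1 (k.1 0) (k.1 1) = 1 := by simp [Rt]
  have := tau_nonneg (r k * q k)
  have := tau_nonneg (B k)
  have := tau_nonneg (Int.gcd (k.1 0) (k.1 1))
  rw [cost, e, Nat.cast_one, mul_one]
  gcongr
  refine (pow_le_pow_left₀ (by positivity) (mul_le_mul (mul_le_mul t3 t1 (by positivity) (by positivity))
    t2 (by positivity) (by positivity)) a).trans ?_
  rw [← pow_three', mul_pow, mul_pow]
  gcongr

lemma n8_lev {M : ℝ} (hM : 4 ^ 10 ≤ M) : ∃ I : ℕ, 1 ≤ I ∧ ((2 : ℝ) ^ 2 ^ I) ^ 10 ≤ M ∧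
    M ≤ ((2 : ℝ) ^ 2 ^ I) ^ 20 := by
  have hex : ∃ I : ℕ, M < ((2 : ℝ) ^ 2 ^ (I + 1)) ^ 10 := by
    obtain ⟨I, hI⟩ := pow_unbounded_of_one_lt M (one_lt_two (α := ℝ))
    refine ⟨I, hI.trans_le ?_⟩
    rw [← pow_mul]
    exact pow_le_pow_right₀ one_le_two (by have := Nat.lt_two_pow_self (n := I + 1); omega)
  classical
  have h1 := Nat.find_spec hex
  have h0 : Nat.find hex ≠ 0 := fun h => by rw [h] at h1; norm_num at h1 hM; linarith only [h1, hM]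
  have h2 := Nat.find_min hex (Nat.sub_one_lt h0)
  rw [Nat.sub_one_add_one h0, not_lt] at h2
  refine ⟨_, Nat.pos_of_ne_zero h0, h2, h1.le.trans_eq ?_⟩
  rw [← pow_mul, ← pow_mul, pow_succ]; ring_nf

theorem main_sum (a : ℕ) : ∃ C : ℝ, 0 ≤ C ∧ ∀ (M ν : ℝ) (N : Fin 3 → ℝ), 0 < ν → (∀ i, ν ≤ N i) →
    0 < M → N 0 * N 1 * N 2 ≤ M ^ 3 → ∀ S : Finset ((Fin 3 → ℤ) × ℤ),
    (∀ k ∈ S, (∀ i, k.1 i ≠ 0 ∧ |(k.1 i : ℝ)| ≤ N i) ∧ k.2 ≠ 0 ∧ |(k.2 : ℝ)| ≤ M ∧ Dl k.1 k.2 ≠ 0) →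
    ∃ c q B : (Fin 3 → ℤ) × ℤ → ℕ, (∀ k ∈ S, Adm k.1 k.2 (c k) (q k) (B k)) ∧
      ∑ k ∈ S, cost a k.1 (c k) (q k) (B k) ≤ C * M ^ 4 * √(M / ν) := by
  classical
  obtain ⟨C₁, c1, h1⟩ := n8_crude a (ε := 1 / 240) (by norm_num)
  obtain ⟨C₂, c2, h2⟩ := main_part a
  refine ⟨C₁ * 4 ^ 10 + C₂, by positivity, fun M ν N ν0 hN M0 hNM S hS => ?_⟩
  rcases S.eq_empty_or_nonempty with rfl | ⟨k₀, hk₀⟩
  · exact ⟨0, 0, 0, by simp, by rw [sum_empty]; positivity⟩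
  have hM : 1 ≤ M := le_trans (by exact_mod_cast Int.one_le_abs (hS k₀ hk₀).2.1) (hS k₀ hk₀).2.2.1
  have N0 : ∀ i, 0 < N i := fun i => ν0.trans_le (hN i)
  have νM : ν ≤ M := le_of_pow_le_pow_left₀ three_ne_zero M0.le (le_trans (by
    rw [pow_three']
    exact mul_le_mul (mul_le_mul (hN 0) (hN 1) ν0.le (N0 0).le) (hN 2) ν0.le
      (mul_pos (N0 0) (N0 1)).le) hNM)
  have s1 : 1 ≤ √(M / ν) := Real.one_le_sqrt.2 ((one_le_div ν0).2 νM)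
  choose! r q B hd using fun (k : (Fin 3 → ℤ) × ℤ) (hk : k ∈ S) =>
    decomp k.2 (Int.natAbs_ne_zero.2 (hS k hk).2.2.2)
  have qB0 : ∀ k ∈ S, r k * q k * B k ≠ 0 := fun k hk => (hd k hk).1 ▸ Int.natAbs_ne_zero.2 (hS k hk).2.2.2
  have pr : ∀ k ∈ S, |((k.1 0 * k.1 1 * k.1 2 : ℤ) : ℝ)| ≤ M ^ 3 := fun k hk => by
    refine le_trans ?_ hNM
    push_cast
    rw [abs_mul, abs_mul]
    exact mul_le_mul (mul_le_mul ((hS k hk).1 0).2 ((hS k hk).1 1).2 (abs_nonneg _) (N0 0).le)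
      ((hS k hk).1 2).2 (abs_nonneg _) (mul_pos (N0 0) (N0 1)).le
  have cr : ∀ Z : ℝ, 1 ≤ Z → ∀ T ⊆ S, (∀ k ∈ T, Z ≤ q k * B k) →
      ∑ k ∈ T, cost a k.1 1 (r k * q k) (B k) ≤ C₁ * M ^ (4 + 1 / 240 : ℝ) * Z ^ (-(1 / 12) : ℝ) :=
    fun Z hZ T hT h => h1 M Z hM hZ T r q B fun k hk => by
      obtain ⟨a1, a2, a3, a4⟩ := hS k (hT hk)
      obtain ⟨b1, -, -, -, b2, b3⟩ := hd k (hT hk)
      exact ⟨fun i => (a1 i).1, a2, a3, pr k (hT hk), a4, h k hk, b1, b2, b3⟩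
  have cop : ∀ k ∈ S, ∀ e, e ∣ r k → IsCoprime ((e * q k : ℕ) : ℤ) k.2 := fun k hk e he => by
    rw [Nat.cast_mul]
    exact IsCoprime.mul_left (coprime_of fun l hl h =>
      ((hd k hk).2.2.1 l hl ((Int.natCast_dvd_natCast.1 h).trans he)).2.2) (hd k hk).2.2.2.1
  have ad : ∀ k ∈ S, Adm k.1 k.2 1 (r k * q k) (B k) := fun k hk =>
    ⟨by rw [one_mul]; exact (hd k hk).1, squarefree_one, fun l hl h => absurd (Nat.dvd_one.1 h) hl.ne_one,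
      cop k hk _ dvd_rfl, (hd k hk).2.2.2.2.2⟩
  have e4 : M ^ (4 + 1 / 240 : ℝ) = M ^ 4 * M ^ (1 / 240 : ℝ) := by
    rw [Real.rpow_add M0, ← Real.rpow_natCast]; norm_num
  have M4 : 0 < M ^ 4 := by positivity
  by_cases hc : M ≤ 4 ^ 10 ∨ ν ≤ √M
  · refine ⟨fun _ => 1, fun k => r k * q k, B, ad, (cr 1 le_rfl S Subset.rfl fun k hk => ?_).trans ?_⟩
    · have := qB0 k hk
      rw [mul_assoc] at this
      exact_mod_cast Nat.pos_of_ne_zero (right_ne_zero_of_mul this)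
    have : M ^ (1 / 240 : ℝ) ≤ 4 ^ 10 * √(M / ν) := by
      rcases hc with hc | hc
      · exact ((Real.rpow_le_self_of_one_le hM (by norm_num)).trans hc).trans
          (le_mul_of_one_le_right (by positivity) s1)
      · refine le_trans ?_ (le_mul_of_one_le_left (by positivity) (by norm_num))
        refine Real.le_sqrt_of_sq_le ((le_div_iff₀ ν0).2 ?_)
        refine (mul_le_mul_of_nonneg_left hc (by positivity)).trans ?_
        rw [Real.sqrt_eq_rpow, ← Real.rpow_natCast, ← Real.rpow_mul M0.le, ← Real.rpow_add M0]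
        exact Real.rpow_le_self_of_one_le hM (by norm_num)
    rw [Real.one_rpow, mul_one, e4]
    linarith only [mul_le_mul_of_nonneg_left this (mul_nonneg c1 M4.le), mul_nonneg (mul_nonneg c2 M4.le) (Real.sqrt_nonneg (M / ν))]
  push Not at hc
  obtain ⟨I, I1, I2, I3⟩ := n8_lev hc.1.le
  choose! j c e hs using fun (k : (Fin 3 → ℤ) × ℤ) (hk : k ∈ S) =>
    segment (hd k hk).2.1 (fun l hl h => le_trans (by norm_num) ((hd k hk).2.2.1 l hl h).1) I1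
  have ad2 : ∀ k ∈ S, Adm k.1 k.2 (c k) (e k * q k) (B k) := fun k hk => by
    obtain ⟨b1, b2, b3, -, -, b4⟩ := hd k hk
    obtain ⟨-, -, e1, -⟩ := hs k hk
    refine ⟨by rw [b1, e1]; ring, (e1 ▸ b2).of_mul_left, fun l hl h => ?_, cop k hk _ ⟨c k, by rw [e1]; ring⟩, b4⟩
    obtain ⟨d1, d2, d3⟩ := b3 l hl (e1 ▸ h.mul_right _)
    refine ⟨d1, fun h' => ?_, d3⟩
    rw [mul_assoc] at h'
    exact hl.not_isUnit (b2 l (e1 ▸ mul_dvd_mul h ((hl.dvd_mul.1 h').resolve_right d2)))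
  have Z1 : (2 : ℝ) ≤ 2 ^ 2 ^ I := le_self_pow₀ one_le_two (by positivity)
  refine ⟨fun k => if q k * B k ≤ 2 ^ 2 ^ I then c k else 1,
    fun k => if q k * B k ≤ 2 ^ 2 ^ I then e k * q k else r k * q k, B, fun k hk => ?_, ?_⟩
  · dsimp only
    split_ifs
    exacts [ad2 k hk, ad k hk]
  dsimp only
  rw [← sum_filter_add_sum_filter_not S fun k => q k * B k ≤ 2 ^ 2 ^ I,
    sum_congr rfl fun k hk => by rw [if_pos (mem_filter.1 hk).2, if_pos (mem_filter.1 hk).2],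
    sum_congr (s₁ := S.filter fun k => ¬ q k * B k ≤ 2 ^ 2 ^ I) rfl fun k hk => by
      rw [if_neg (mem_filter.1 hk).2, if_neg (mem_filter.1 hk).2]]
  have p1 := h2 I M N I1 M0.le (fun i => le_trans (Real.le_sqrt_of_sq_le (by rwa [← pow_mul]))
    (hc.2.le.trans (hN i))) (S.filter fun k => q k * B k ≤ 2 ^ 2 ^ I) j c e q B fun k hk => by
      obtain ⟨k1, k2⟩ := mem_filter.1 hk
      obtain ⟨a1, a2, a3, a4⟩ := hS k k1
      obtain ⟨b1, b2, -, -, b3, -⟩ := hd k k1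
      obtain ⟨d1, d2, d3, d4, d5, d6, d7⟩ := hs k k1
      refine ⟨a1, a2, a3, a4, ad2 k k1, (d3 ▸ b2).of_mul_right, ?_, k2, b3, d1, d2, d4, d5, d6, d7⟩
      have f1 : ((e k : ℕ) : ℝ) ≤ ((r k * q k * B k : ℕ) : ℝ) := Nat.cast_le.2
        (Nat.le_of_dvd (Nat.pos_of_ne_zero (qB0 k k1)) ⟨c k * q k * B k, by rw [d3]; ring⟩)
      rw [← b1, Nat.cast_natAbs, Int.cast_abs, Dl, Int.cast_sub, Int.cast_pow] at f1
      have f2 := f1.trans (abs_sub _ _)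
      rw [abs_pow] at f2
      have f3 := pow_le_pow_left₀ (abs_nonneg _) a3 3
      have f4 := pow_le_pow_left₀ M0.le I3 3
      have f5 : (2 : ℝ) ≤ ((2 : ℝ) ^ 2 ^ I) ^ 4 := Z1.trans (le_self_pow₀ (by linarith only [Z1]) (by norm_num))
      have f6 : ((e k : ℕ) : ℝ) ≤ ((2 : ℝ) ^ 2 ^ I) ^ 64 :=
        calc _ ≤ 2 * (((2 : ℝ) ^ 2 ^ I) ^ 20) ^ 3 := by linarith only [pr k k1, f2, f3, f4]
          _ ≤ ((2 : ℝ) ^ 2 ^ I) ^ 4 * (((2 : ℝ) ^ 2 ^ I) ^ 20) ^ 3 := by gcongr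
          _ = _ := by ring
      exact_mod_cast f6
  have p2 := cr (2 ^ 2 ^ I) (by linarith only [Z1]) _ (filter_subset (fun k => ¬ q k * B k ≤ 2 ^ 2 ^ I) S)
    fun k hk => by exact_mod_cast (not_le.1 (mem_filter.1 hk).2).le
  have p3 : M ^ (1 / 240 : ℝ) * ((2 : ℝ) ^ 2 ^ I) ^ (-(1 / 12) : ℝ) ≤ 1 := by
    refine (mul_le_mul_of_nonneg_right (Real.rpow_le_rpow M0.le I3 (by norm_num)) (by positivity)).trans_eq ?_
    rw [← Real.rpow_natCast _ 20, ← Real.rpow_mul (by positivity), ← Real.rpow_add (by positivity)]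
    norm_num
  rw [e4] at p2
  have p4 := mul_le_mul_of_nonneg_left (mul_le_mul_of_nonneg_right hNM M0.le) c2
  have p5 := mul_le_mul_of_nonneg_left p3 (mul_nonneg c1 M4.le)
  have p6 := mul_le_mul_of_nonneg_left s1 (show 0 ≤ (C₁ * 4 ^ 10 + C₂) * M ^ 4 by positivity)
  linarith only [mul_nonneg c1 M4.le, p1, p2, p4, p5, p6]

end Pool.Agent.MP_d0fd9b_nt.S64

end

end

-- part MP_d0fd9b_nt.S64.Box
section

/-! The sharp second moment. -/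

set_option autoImplicit false

section
namespace Pool.Agent.MP_d0fd9b_nt.S64

open Finset S72 H72

lemma b1_id {s : ℂ} {X : Fin 3 → ℂ × ℂ} {n p a : Fin 3 → ℤ} {m : ℤ} (h : Par s X n m p a) :
    (Dl n m : ℂ) * s ^ 2 = ∑ i, p i * ((X i).2 * (X (i + 1)).1 ^ 2 * (X (i + 2)).1 ^ 2 +
      (X i).1 * (X (i + 1)).2 ^ 2 * (X (i + 2)).2 ^ 2) := by
  obtain ⟨σ, -, hσ, h1, h2, h3, h4, h5⟩ := h.expl
  have e : (Dl n m : ℂ) = σ ^ 2 * ∑ i, p i * ((X i).2 * (X (i + 1)).1 ^ 2 * (X (i + 2)).1 ^ 2 +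
      (X i).1 * (X (i + 1)).2 ^ 2 * (X (i + 2)).2 ^ 2) := by
    simp only [Dl, Fin.isValue, Int.cast_sub, Int.cast_pow, h2, Int.cast_mul, h1, Fin.sum_univ_three, h3, zero_add, h4, Fin.reduceAdd, h5]
    ring
  rw [e, mul_right_comm, ← mul_pow, mul_comm σ, hσ, one_pow, one_mul]

lemma b1_main {s : ℂ} {X : Fin 3 → ℂ × ℂ} {n p a : Fin 3 → ℤ} {m : ℤ} (h : Par s X n m p a)
    {W P κ : ℝ} {Z : Fin 3 → ℝ} (hW : 0 < W) (hs : W ≤ ‖s‖) (hZ : ∀ i, ‖X i‖ ≤ Z i) (Z0 : ∀ i, 0 < Z i)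
    (hP : P = Z 0 * Z 1 * Z 2) (κ0 : 0 < κ) (hκ : 12 * P ^ 3 ≤ κ * W * (|(Dl n m : ℝ)| * ‖s‖ ^ 2)) :
    (∀ i, |(n i : ℝ)| ≤ 2 * Z i ^ 3 / W) ∧ |(m : ℝ)| ≤ 2 * P / W ∧
    (∀ i, |(p i : ℝ)| ≤ 2 * Z i * P / W) ∧ (∃ i, p i ≠ 0 ∧ 2 * Z i * P / W ≤ κ * |(p i : ℝ)|) ∧
    ∑ i, 2 * Z i * P / W * ‖X (i + 1) * (X (i + 2)).swap‖ ≤ 6 * P ^ 2 / W := by
  have f1 : ∀ i, ‖(X i).1‖ ≤ Z i := fun i => (norm_fst_le _).trans (hZ i)
  have f2 : ∀ i, ‖(X i).2‖ ≤ Z i := fun i => (norm_snd_le _).trans (hZ i)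
  have Z1 : ∀ i, 0 ≤ Z i := fun i => (Z0 i).le
  have pr : ∀ i, Z i * (Z (i + 1) * Z (i + 2)) = P := fun i => by
    rw [hP]
    fin_cases i <;> simp <;> ring
  have P0 : 0 < P := hP ▸ mul_pos (mul_pos (Z0 0) (Z0 1)) (Z0 2)
  have bd : ∀ {k : ℤ} {u w : ℂ} {y : ℝ}, k * s = u - w → ‖u‖ ≤ y → ‖w‖ ≤ y → |(k : ℝ)| ≤ 2 * y / W :=
    fun {k u w y} h1 h2 h3 => by
      have := norm_sub_le u w
      rw [← h1, norm_mul, Complex.norm_intCast] at this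
      rw [le_div_iff₀ hW]
      nlinarith only [abs_nonneg (k : ℝ), hs, h2, h3, this]
  refine ⟨fun i => bd (h.2.1 i) ?_ ?_, hP ▸ bd h.2.2.1 ?_ ?_, fun i => ?_, ?_, ?_⟩
  · rw [norm_pow]; gcongr; apply f1
  · rw [norm_pow]; gcongr; apply f2
  · simp only [norm_mul]
    have := Z1 0
    have := Z1 1
    gcongr <;> apply f1
  · simp only [norm_mul]
    have := Z1 0
    have := Z1 1
    gcongr <;> apply f2
  · have := Z1 i
    have := Z1 (i + 1)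
    rw [mul_assoc, show Z i * P = Z i ^ 2 * Z (i + 1) * Z (i + 2) by rw [← pr i]; ring]
    refine bd (h.2.2.2.1 i) ?_ ?_ <;> simp only [norm_mul, norm_pow] <;> gcongr <;> apply_assumption
  · by_contra hn
    push Not at hn
    have h1 : ∀ i, κ * W * (|(p i : ℝ)| * (2 * (P * (Z (i + 1) * Z (i + 2))))) < 4 * P ^ 3 := fun i => by
      have h2 : κ * |(p i : ℝ)| < 2 * Z i * P / W := by
        by_cases h0 : p i = 0
        · have := Z0 i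
          rw [h0, Int.cast_zero, abs_zero, mul_zero]
          positivity
        · exact hn i h0
      rw [lt_div_iff₀ hW] at h2
      have h3 := mul_lt_mul_of_pos_right h2 (mul_pos P0 (mul_pos (Z0 (i + 1)) (Z0 (i + 2))))
      calc _ = 2 * (κ * |(p i : ℝ)| * W * (P * (Z (i + 1) * Z (i + 2)))) := by ring
        _ < 2 * (2 * Z i * P * (P * (Z (i + 1) * Z (i + 2)))) := by linarith
        _ = 4 * P ^ 2 * (Z i * (Z (i + 1) * Z (i + 2))) := by ring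
        _ = _ := by rw [pr]; ring
    have h2 : |(Dl n m : ℝ)| * ‖s‖ ^ 2 ≤ ∑ i, |(p i : ℝ)| * (2 * (P * (Z (i + 1) * Z (i + 2)))) := by
      rw [← Complex.norm_intCast, ← norm_pow, ← norm_mul, b1_id h]
      refine (norm_sum_le _ _).trans (sum_le_sum fun i _ => ?_)
      rw [norm_mul, Complex.norm_intCast]
      refine mul_le_mul_of_nonneg_left ((norm_add_le _ _).trans ?_) (abs_nonneg _)
      have := Z1 i
      have := Z1 (i + 1)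
      rw [two_mul, show P * (Z (i + 1) * Z (i + 2)) = Z i * Z (i + 1) ^ 2 * Z (i + 2) ^ 2 by
        rw [← pr i]; ring]
      simp only [norm_mul, norm_pow]
      gcongr <;> apply_assumption
    have h3 := mul_le_mul_of_nonneg_left h2 (mul_pos κ0 hW).le
    rw [mul_sum, Fin.sum_univ_three] at h3
    linarith [h1 0, h1 1, h1 2]
  · have h1 : ∀ i, 2 * Z i * P / W * ‖X (i + 1) * (X (i + 2)).swap‖ ≤ 2 * P ^ 2 / W := fun i => by
      have := Z1 i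
      have h2 : ‖X (i + 1) * (X (i + 2)).swap‖ ≤ Z (i + 1) * Z (i + 2) :=
        (norm_mul_le _ _).trans (by
          rw [norm_swap']
          exact mul_le_mul (hZ _) (hZ _) (norm_nonneg _) (Z1 _))
      refine (mul_le_mul_of_nonneg_left h2 (by positivity)).trans_eq ?_
      rw [pow_two]
      nth_rewrite 3 [← pr i]
      ring
    rw [Fin.sum_univ_three, show 6 * P ^ 2 / W = 3 * (2 * P ^ 2 / W) by ring]
    linarith [h1 0, h1 1, h1 2]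

theorem box {W t : ℝ} {n p : Fin 3 → ℤ} {m : ℤ} {Y y : Fin 3 → ℝ} (h : Tup W n m p Y) (hW : 0 < W)
    (hy : ∀ i, y i ≤ Y i ∧ Y i ≤ 2 * y i) (ht : tau (Int.gcd (n 0) (n 1)) ^ 4 ≤ 2 * t) (t1 : 1 ≤ t) :
    (∀ i, |(n i : ℝ)| ≤ 2 * ![2 * y 0, 2 * y 1, 20000 * t * y 2] i ^ 3 / W) ∧
    |(m : ℝ)| ≤ 2 * (80000 * t * (y 0 * y 1 * y 2)) / W ∧
    (y 0 * y 1 * y 2) ^ 3 ≤ 4 * 10 ^ 12 * W ^ 3 * |(Dl n m : ℝ)| ∧
    Dat2 n m p (fun i => 2 * ![2 * y 0, 2 * y 1, 20000 * t * y 2] i *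
      (80000 * t * (y 0 * y 1 * y 2)) / W) (6 * (80000 * t * (y 0 * y 1 * y 2)) ^ 2 / W)
      (10 ^ 25 * t ^ 3) (y 1 / 2) W := by
  obtain ⟨-, Y0, Y1, Y2, -, δ, g, X, a, L, hP, g0, g1, d0, d1, x0, x1, x2, hD, hL, l1, l2, l3⟩ := h
  have y0 : 0 < y 0 := by linarith only [(hy 0).2, Y0]
  have y1 : 0 < y 1 := by linarith only [(hy 1).2, Y0, Y1]
  have y2 : 0 < y 2 := by linarith [(hy 2).2]
  have g2 : (1 : ℝ) ≤ g := by exact_mod_cast g0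
  have g3 : (g : ℝ) ≤ 18 := by exact_mod_cast g1
  have e : ‖(g : ℂ) * δ‖ = g * ‖δ‖ := by
    rw [norm_mul, Complex.norm_intCast, abs_of_nonneg (by linarith only [g2])]
  have s0 : W ≤ ‖(g : ℂ) * δ‖ := by
    rw [e]
    nlinarith only [hW, d0, g2]
  have s1 : ‖(g : ℂ) * δ‖ ≤ 72 * W := by
    rw [e]
    nlinarith only [d0, d1, g3]
  have hD' : (y 0 * y 1 * y 2) ^ 3 ≤ 10 ^ 7 * (|(Dl n m : ℝ)| * ‖(g : ℂ) * δ‖ ^ 3) := by
    refine le_trans ?_ hD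
    have := (hy 0).1
    have := (hy 1).1
    have := (hy 2).1
    have : 0 ≤ Y 0 * Y 1 := mul_nonneg (by linarith only [Y0]) (by linarith only [Y0, Y1])
    have : 0 ≤ Y 0 := by linarith only [Y0]
    gcongr
  have hZ : ∀ i, ‖X i‖ ≤ ![2 * y 0, 2 * y 1, 20000 * t * y 2] i := by
    intro i
    fin_cases i
    · exact x0.trans (hy 0).2
    · exact x1.trans (hy 1).2
    · refine x2.trans (le_trans (mul_le_mul (mul_le_mul_of_nonneg_left ht (by norm_num)) (hy 2).2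
        (by linarith only [Y0, Y1, Y2]) (by positivity)) (le_of_eq ?_))
      simp
      ring
  have Z0 : ∀ i, 0 < ![2 * y 0, 2 * y 1, 20000 * t * y 2] i := by
    intro i
    fin_cases i <;> simp only [Nat.succ_eq_add_one, Nat.reduceAdd, Fin.isValue, Fin.zero_eta, Matrix.cons_val_zero, Nat.ofNat_pos, mul_pos_iff_of_pos_left, Fin.mk_one, Matrix.cons_val_one, Fin.reduceFinMk, Matrix.cons_val] <;> positivity
  have D0 := abs_nonneg (Dl n m : ℝ)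
  obtain ⟨b1, b2, b3, b4, b5⟩ := b1_main (P := 80000 * t * (y 0 * y 1 * y 2)) (κ := 10 ^ 25 * t ^ 3) hP hW
    s0 hZ Z0 (by simp; ring) (by positivity) (by
      have h1 : |(Dl n m : ℝ)| * ‖(g : ℂ) * δ‖ ^ 3 ≤ 72 * (W * (|(Dl n m : ℝ)| * ‖(g : ℂ) * δ‖ ^ 2)) := by
        have := mul_le_mul_of_nonneg_left s1 (mul_nonneg D0 (sq_nonneg ‖(g : ℂ) * δ‖))
        linarith only [this]
      have h2 : 0 ≤ W * (|(Dl n m : ℝ)| * ‖(g : ℂ) * δ‖ ^ 2) := by positivity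
      have h3 : 12 * 80000 ^ 3 * (y 0 * y 1 * y 2) ^ 3 ≤
          10 ^ 25 * (W * (|(Dl n m : ℝ)| * ‖(g : ℂ) * δ‖ ^ 2)) := by linarith only [hD', h1, h2]
      have h4 := mul_le_mul_of_nonneg_left h3 (show 0 ≤ t ^ 3 by positivity)
      linarith only [h4])
  refine ⟨b1, b2, hD'.trans ?_, b3, b4, L, δ, g, fun i => X (i + 1) * (X (i + 2)).swap,
    ⟨hL.1, hL.2.1, fun u h1 h2 => le_trans (by linarith only [(hy 1).1]) (hL.2.2 u h1 h2)⟩, d0, g0.ne', l1, b5,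
    fun i => ?_, ?_, ⟨_, l2, ?_⟩, ⟨_, l3, ?_⟩⟩
  · have h1 := mul_le_mul_of_nonneg_left (pow_le_pow_left₀ (norm_nonneg _) s1 3) D0
    have h2 : 0 ≤ W ^ 3 * |(Dl n m : ℝ)| := by positivity
    linarith only [h1, h2]
  · rw [hP.2.2.2.1 i]
    fin_cases i <;> simp only [det2, Fin.zero_eta, Fin.isValue, zero_add, Fin.reduceAdd, Prod.fst_mul, Prod.fst_swap, Prod.snd_mul, Prod.snd_swap, Fin.mk_one, Fin.reduceFinMk] <;> ring
  all_goals obtain ⟨σ, σ0, -, h1, h2, h3, h4, h5⟩ := hP.expl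
  · ext <;> simp only [Fin.isValue, zsmul_eq_mul, Fin.sum_univ_three, zero_add, Fin.reduceAdd, Prod.fst_add, Prod.fst_mul, Prod.fst_intCast, h3, Prod.fst_swap, h4, h5, Prod.fst_zero, Prod.snd_add, Prod.snd_mul, Prod.snd_intCast, Prod.snd_swap, Prod.snd_zero] <;> ring
  · ext <;> simp only [E1, Fin.isValue, zsmul_eq_mul, Fin.sum_univ_three, Matrix.cons_val_zero, Int.cast_mul, zero_add, Matrix.cons_val_one, Fin.reduceAdd, Matrix.cons_val, Int.cast_pow, Prod.fst_add, Prod.fst_mul, Prod.fst_intCast, h1, h2, h4, Prod.fst_swap, h5, Prod.pow_fst, h3, Dl, Int.cast_sub, Prod.fst_sub, Prod.snd_add, Prod.snd_mul, Prod.snd_intCast, Prod.snd_swap, Prod.pow_snd, Prod.snd_sub] <;> ring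
  · ext <;> simp only [E2, Fin.isValue, zsmul_eq_mul, Fin.sum_univ_three, Matrix.cons_val_zero, Int.cast_mul, zero_add, Matrix.cons_val_one, Fin.reduceAdd, Matrix.cons_val, Int.cast_pow, Prod.fst_add, Prod.fst_mul, Prod.fst_intCast, h1, h5, Prod.fst_swap, h2, h3, Prod.pow_fst, h4, Dl, Int.cast_sub, Prod.fst_sub, Prod.snd_add, Prod.snd_mul, Prod.snd_intCast, Prod.snd_swap, Prod.pow_snd, Prod.snd_sub] <;> ring

end Pool.Agent.MP_d0fd9b_nt.S64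

end

section
namespace Pool.Agent.MP_d0fd9b_nt.S64

open Finset S72 H72

lemma b2_br {W t P y D : ℝ} (hW : 0 < W) (ht : 1 ≤ t) (hP : 0 < P) (hy : 0 < y) (hD : 0 < D)
    (h1 : P ^ 3 ≤ 4 * 10 ^ 12 * W ^ 3 * D) (h2 : P ≤ 24 * W * y) (h3 : P ^ 2 ≤ 3456 * W ^ 3) :
    1 + 6 * (80000 * t * P) ^ 2 / W / (D * (y / 2)) + (6 * (80000 * t * P) ^ 2 / W) ^ 2 / (D ^ 2 * W) ≤
      10 ^ 47 * t ^ 4 * (W ^ 3 / P ^ 2) := by
  have a1 : 6 * (80000 * t * P) ^ 2 / W / D ≤ 2 * 10 ^ 23 * t ^ 2 * (W ^ 2 / P) := by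
    rw [div_div, ← mul_div_assoc, div_le_div_iff₀ (by positivity) hP]
    linarith only [mul_le_mul_of_nonneg_left h1 (show 0 ≤ t ^ 2 by positivity), show 0 ≤ t ^ 2 * W ^ 3 * D by positivity]
  have a2 : 1 ≤ 3456 * (W ^ 3 / P ^ 2) := by
    rw [← mul_div_assoc, le_div_iff₀ (by positivity)]; linarith only [h3]
  have a3 : W ^ 2 / P / y ≤ 24 * (W ^ 3 / P ^ 2) := by
    rw [div_div, ← mul_div_assoc, div_le_div_iff₀ (by positivity) (by positivity)]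
    linarith only [mul_le_mul_of_nonneg_left h2 (show 0 ≤ W ^ 2 * P by positivity)]
  have a4 : 6 * (80000 * t * P) ^ 2 / W / (D * (y / 2)) ≤ 2 * (2 * 10 ^ 23 * t ^ 2) * (W ^ 2 / P / y) :=
    calc _ = 6 * (80000 * t * P) ^ 2 / W / D * (2 / y) := by field_simp
      _ ≤ 2 * 10 ^ 23 * t ^ 2 * (W ^ 2 / P) * (2 / y) := by gcongr
      _ = _ := by ring
  have a5 : (6 * (80000 * t * P) ^ 2 / W) ^ 2 / (D ^ 2 * W) ≤ 4 * 10 ^ 46 * t ^ 4 * (W ^ 3 / P ^ 2) :=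
    calc _ = (6 * (80000 * t * P) ^ 2 / W / D) ^ 2 / W := by field_simp
      _ ≤ (2 * 10 ^ 23 * t ^ 2 * (W ^ 2 / P)) ^ 2 / W := by gcongr
      _ = _ := by field_simp; ring
  have a6 : 0 < W ^ 3 / P ^ 2 := by positivity
  have t2 : t ^ 2 ≤ t ^ 4 := pow_le_pow_right₀ ht (by norm_num)
  have t4 : 1 ≤ t ^ 4 := one_le_pow₀ ht
  generalize W ^ 3 / P ^ 2 = x at *
  linarith only [mul_le_mul_of_nonneg_left a3 (show 0 ≤ t ^ 2 by positivity), mul_le_mul_of_nonneg_right t2 a6.le, mul_le_mul_of_nonneg_right t4 a6.le, a4, a2, a5]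

theorem box_count : ∃ C : ℝ, 0 ≤ C ∧ ∀ (W t : ℝ) (y : Fin 3 → ℝ), 1 ≤ W → 1 ≤ t → (∀ i, 0 < y i) →
    ∀ S : Finset (((Fin 3 → ℤ) × ℤ) × (Fin 3 → ℤ)),
    (∀ k ∈ S, ∃ Y, Tup W k.1.1 k.1.2 k.2 Y ∧ (∀ i, y i ≤ Y i ∧ Y i ≤ 2 * y i) ∧
      t ≤ tau (Int.gcd (k.1.1 0) (k.1.1 1)) ^ 4 ∧ tau (Int.gcd (k.1.1 0) (k.1.1 1)) ^ 4 ≤ 2 * t) →
    (#S : ℝ) ≤ C * (y 0 * (y 1 * y 2) ^ 2 / (t * √W)) := by
  classical
  obtain ⟨C, C0, hC⟩ := main_sum 52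
  refine ⟨C * (10 ^ 107 * 160000 ^ 4 * 1000), by positivity, fun W t y hW ht hy S hS => ?_⟩
  have y0 := hy 0
  have y1 := hy 1
  have y2 := hy 2
  have W0 : 0 < W := by linarith
  rcases S.eq_empty_or_nonempty with rfl | ⟨k₀, hk₀⟩
  · simp only [card_empty, Nat.cast_zero]; positivity
  obtain ⟨Y, ⟨-, a0, a1, a2, a3, -⟩, hY, -⟩ := hS k₀ hk₀
  have b0 := hY 0
  have b1 := hY 1
  have b2 := hY 2
  have r1 : y 0 ≤ 2 * y 1 := by linarith only [b0.1, b1.2, a1]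
  have r2 : y 0 ≤ 4 * y 2 := by linarith only [b0.1, b2.2, a1, a2]
  have r3 : y 1 * y 2 ≤ 12 * W := (mul_le_mul b1.1 b2.1 y2.le (by linarith only [a0, a1])).trans a3
  have r4 : y 0 ^ 2 ≤ 24 * W := by nlinarith only [b0.1, y0, a1, a2, a3]
  have hb := fun k (hk : k ∈ S) => (hS k hk).imp fun Y h => And.intro h (box h.1 W0 h.2.1 h.2.2.2 ht)
  obtain ⟨c, q, B, hA, hs⟩ := hC (2 * (80000 * t * (y 0 * y 1 * y 2)) / W) (2 * y 0 ^ 3 / W)
    (fun i => 2 * ![2 * y 0, 2 * y 1, 20000 * t * y 2] i ^ 3 / W) (by positivity) (fun i => by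
      gcongr
      fin_cases i <;> simp only [Fin.isValue, Nat.succ_eq_add_one, Nat.reduceAdd, Fin.zero_eta, Matrix.cons_val_zero, Fin.mk_one, Matrix.cons_val_one, Fin.reduceFinMk, Matrix.cons_val] <;> nlinarith only [y0, a1, b0, b1, ht, a2, b2]) (by positivity) (le_of_eq (by simp only [Nat.succ_eq_add_one, Nat.reduceAdd, Fin.isValue, Matrix.cons_val_zero, Matrix.cons_val_one, Matrix.cons_val]; field_simp; ring))
    (S.image Prod.fst) fun k hk => by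
      obtain ⟨x, hx, rfl⟩ := mem_image.1 hk
      obtain ⟨Y, h1, h2, h3, -⟩ := hb x hx
      exact ⟨fun i => ⟨h1.1.1.1 i, h2 i⟩, h1.1.1.2.1, h3, h1.1.1.2.2.1⟩
  have P0 : 0 < y 0 * y 1 * y 2 := by positivity
  have fib : ∀ k ∈ S.image Prod.fst, (#(S.filter fun x => x.1 = k) : ℝ) ≤
      10 ^ 107 * (W ^ 3 / (y 0 * y 1 * y 2) ^ 2) / t ^ 6 * cost 52 k.1 (c k) (q k) (B k) := fun k hk => by
    obtain ⟨x, hx, rfl⟩ := mem_image.1 hk
    obtain ⟨Y, ⟨h1, -, h0, -⟩, -, -, h4, -⟩ := hb x hx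
    have D0 : 0 < |(Dl x.1.1 x.1.2 : ℝ)| := abs_pos.2 (by exact_mod_cast h1.1.2.2.1)
    have f := fibre2 (half_pos y1) W0 (hA _ hk) ((S.filter fun z => z.1 = x.1).image Prod.snd) fun p hp => by
      obtain ⟨z, hz, rfl⟩ := mem_image.1 hp
      obtain ⟨z1, z2⟩ := mem_filter.1 hz
      obtain ⟨Y, g1, -, -, -, g2⟩ := hb z z1
      exact z2 ▸ And.intro g1.1.1 g2
    rw [card_image_of_injOn fun z hz z' hz' h => Prod.ext
      ((mem_filter.1 hz).2.trans (mem_filter.1 hz').2.symm) h, abs_of_pos (a := _ * t ^ 3) (by positivity),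
      abs_of_pos (a := _ / W) (by positivity), ← sq_abs ((Dl x.1.1 x.1.2 : ℤ) : ℝ)] at f
    have r5 := mul_le_mul r4 (pow_le_pow_left₀ (by positivity) r3 2) (by positivity) (by positivity)
    have r6 := mul_le_mul r1 r3 (by positivity) (by positivity)
    have br := b2_br W0 ht P0 y1 D0 h4 (by linarith only [r6]) (by linarith only [r5])
    obtain ⟨e1, -⟩ := hA _ hk
    have n0 : c x.1 * q x.1 * B x.1 ≠ 0 := e1 ▸ Int.natAbs_ne_zero.2 h1.1.2.2.1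
    have q1 := one_le_mul_of_one_le_of_one_le (one_le_tau (right_ne_zero_of_mul (left_ne_zero_of_mul n0)))
      (one_le_tau (right_ne_zero_of_mul n0))
    have q2 : t ^ 13 * (tau (q x.1) * tau (B x.1)) ^ 19 ≤
        (tau (Int.gcd (x.1.1 0) (x.1.1 1)) * tau (q x.1) * tau (B x.1)) ^ 52 := by
      rw [mul_assoc, mul_pow _ _ 52, show 52 = 4 * 13 from rfl, pow_mul]
      exact mul_le_mul (pow_le_pow_left₀ (by linarith only [ht]) h0 13) (pow_le_pow_right₀ q1 (by norm_num))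
        (by positivity) (by have := tau_nonneg (Int.gcd (x.1.1 0) (x.1.1 1)); positivity)
    refine f.trans ?_
    unfold cost
    calc _ ≤ 10 ^ 35 * (10 ^ 25 * t ^ 3) * (10 ^ 47 * t ^ 4 * (W ^ 3 / (y 0 * y 1 * y 2) ^ 2)) *
          ((tau (q x.1) * tau (B x.1)) ^ 19 * Rt (c x.1) (x.1.1 0) (x.1.1 1) * (B x.1 : ℝ) ^ (5 / 6 : ℝ)) := by
          gcongr
      _ = 10 ^ 107 * (W ^ 3 / (y 0 * y 1 * y 2) ^ 2) / t ^ 6 * (t ^ 13 * (tau (q x.1) * tau (B x.1)) ^ 19 *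
          Rt (c x.1) (x.1.1 0) (x.1.1 1) * (B x.1 : ℝ) ^ (5 / 6 : ℝ)) := by field_simp
      _ ≤ _ := by gcongr
  have hsq : √(2 * (80000 * t * (y 0 * y 1 * y 2)) / W / (2 * y 0 ^ 3 / W)) ≤ 1000 * t * √W / y 0 := by
    refine Real.sqrt_le_iff.2 ⟨by positivity, ?_⟩
    rw [div_pow, mul_pow, Real.sq_sqrt W0.le, div_div_div_cancel_right₀ W0.ne',
      div_le_div_iff₀ (by positivity) (by positivity)]
    linarith only [mul_le_mul_of_nonneg_left r3 (show 0 ≤ t * y 0 ^ 3 by positivity), mul_le_mul_of_nonneg_left ht (show 0 ≤ t * W * y 0 ^ 3 by positivity), show 0 ≤ t ^ 2 * W * y 0 ^ 3 by positivity]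
  rw [card_eq_sum_card_image Prod.fst S, Nat.cast_sum]
  refine (sum_le_sum fib).trans ?_
  rw [← mul_sum]
  have s0 : 0 < √W := Real.sqrt_pos.2 W0
  have s1 := Real.sq_sqrt W0.le
  generalize √W = s at *
  subst s1
  calc _ ≤ 10 ^ 107 * ((s ^ 2) ^ 3 / (y 0 * y 1 * y 2) ^ 2) / t ^ 6 *
        (C * (2 * (80000 * t * (y 0 * y 1 * y 2)) / s ^ 2) ^ 4 * (1000 * t * s / y 0)) := by
        gcongr
        exact hs.trans (mul_le_mul_of_nonneg_left hsq (by positivity))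
    _ = _ := by field_simp; ring

end Pool.Agent.MP_d0fd9b_nt.S64

end

section
namespace Pool.Agent.MP_d0fd9b_nt.S64

open Finset S72 H72

lemma b3_geo (X : ℝ) (N : ℕ) : ∀ c : ℝ, 0 ≤ c →
    ∑ e ∈ range N, (if c * 2 ^ e ≤ X then c * 2 ^ e else 0) ≤ max 0 (2 * X - c) := by
  induction N with
  | zero => intro c _; simp only [range_zero, sum_empty, le_sup_left]
  | succ N ih =>
    intro c hc
    rw [sum_range_succ']
    have h1 := ih (2 * c) (by positivity)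
    have h2 : ∀ e : ℕ, c * 2 ^ (e + 1) = 2 * c * 2 ^ e := fun e => by ring
    simp only [h2, pow_zero, mul_one]
    split_ifs with h
    · rw [max_eq_right (by linarith)] at h1
      exact le_max_of_le_right (by linarith)
    · rw [max_eq_left (by linarith)] at h1
      exact le_max_of_le_left (by linarith)

lemma b3_geo' {X : ℝ} (hX : 0 ≤ X) (N : ℕ) {c : ℝ} (hc : 0 ≤ c) :
    ∑ e ∈ range N, (if c * 2 ^ e ≤ X then c * 2 ^ e else 0) ≤ 2 * X :=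
  (b3_geo X N c hc).trans (max_le (by positivity) (by linarith))

lemma b3_sq {X : ℝ} (hX : 0 ≤ X) (N : ℕ) {c : ℝ} (hc : 0 ≤ c) :
    ∑ e ∈ range N, (if c * 2 ^ e ≤ X then (c * 2 ^ e) ^ 2 else 0) ≤ 2 * X ^ 2 := by
  have h := mul_le_mul_of_nonneg_left (b3_geo' hX N hc) hX
  rw [mul_sum] at h
  refine le_trans (sum_le_sum fun e _ => ?_) (h.trans (le_of_eq (by ring)))
  split_ifs with h1
  · rw [pow_two]
    exact mul_le_mul_of_nonneg_right h1 (by positivity)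
  · simp

lemma b3_log {x : ℝ} (hx : 1 ≤ x) :
    (2 : ℝ) ^ Nat.log 2 ⌊x⌋₊ ≤ x ∧ x ≤ 2 * 2 ^ Nat.log 2 ⌊x⌋₊ := by
  have h0 : ⌊x⌋₊ ≠ 0 := (Nat.floor_pos.2 hx).ne'
  constructor
  · have : (2 : ℝ) ^ Nat.log 2 ⌊x⌋₊ ≤ ⌊x⌋₊ := by exact_mod_cast Nat.pow_log_le_self 2 h0
    exact this.trans (Nat.floor_le (by linarith))
  · have h1 : ⌊x⌋₊ + 1 ≤ 2 ^ (Nat.log 2 ⌊x⌋₊ + 1) := Nat.lt_pow_succ_log_self one_lt_two _
    have h2 : (⌊x⌋₊ : ℝ) + 1 ≤ 2 ^ (Nat.log 2 ⌊x⌋₊ + 1) := by exact_mod_cast h1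
    rw [pow_succ, mul_comm] at h2
    exact (Nat.lt_floor_add_one x).le.trans h2

theorem count2 : ∃ C : ℝ, 0 ≤ C ∧ ∀ W : ℝ, 1 ≤ W →
    ∀ S : Finset (((Fin 3 → ℤ) × ℤ) × (Fin 3 → ℤ)), (∀ k ∈ S, ∃ Y, Tup W k.1.1 k.1.2 k.2 Y) →
    (#S : ℝ) ≤ C * W ^ 2 := by
  classical
  obtain ⟨C, hC, hbox⟩ := box_count
  refine ⟨23040 * C, by positivity, fun W hW S hS => ?_⟩
  choose! Y hY using hS
  have hW0 : 0 < W := by linarith
  have hs0 : 0 < √W := Real.sqrt_pos.2 hW0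
  let lab : ((Fin 3 → ℤ) × ℤ) × (Fin 3 → ℤ) → ℕ × ℕ × ℕ × ℕ := fun k =>
    (Nat.log 2 ⌊tau (Int.gcd (k.1.1 0) (k.1.1 1)) ^ 4⌋₊, Nat.log 2 ⌊Y k 1⌋₊, Nat.log 2 ⌊Y k 0⌋₊,
      Nat.log 2 ⌊2 * Y k 2⌋₊)
  obtain ⟨N, hN⟩ : ∃ N : ℕ, ∀ k ∈ S, lab k ∈ range N ×ˢ range N ×ˢ range N ×ˢ range N := by
    refine ⟨S.sup (fun k => (lab k).1 + (lab k).2.1 + (lab k).2.2.1 + (lab k).2.2.2) + 1,
      fun k hk => ?_⟩
    have := le_sup (f := fun k => (lab k).1 + (lab k).2.1 + (lab k).2.2.1 + (lab k).2.2.2) hk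
    simp only [mem_product, mem_range] at this ⊢
    omega
  have hfib : ∀ e : ℕ × ℕ × ℕ × ℕ, (#(S.filter fun k => lab k = e) : ℝ) ≤
      C / √W * (1 / 2) ^ e.1 * (if (1 : ℝ) * 2 ^ e.2.1 ≤ 5 * √W then
        (if (1 : ℝ) * 2 ^ e.2.2.1 ≤ 2 * 2 ^ e.2.1 then (1 : ℝ) * 2 ^ e.2.2.1 else 0) *
        (if (2 : ℝ) ^ e.2.1 / 2 * 2 ^ e.2.2.2 ≤ 12 * W then
          ((2 : ℝ) ^ e.2.1 / 2 * 2 ^ e.2.2.2) ^ 2 else 0) else 0) := by
    rintro ⟨e3, e1, e0, e2⟩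
    have hk : ∀ k ∈ S.filter fun k => lab k = (e3, e1, e0, e2),
        Tup W k.1.1 k.1.2 k.2 (Y k) ∧ ((2 : ℝ) ^ e0 ≤ Y k 0 ∧ Y k 0 ≤ 2 * 2 ^ e0) ∧
        ((2 : ℝ) ^ e1 ≤ Y k 1 ∧ Y k 1 ≤ 2 * 2 ^ e1) ∧
        ((2 : ℝ) ^ e2 ≤ 2 * Y k 2 ∧ 2 * Y k 2 ≤ 2 * 2 ^ e2) ∧
        (2 : ℝ) ^ e3 ≤ tau (Int.gcd (k.1.1 0) (k.1.1 1)) ^ 4 ∧
          tau (Int.gcd (k.1.1 0) (k.1.1 1)) ^ 4 ≤ 2 * 2 ^ e3 := by
      intro k hk
      obtain ⟨hk, he⟩ := mem_filter.1 hk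
      have h := hY k hk
      simp only [lab, Prod.mk.injEq] at he
      obtain ⟨rfl, rfl, rfl, rfl⟩ := he
      have a0 := h.2.1
      have a1 := h.2.2.1
      have a2 := h.2.2.2.1
      exact ⟨h, b3_log a0, b3_log (by linarith), b3_log (by linarith),
        b3_log (one_le_pow₀ (one_le_tau fun h0 => h.1.1 0 (Int.gcd_eq_zero_iff.1 h0).1))⟩
    rcases (S.filter fun k => lab k = (e3, e1, e0, e2)).eq_empty_or_nonempty with h | ⟨k, hk0⟩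
    · rw [h, card_empty, Nat.cast_zero]
      refine mul_nonneg (by positivity) ?_
      split_ifs <;> positivity
    obtain ⟨h, b0, b1, b2, -⟩ := hk k hk0
    have a0 := h.2.1
    have a1 := h.2.2.1
    have a2 := h.2.2.2.1
    have a3 := h.2.2.2.2.1
    have p1 : (0 : ℝ) < 2 ^ e1 := by positivity
    have p2 : (0 : ℝ) < 2 ^ e2 := by positivity
    have c1 : (1 : ℝ) * 2 ^ e1 ≤ 5 * √W := by
      refine le_of_sq_le_sq ?_ (by positivity)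
      rw [mul_pow, mul_pow, Real.sq_sqrt hW0.le]
      have : (2 : ℝ) ^ e1 * 2 ^ e1 ≤ Y k 1 * (2 * Y k 2) :=
        mul_le_mul b1.1 (b1.1.trans a2) p1.le (by linarith only [a0, a1])
      linarith only [hW, a3, this]
    have c2 : (1 : ℝ) * 2 ^ e0 ≤ 2 * 2 ^ e1 := by linarith only [b0.1, b1.2, a1]
    have c3 : (2 : ℝ) ^ e1 / 2 * 2 ^ e2 ≤ 12 * W := by
      have : (2 : ℝ) ^ e1 * 2 ^ e2 ≤ Y k 1 * (2 * Y k 2) :=
        mul_le_mul b1.1 b2.1 p2.le (by linarith only [a0, a1])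
      linarith only [a3, this]
    simp only [c1, c2, c3, if_true]
    refine (hbox W (2 ^ e3) ![2 ^ e0, 2 ^ e1, 2 ^ e2 / 2] hW (one_le_pow₀ one_le_two) ?_ _ ?_).trans
      (le_of_eq ?_)
    · intro i
      fin_cases i <;> simp
    · intro k hk'
      obtain ⟨h, b0, b1, b2, b3⟩ := hk k hk'
      refine ⟨Y k, h, fun i => ?_, b3⟩
      fin_cases i
      · exact b0
      · exact b1
      · exact ⟨by show (2 : ℝ) ^ e2 / 2 ≤ Y k 2; linarith only [b2.1],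
          by show Y k 2 ≤ 2 * ((2 : ℝ) ^ e2 / 2); linarith only [b2.2]⟩
    · show C * (2 ^ e0 * (2 ^ e1 * (2 ^ e2 / 2)) ^ 2 / (2 ^ e3 * √W)) = _
      rw [one_div, inv_pow]
      field_simp
  rw [card_eq_sum_card_fiberwise hN, Nat.cast_sum]
  refine (sum_le_sum fun e _ => hfib e).trans ?_
  simp only [sum_product]
  have h1 : ∀ e1 : ℕ, ∑ e0 ∈ range N, ∑ e2 ∈ range N, (if (1 : ℝ) * 2 ^ e1 ≤ 5 * √W then
        (if (1 : ℝ) * 2 ^ e0 ≤ 2 * 2 ^ e1 then (1 : ℝ) * 2 ^ e0 else 0) *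
        (if (2 : ℝ) ^ e1 / 2 * 2 ^ e2 ≤ 12 * W then
          ((2 : ℝ) ^ e1 / 2 * 2 ^ e2) ^ 2 else 0) else 0) ≤
      (if (1 : ℝ) * 2 ^ e1 ≤ 5 * √W then (1 : ℝ) * 2 ^ e1 else 0) * (1152 * W ^ 2) := by
    intro e1
    split_ifs with h
    · rw [← sum_mul_sum]
      refine (mul_le_mul (b3_geo' (by positivity) N zero_le_one) (b3_sq (by positivity) N
        (by positivity)) (sum_nonneg fun e _ => by split_ifs <;> positivity)
        (by positivity)).trans (le_of_eq (by ring))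
    · simp
  have h2 : ∑ e1 ∈ range N, ∑ e0 ∈ range N, ∑ e2 ∈ range N, (if (1 : ℝ) * 2 ^ e1 ≤ 5 * √W then
        (if (1 : ℝ) * 2 ^ e0 ≤ 2 * 2 ^ e1 then (1 : ℝ) * 2 ^ e0 else 0) *
        (if (2 : ℝ) ^ e1 / 2 * 2 ^ e2 ≤ 12 * W then
          ((2 : ℝ) ^ e1 / 2 * 2 ^ e2) ^ 2 else 0) else 0) ≤ 2 * (5 * √W) * (1152 * W ^ 2) := by
    refine (sum_le_sum fun e1 _ => h1 e1).trans ?_
    rw [← sum_mul]
    exact mul_le_mul_of_nonneg_right (b3_geo' (by positivity) N zero_le_one) (by positivity)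
  simp only [← mul_sum]
  rw [← sum_mul, ← mul_sum]
  refine (mul_le_mul (mul_le_mul_of_nonneg_left (sum_geometric_two_le N) (by positivity)) h2
    (sum_nonneg fun _ _ => sum_nonneg fun _ _ => sum_nonneg fun _ _ => by
      split_ifs <;> positivity) (by positivity)).trans (le_of_eq ?_)
  field_simp
  ring

end Pool.Agent.MP_d0fd9b_nt.S64

end

section
namespace Pool.Agent.MP_d0fd9b_nt.S64

open Finset S72 H72

lemma b4_shell : ∃ C : ℝ, 0 ≤ C ∧ ∀ W : ℝ, 1 ≤ W → ∀ F : Finset ℤ,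
    (∀ d ∈ F, Squarefree d ∧ d ≠ 1 ∧ W ^ 2 ≤ |(d : ℝ)| ∧ |(d : ℝ)| ≤ 4 * W ^ 2) →
    ∑ d ∈ F, (torsion 3 d : ℝ) ^ 2 ≤ C * W ^ 2 := by
  classical
  obtain ⟨C, C0, hC⟩ := count2
  refine ⟨162 * C + 81 * 9, by positivity, fun W hW F hF => ?_⟩
  choose! S h1 h2 using fun d (hd : d ∈ F) =>
    tuples2 (hF d hd).1 (hF d hd).2.1 (by linarith) (hF d hd).2.2.1 (hF d hd).2.2.2
  have key : ∀ d ∈ F, ∀ d' ∈ F, ∀ k ∈ S d, k ∈ S d' → d = d' := fun d hd d' hd' k hk hk' => by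
    obtain ⟨⟨Y, gd⟩, s, X, a, u, u0, s1, par⟩ := h2 d hd k hk
    obtain ⟨-, s', X', a', u', u0', s1', par'⟩ := h2 d' hd' k hk'
    have := (par.scale par' gd.1.2.2.1 (gd.1.1 0) one_ne_zero (P' := 1) fun _ => rfl).1
    rw [s1, s1'] at this
    refine sqf_eq (u := u) (v := u') (hF d hd).1 (hF d' hd').1 u0 (Int.cast_injective (α := ℂ) ?_)
    push_cast at this ⊢
    linear_combination -this
  have c1 := hC W hW (F.biUnion S) fun k hk => by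
    obtain ⟨d, hd, hk⟩ := mem_biUnion.1 hk
    exact (h2 d hd k hk).1
  rw [card_biUnion fun d hd d' hd' n => disjoint_left.2 fun k hk hk' => n (key d hd d' hd' k hk hk')] at c1
  have c2 : (#F : ℝ) ≤ 9 * W ^ 2 := by
    have : F ⊆ Icc (-⌊4 * W ^ 2⌋) ⌊4 * W ^ 2⌋ := fun d hd =>
      mem_Icc.2 (abs_le.1 (Int.le_floor.2 (by exact_mod_cast (hF d hd).2.2.2)))
    have h3 := card_le_card this
    have h4 : 0 ≤ ⌊4 * W ^ 2⌋ := Int.floor_nonneg.2 (by positivity)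
    have h5 : (#F : ℤ) ≤ 2 * ⌊4 * W ^ 2⌋ + 1 := by rw [Int.card_Icc] at h3; omega
    have h6 : (#F : ℝ) ≤ 2 * (⌊4 * W ^ 2⌋ : ℤ) + 1 := by exact_mod_cast h5
    nlinarith only [Int.floor_le (4 * W ^ 2), hW, h6]
  calc _ ≤ ∑ d ∈ F, (162 * (#(S d) : ℝ) + 81) := sum_le_sum fun d hd => by exact_mod_cast h1 d hd
    _ = 162 * ((∑ d ∈ F, #(S d) : ℕ) : ℝ) + 81 * #F := by
      rw [sum_add_distrib, ← mul_sum, sum_const, nsmul_eq_mul, mul_comm _ (81 : ℝ)]; push_cast; rfl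
    _ ≤ _ := by linarith only [c1, c2]

open Classical in
theorem second2 : ∃ C : ℝ, 0 ≤ C ∧ ∀ N : ℕ, 1 ≤ N →
    ∑ d ∈ (Icc (-(N : ℤ)) N).filter (fun d => Squarefree d ∧ d ≠ 1), (torsion 3 d : ℝ) ^ 2 ≤
      C * N := by
  obtain ⟨C, C0, hC⟩ := b4_shell
  refine ⟨C * 2, by positivity, fun N hN => ?_⟩
  set F := (Icc (-(N : ℤ)) N).filter (fun d => Squarefree d ∧ d ≠ 1)
  rw [← sum_fiberwise_of_maps_to (s := F) (t := range (Nat.log 4 N + 1)) (g := fun d => Nat.log 4 d.natAbs)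
    fun d hd => mem_range.2 (Nat.lt_succ_of_le (Nat.log_mono_right (by
      have := mem_Icc.1 (mem_filter.1 hd).1; omega)))]
  refine (sum_le_sum fun j _ => hC (2 ^ j) (one_le_pow₀ one_le_two) _ fun d hd => ?_).trans ?_
  · obtain ⟨d1, rfl⟩ := mem_filter.1 hd
    obtain ⟨-, d2, d3⟩ := mem_filter.1 d1
    have e : ((2 : ℝ) ^ Nat.log 4 d.natAbs) ^ 2 = 4 ^ Nat.log 4 d.natAbs := by
      rw [← pow_mul, mul_comm, pow_mul]; norm_num
    have a1 := Nat.pow_log_le_self 4 (Int.natAbs_ne_zero.2 d2.ne_zero)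
    have a2 := (Nat.lt_pow_succ_log_self (b := 4) (by norm_num) d.natAbs).le
    rw [e, ← Int.cast_abs, ← Nat.cast_natAbs, ← pow_succ']
    exact ⟨d2, d3, by exact_mod_cast a1, by exact_mod_cast a2⟩
  · rw [← mul_sum, mul_assoc]
    gcongr
    have a1 : ((4 : ℝ)) ^ Nat.log 4 N ≤ N := by exact_mod_cast Nat.pow_log_le_self 4 (by omega : N ≠ 0)
    refine le_trans ?_ (mul_le_mul_of_nonneg_left a1 zero_le_two)
    generalize Nat.log 4 N = k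
    induction k with
    | zero => simp
    | succ k ih =>
      rw [sum_range_succ, ← pow_mul, mul_comm (k + 1), pow_mul, pow_succ (4 : ℝ)]
      norm_num only [] at ih ⊢
      have : (0 : ℝ) < 4 ^ k := by positivity
      rw [pow_succ]; linarith only [ih, this]

end Pool.Agent.MP_d0fd9b_nt.S64

end

end
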