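import Pool.Agent.MP_d0fd9b_nt.S64.Defs
import Pool.Agent.MP_d0fd9b_nt.Mg.S64_Box

attribute [-instance] Fintype.decidableForallFintype IdemSemiring.toCanonicallyOrderedAdd
  AddQuantale.instAddLeftMono covariant_swap_mul_of_covariant_mul RKHS.instFunLike
  IdemSemiring.toMulLeftMono CompletePartialOrder.toPartialOrder IsOrderedMonoid.toMulLeftMono
  NumberField.to_charZero instCoeTOfCoeDep instCoeHTCTOfCoeHTC AddQuantale.instAddRightMono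
  Finset.decidableDforallFinset Quantale.instMulLeftMono Multiset.decidableDforallMultiset
  Vector.instDecidableForallForallMemOfDecidablePred littleWedderburn
  Array.instDecidableForallForallMemOfDecidablePred Int.decidableLTLE
  CanonicallyOrderedAdd.toMulLeftMono Quantale.instMulRightMono Option.decidableForallMem
  ValuationRing.instIsBezout TestFunctionClass.toDFunLike

-- part MP_d0fd9b_nt.S64.Many
section

/-! Many solutions with almost squarefree radicand. -/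

set_option autoImplicit false

section
namespace Pool.Agent.MP_d0fd9b_nt.S64

open Finset S72 H72

lemma p1_dvd {l : ℤ} (hl : Prime l) (s n : ℕ) (u v : ℤ) (h : l ^ (s + n) ∣ u * v) :
    l ^ (s + 1) ∣ u ∨ l ^ n ∣ v := by
  induction s generalizing u with
  | zero =>
    rw [zero_add] at h
    exact (Classical.em (l ∣ u)).imp (by simp) fun h' => hl.pow_dvd_of_dvd_mul_left n h' h
  | succ s ih =>
    by_cases h' : l ∣ u
    · obtain ⟨u, rfl⟩ := h'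
      rw [add_right_comm, pow_succ', mul_assoc, mul_dvd_mul_iff_left hl.ne_zero] at h
      exact (ih u h).imp_left fun h => pow_succ' l _ ▸ mul_dvd_mul_left l h
    · exact Or.inr ((pow_dvd_pow l (by omega)).trans (hl.pow_dvd_of_dvd_mul_left _ h' h))

open Classical in
lemma p1_one (a x0 : ℤ) {d : ℤ} (hd : ¬ 2 ∣ d) {r : ℕ} (hr : IsPrimePow r) (h8 : 128 < r) (L : ℕ) :
    (#{t ∈ range L | IsCoprime a (x0 + d * (t : ℕ)) ∧ d * r ^ 2 ∣ 4 * a ^ 3 - (x0 + d * (t : ℕ)) ^ 2} : ℝ) ≤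
      8 * L * ((r : ℝ) ^ 2)⁻¹ + 2 := by
  set T := {t ∈ range L | IsCoprime a (x0 + d * (t : ℕ)) ∧
    d * r ^ 2 ∣ 4 * a ^ 3 - (x0 + d * (t : ℕ)) ^ 2} with hT
  rcases T.eq_empty_or_nonempty with h | ⟨t0, h0⟩
  · rw [h, card_empty, Nat.cast_zero]
    positivity
  obtain ⟨l, i, hl, hi, rfl⟩ := (isPrimePow_nat_iff r).1 hr
  have hl' : Prime (l : ℤ) := Nat.prime_iff_prime_int.1 hl
  have d0 : d ≠ 0 := by
    rintro rfl
    exact hd (dvd_zero 2)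
  obtain ⟨-, c0, e0⟩ := mem_filter.1 h0
  set x := x0 + d * t0 with hx
  have e1 : (l : ℤ) ^ (2 * i) ∣ 4 * a ^ 3 - x ^ 2 := by
    rw [pow_mul']
    exact dvd_of_mul_left_dvd (by exact_mod_cast e0)
  obtain ⟨s, n, hs, hn, h4, hK, h2⟩ : ∃ s n : ℕ, s + n = 2 * i ∧ s + 1 ≤ n ∧ l ^ s ≤ 4 ∧
      ¬ (l : ℤ) ^ (s + 1) ∣ 2 * x ∧ ((l : ℤ) ∣ d → s = 0) := by
    by_cases h : l = 2
    · subst h
      have hi' : 7 < i := (Nat.pow_lt_pow_iff_right one_lt_two).1 h8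
      refine ⟨2, 2 * i - 2, by omega, by omega, by norm_num, fun h => ?_, fun h => (hd h).elim⟩
      obtain ⟨y, hy⟩ : (4 : ℤ) ∣ x := by
        push_cast at h
        omega
      obtain ⟨z, hz⟩ := (pow_dvd_pow _ (show 4 ≤ 2 * i by omega)).trans e1
      have h3 : (2 : ℤ) ∣ a ^ 3 := ⟨2 * (z + y ^ 2), by
        rw [hy] at hz
        push_cast at hz
        linarith only [hz]⟩
      exact Int.prime_two.not_isUnit (c0.isUnit_of_dvd' (Int.prime_two.dvd_of_dvd_pow h3)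
        ⟨2 * y, by linarith only [hy]⟩)
    · refine ⟨0, 2 * i, by omega, by omega, by norm_num, fun h' => ?_, fun _ => rfl⟩
      have h2 : ¬ (l : ℤ) ∣ 2 := fun h' =>
        h ((Nat.prime_dvd_prime_iff_eq hl Nat.prime_two).1 (by exact_mod_cast h'))
      have h3 : (l : ℤ) ∣ x := (hl'.dvd_or_dvd (by simpa only [zero_add, pow_one] using h')).resolve_left h2
      have h4 : (l : ℤ) ∣ 2 ^ 2 * a ^ 3 := by
        have := dvd_add ((dvd_pow_self _ (by omega)).trans e1) (dvd_pow h3 two_ne_zero)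
        rwa [show 4 * a ^ 3 - x ^ 2 + x ^ 2 = 2 ^ 2 * a ^ 3 by ring] at this
      exact hl'.not_isUnit (c0.isUnit_of_dvd' (hl'.dvd_of_dvd_pow
        ((hl'.dvd_or_dvd h4).resolve_left fun h => h2 (hl'.dvd_of_dvd_pow h))) h3)
  have key : ∀ t ∈ T, ((l ^ n : ℕ) : ℤ) ∣ -t0 + 1 * t ∨ ((l ^ n : ℕ) : ℤ) ∣ 2 * x - d * t0 + d * t := by
    intro t ht
    have e2 := dvd_sub e0 (mem_filter.1 ht).2.2
    rw [show 4 * a ^ 3 - x ^ 2 - (4 * a ^ 3 - (x0 + d * t) ^ 2) =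
      d * ((-t0 + 1 * t) * (2 * x - d * t0 + d * t)) by rw [hx]; ring, mul_dvd_mul_iff_left d0] at e2
    push_cast at e2 ⊢
    rw [← pow_mul', ← hs] at e2
    refine (p1_dvd hl' s n _ _ e2).elim (fun h => Or.inl ?_) Or.inr
    refine (p1_dvd hl' s n _ _ (mul_comm _ (_ : ℤ) ▸ e2)).resolve_left fun h' => hK ?_
    have := dvd_sub h' (h.mul_left d)
    rwa [show 2 * x - d * t0 + d * t - d * (-t0 + 1 * t) = 2 * x by ring] at this
  have hp : 0 < l ^ n := pow_pos hl.pos n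
  have c1 := t9_cnt hp (isCoprime_one_right (x := ((l ^ n : ℕ) : ℤ))) (-t0) L
  have c2 : #((range L).filter fun t : ℕ => ((l ^ n : ℕ) : ℤ) ∣ 2 * x - d * t0 + d * t) ≤ L / l ^ n + 1 := by
    by_cases h : (l : ℤ) ∣ d
    · rw [filter_false_of_mem, card_empty]
      · exact Nat.zero_le _
      intro t _ ht
      have h3 : (l : ℤ) ∣ 2 * x - d * t0 + d * t :=
        (dvd_pow_self _ (by omega)).trans (Nat.cast_pow (α := ℤ) l n ▸ ht)
      have := dvd_add (dvd_sub h3 (h.mul_right t)) (h.mul_right t0)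
      rw [show 2 * x - d * t0 + d * t - d * t + d * t0 = 2 * x by ring] at this
      exact hK (by simpa only [h2 h, zero_add, pow_one] using this)
    · refine t9_cnt hp ?_ _ L
      push_cast
      exact ((hl'.irreducible.coprime_iff_not_dvd).2 h).pow_left
  have c3 : #T ≤ L / l ^ n + 1 + (L / l ^ n + 1) :=
    (card_le_card fun t ht => mem_union.2 ((key t ht).imp
      (fun h => mem_filter.2 ⟨(mem_filter.1 ht).1, h⟩)
      fun h => mem_filter.2 ⟨(mem_filter.1 ht).1, h⟩)).trans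
      ((card_union_le _ _).trans (add_le_add c1 c2))
  have c4 : L / l ^ n * (l ^ i) ^ 2 ≤ 4 * L := by
    rw [← pow_mul', ← hs, pow_add, mul_left_comm]
    exact Nat.mul_le_mul h4 (Nat.div_mul_le_self _ _)
  have c5 : ((L / l ^ n : ℕ) : ℝ) ≤ 4 * L * (((l ^ i : ℕ) : ℝ) ^ 2)⁻¹ := by
    rw [← div_eq_mul_inv, le_div_iff₀ (by positivity)]
    exact_mod_cast c4
  have c6 : (#T : ℝ) ≤ (L / l ^ n : ℕ) + 1 + ((L / l ^ n : ℕ) + 1) := by exact_mod_cast c3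
  linarith only [c5, c6]

/-- a large prime power squared divides the quotient -/
def p1_bad (R : ℕ) (a d x : ℤ) : Prop :=
  ∃ r : ℕ, IsPrimePow r ∧ 128 < r ∧ r ≤ R ∧ d * r ^ 2 ∣ 4 * a ^ 3 - x ^ 2

open Classical in
lemma p1_row {L R : ℕ} (hR : 32 * R ≤ L) (a x0 : ℤ) {d : ℤ} (hd : ¬ 2 ∣ d) :
    8 * #{t ∈ range L | IsCoprime a (x0 + d * (t : ℕ)) ∧ p1_bad R a d (x0 + d * (t : ℕ))} ≤ L := by
  obtain ⟨P, hP⟩ : ∃ P : Finset ℕ, ∀ r, r ∈ P ↔ IsPrimePow r ∧ 128 < r ∧ r ≤ R :=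
    ⟨{r ∈ range (R + 1) | IsPrimePow r ∧ 128 < r}, fun r => by
      rw [mem_filter, mem_range, Nat.lt_succ_iff]
      tauto⟩
  have h1 : #{t ∈ range L | IsCoprime a (x0 + d * (t : ℕ)) ∧ p1_bad R a d (x0 + d * (t : ℕ))} ≤
      ∑ r ∈ P, #{t ∈ range L | IsCoprime a (x0 + d * (t : ℕ)) ∧
        d * r ^ 2 ∣ 4 * a ^ 3 - (x0 + d * (t : ℕ)) ^ 2} := by
    refine le_trans (card_le_card fun t ht => ?_) card_biUnion_le
    obtain ⟨h1, h2, r, r1, r2, r3, r4⟩ := mem_filter.1 ht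
    exact mem_biUnion.2 ⟨r, (hP r).2 ⟨r1, r2, r3⟩, mem_filter.2 ⟨h1, h2, r4⟩⟩
  have h3 : ∑ r ∈ P, ((r : ℝ) ^ 2)⁻¹ ≤ 1 / 128 := by
    obtain ⟨c, hc⟩ : ∃ c : ℕ, c = 128 := ⟨_, rfl⟩
    have h2 := sum_Ioc_inv_sq_le_sub (α := ℝ) (k := c) (n := R + c) (by omega) (by omega)
    refine (sum_le_sum_of_subset_of_nonneg (fun r hr => mem_Ioc.2 ?_)
      fun _ _ _ => by positivity).trans (h2.trans ?_)
    · have := (hP r).1 hr
      omega
    · have : (0 : ℝ) ≤ (((R + c : ℕ) : ℝ))⁻¹ := by positivity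
      have h4 : ((c : ℝ))⁻¹ = 1 / 128 := by
        rw [hc]
        norm_num
      linarith only [this, h4]
  have h4 : (#P : ℝ) ≤ R := by
    have : P ⊆ Icc 1 R := fun r hr => mem_Icc.2 (by
      have := (hP r).1 hr
      omega)
    exact_mod_cast (card_le_card this).trans (by simp only [Nat.card_Icc, add_tsub_cancel_right, Std.le_refl])
  have h5 := (Nat.cast_le (α := ℝ)).2 h1
  rw [Nat.cast_sum] at h5
  have h6 := h5.trans (sum_le_sum fun r hr =>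
    p1_one a x0 hd ((hP r).1 hr).1 ((hP r).1 hr).2.1 L)
  rw [sum_add_distrib, ← mul_sum, sum_const, nsmul_eq_mul] at h6
  have h7 := mul_le_mul_of_nonneg_left h3 (show (0 : ℝ) ≤ 8 * L by positivity)
  have h8 : (32 * R : ℝ) ≤ L := by exact_mod_cast hR
  rw [← Nat.cast_le (α := ℝ)]
  push_cast
  linarith only [h4, h6, h7, h8]

open Classical in
lemma p1_all (J : ℕ) {L R : ℕ} (hR : 32 * R ≤ L) (a x0 : ℕ → ℤ) {d : ℤ} (hd : ¬ 2 ∣ d) :
    8 * #{p ∈ {p ∈ range J ×ˢ range L | IsCoprime (a p.1) (x0 p.1 + d * p.2)} |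
      p1_bad R (a p.1) d (x0 p.1 + d * p.2)} ≤ J * L := by
  rw [filter_filter, card_filter, sum_product, mul_sum]
  refine (sum_le_card_nsmul _ _ L fun j _ => ?_).trans (by simp)
  rw [← card_filter]
  exact p1_row hR (a j) (x0 j) hd

theorem fix2 {m A J L R : ℕ} (m0 : m ≠ 0) (hm : m.Coprime 6) (hA : 3 * m * J ≤ A)
    (hJ : 8 * (Nat.log 2 (2 * A) + 2) ≤ J) (hL : 8 * (Nat.log 2 (2 * A) + 2) ≤ L) (hR : 32 * R ≤ L)
    (k : ℕ) (hk : k.Coprime m) :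
    ∃ S : Finset (ℤ × ℤ), J * L ≤ 8 * #S ∧ ∀ t ∈ S, ((A : ℤ) < t.1 ∧ t.1 ≤ 2 * A ∧ 0 ≤ t.2 ∧
      t.2 < 27 * m ^ 2 * L ∧ IsCoprime t.1 t.2 ∧ (27 * m ^ 2 : ℤ) ∣ 4 * t.1 ^ 3 - t.2 ^ 2 ∧
      ∀ r : ℕ, IsPrimePow r → 128 < r → r ≤ R → ¬ (27 * m ^ 2 * r ^ 2 : ℤ) ∣ 4 * t.1 ^ 3 - t.2 ^ 2) ∧
      (m : ℤ) ∣ t.1 - k ^ 2 ∧ (m : ℤ) ∣ t.2 - 2 * t.1 * k := by
  classical
  have m1 : (0 : ℤ) < m := by omega
  have c3 : IsCoprime (3 : ℤ) (m : ℤ) :=
    Nat.isCoprime_iff_coprime.2 (Nat.Coprime.coprime_dvd_right (by norm_num) hm).symm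
  have c27 : IsCoprime (27 : ℤ) ((m : ℤ) ^ 2) := by
    have := c3.pow (m := 3) (n := 2)
    rwa [show (3 : ℤ) ^ 3 = 27 by norm_num] at this
  obtain ⟨a0, a1, a2, a3, a4⟩ := t9_crt c3 (by positivity) 1 ((k : ℤ) ^ 2) (A + 1)
  have a5 : ∀ j : ℕ, (3 : ℤ) ∣ a0 + 3 * m * j - 1 := fun j => by
    rw [show a0 + 3 * m * j - 1 = a0 - 1 + 3 * (m * j) by ring]
    exact a3.add (dvd_mul_right _ _)
  have a6 : ∀ j : ℕ, (m : ℤ) ∣ a0 + 3 * m * j - k ^ 2 := fun j => by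
    rw [show a0 + 3 * m * j - k ^ 2 = a0 - k ^ 2 + m * (3 * j) by ring]
    exact a4.add (dvd_mul_right _ _)
  have a7 : ∀ j < J, (A : ℤ) < a0 + 3 * m * (j : ℕ) ∧ a0 + 3 * m * (j : ℕ) ≤ 2 * A := fun j hj => by
    have e1 : (0 : ℤ) ≤ 3 * m * j := by positivity
    have e2 : (3 * m * (j + 1) : ℤ) ≤ A := by
      exact_mod_cast (Nat.mul_le_mul_left (3 * m) (Nat.succ_le_of_lt hj)).trans hA
    constructor <;> linarith only [a1, e1, a2, e2]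
  choose x0 x1 x2 x3 x4 using fun j : ℕ => t9_crt c27 (by positivity) (1 - 3 * (a0 + 3 * m * j))
    (k * (3 * (a0 + 3 * m * j) - k ^ 2)) 0
  have core := t9_core (J := J) (L := L) (N := 2 * A) (3 * m) (27 * m ^ 2) a0 x0
    (fun l hl j hj => by
      have e3 : l ≠ 3 := by
        rintro rfl
        have := dvd_sub hj (a5 j)
        norm_num only [sub_sub_cancel] at this
      have em : ¬ l ∣ m := fun h => by
        have := dvd_sub hj ((Int.natCast_dvd_natCast.2 h).trans (a6 j))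
        rw [sub_sub_cancel] at this
        exact hl.one_lt.ne' (Nat.eq_one_of_dvd_coprimes hk
          (hl.dvd_of_dvd_pow (n := 2) (by exact_mod_cast this)) h)
      have f3 : IsCoprime (l : ℤ) (3 : ℤ) :=
        Nat.isCoprime_iff_coprime.2 ((Nat.coprime_primes hl Nat.prime_three).2 e3)
      have fm : IsCoprime (l : ℤ) (m : ℤ) :=
        Nat.isCoprime_iff_coprime.2 (hl.coprime_iff_not_dvd.2 em)
      refine ⟨e3, f3.mul_right fm, IsCoprime.mul_right ?_ fm.pow_right⟩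
      have := f3.pow_right (n := 3)
      rwa [show (3 : ℤ) ^ 3 = 27 by norm_num] at this)
    (fun j hj => by
      obtain ⟨e1, e2⟩ := a7 j hj
      push_cast
      constructor <;> omega) hJ hL
  refine ⟨image (fun p : ℕ × ℕ => (a0 + 3 * m * p.1, x0 p.1 + 27 * m ^ 2 * p.2))
    {p ∈ {p ∈ range J ×ˢ range L | IsCoprime (a0 + 3 * m * p.1) (x0 p.1 + 27 * m ^ 2 * p.2)} |
      ¬ p1_bad R (a0 + 3 * m * p.1) (27 * m ^ 2) (x0 p.1 + 27 * m ^ 2 * p.2)}, ?_, ?_⟩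
  · rw [card_image_of_injective]
    · have d2 : ¬ (2 : ℤ) ∣ 27 * m ^ 2 := fun h => by
        have h1 : 2 ∣ m := Nat.prime_two.dvd_of_dvd_pow (n := 2) (by
          have : 2 ∣ 27 * m ^ 2 := by exact_mod_cast h
          omega)
        have := Nat.eq_one_of_dvd_coprimes hm h1 (by norm_num)
        omega
      have b1 := card_filter_add_card_filter_not (s := {p ∈ range J ×ˢ range L |
        IsCoprime (a0 + 3 * m * p.1) (x0 p.1 + 27 * m ^ 2 * p.2)})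
        fun p => p1_bad R (a0 + 3 * m * p.1) (27 * m ^ 2) (x0 p.1 + 27 * m ^ 2 * p.2)
      have b2 := p1_all J hR (fun j => a0 + 3 * m * j) x0 d2
      omega
    · rintro ⟨j, t⟩ ⟨j', t'⟩ e
      simp only [Prod.mk.injEq] at e ⊢
      obtain ⟨e1, e2⟩ := e
      have e3 : j = j' := by
        have : (j : ℤ) = j' := mul_left_cancel₀ (a := 3 * (m : ℤ)) (by positivity) (by linarith only [e1])
        exact_mod_cast this
      subst e3
      have : (t : ℤ) = t' := mul_left_cancel₀ (a := 27 * (m : ℤ) ^ 2) (by positivity) (by linarith only [e2])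
      exact ⟨rfl, by exact_mod_cast this⟩
  · intro q hq
    obtain ⟨⟨j, t⟩, hp, rfl⟩ := mem_image.1 hq
    obtain ⟨h0, hb⟩ := mem_filter.1 hp
    obtain ⟨h1, h2⟩ := mem_filter.1 h0
    obtain ⟨h3, h4⟩ := mem_product.1 h1
    obtain ⟨e1, e2⟩ := a7 j (mem_range.1 h3)
    have y1 := x1 j
    have y2 := x2 j
    obtain ⟨w3, y3⟩ := x3 j
    obtain ⟨w4, y4⟩ := x4 j
    obtain ⟨w5, y5⟩ := a5 j
    obtain ⟨w6, y6⟩ := a6 j
    have e4 : (27 * m ^ 2 * (t + 1) : ℤ) ≤ 27 * m ^ 2 * L :=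
      mul_le_mul_of_nonneg_left (by exact_mod_cast mem_range.1 h4) (by positivity)
    have e5 : (0 : ℤ) ≤ 27 * m ^ 2 * t := by positivity
    simp only at h2 hb ⊢
    generalize a0 + 3 * (m : ℤ) * j = a at *
    generalize x0 j = x at *
    refine ⟨⟨e1, e2, by linarith only [e5, y1], by linarith only [e4, y2], h2, c27.mul_dvd ?_ ?_,
      fun r r1 r2 r3 r4 => hb ⟨r, r1, r2, r3, r4⟩⟩, ⟨w6, y6⟩, ?_⟩
    · have ea : a = 1 + 3 * w5 := by linarith only [y5]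
      have ex : x = 1 - 3 * a + 27 * w3 := by linarith only [y3]
      refine ⟨w5 ^ 2 * (1 + 4 * w5) - (w3 + m ^ 2 * t) * (2 * (1 - 3 * a) + 27 * (w3 + m ^ 2 * t)),
        ?_⟩
      rw [ex, ea]
      ring
    · have ea : a = k ^ 2 + m * w6 := by linarith only [y6]
      have ex : x = k * (3 * a - k ^ 2) + m ^ 2 * w4 := by linarith only [y4]
      refine ⟨(4 * a - k ^ 2) * w6 ^ 2 -
        (w4 + 27 * t) * (2 * (k * (3 * a - k ^ 2)) + m ^ 2 * (w4 + 27 * t)), ?_⟩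
      rw [ex, ea]
      ring
    · exact ⟨m * w4 + 27 * m * t + k * w6, by linear_combination y4 + k * y6⟩

end Pool.Agent.MP_d0fd9b_nt.S64

end

section
namespace Pool.Agent.MP_d0fd9b_nt.S64

open Finset S72 H72

lemma p2_log {M s : ℕ} (h : M < (s + 1) * (s + 1)) : Nat.log 2 (2 * M ^ 2) ≤ 4 * s + 5 := by
  have h1 : s + 1 ≤ 2 ^ (s + 1) := Nat.lt_two_pow_self.le
  have h2 : M ≤ 2 ^ (s + 1) * 2 ^ (s + 1) := h.le.trans (Nat.mul_le_mul h1 h1)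
  have h3 : 2 * M ^ 2 ≤ 2 ^ (4 * s + 5) := by
    calc 2 * M ^ 2 ≤ 2 * (2 ^ (s + 1) * 2 ^ (s + 1)) ^ 2 :=
          Nat.mul_le_mul_left _ (Nat.pow_le_pow_left h2 2)
      _ = 2 ^ (4 * s + 5) := by ring
  exact (Nat.log_mono_right h3).trans (Nat.log_pow one_lt_two _).le

lemma p2_cop (i : ℕ) : (6 * i + 1).Coprime 6 := by simp

lemma p2_inj {m k k' : ℕ} {a x : ℤ} (h6 : m.Coprime 6) (hk : k.Coprime m) (h1 : k < m) (h2 : k' < m)
    (e1 : (m : ℤ) ∣ a - k ^ 2) (e2 : (m : ℤ) ∣ x - 2 * a * k) (e3 : (m : ℤ) ∣ x - 2 * a * k') :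
    k = k' := by
  have e4 : (m : ℤ) ∣ 2 * a * ((k' : ℤ) - k) := by
    have := dvd_sub e2 e3
    rwa [show x - 2 * a * k - (x - 2 * a * k') = 2 * a * ((k' : ℤ) - k) by ring] at this
  have c2 : IsCoprime (m : ℤ) 2 :=
    Nat.isCoprime_iff_coprime.2 (Nat.Coprime.coprime_dvd_right (by norm_num : 2 ∣ 6) h6)
  have ck : IsCoprime (m : ℤ) ((k : ℤ) ^ 2) := (Nat.isCoprime_iff_coprime.2 hk.symm).pow_right
  have ca : IsCoprime (m : ℤ) a := by
    obtain ⟨w, hw⟩ := e1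
    rw [show a = (k : ℤ) ^ 2 + m * w by linarith only [hw]]
    exact ck.add_mul_left_right w
  exact Nat.ModEq.eq_of_lt_of_lt
    (Nat.modEq_iff_dvd.2 ((c2.mul_right ca).dvd_of_dvd_mul_left e4)) h1 h2

theorem many2 : ∃ c : ℝ, 0 < c ∧ ∀ᶠ M : ℕ in Filter.atTop, ∃ S : Finset (ℤ × ℤ × ℕ),
    c * (M : ℝ) ^ 4 ≤ #S ∧ ∀ t ∈ S, (M : ℤ) ^ 2 < t.1 ∧ t.1 ≤ 2 * M ^ 2 ∧ 0 ≤ t.2.1 ∧ t.2.1 ≤ M ^ 3 ∧
      IsCoprime t.1 t.2.1 ∧ M ≤ t.2.2 ∧ t.2.2 ≤ 2 * M ∧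
      (27 * t.2.2 ^ 2 : ℤ) ∣ 4 * t.1 ^ 3 - t.2.1 ^ 2 ∧ ∀ r : ℕ, IsPrimePow r → 128 < r → r ^ 2 ≤ M →
        ¬ (27 * t.2.2 ^ 2 * r ^ 2 : ℤ) ∣ 4 * t.1 ^ 3 - t.2.1 ^ 2 := by
  classical
  refine ⟨1 / (32 * 216 ^ 3), by norm_num, Filter.eventually_atTop.2 ⟨16000000, fun M hM => ?_⟩⟩
  obtain ⟨s, hs⟩ : ∃ s, s = Nat.sqrt M := ⟨_, rfl⟩
  have s1 : s * s ≤ M := hs ▸ Nat.sqrt_le M
  have s2 : M < (s + 1) * (s + 1) := hs ▸ Nat.lt_succ_sqrt M
  have s3 : 4000 ≤ s := hs ▸ Nat.le_sqrt.2 (by omega)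
  have s4 : 4000 * s ≤ s * s := Nat.mul_le_mul_right s s3
  obtain ⟨n, hn⟩ : ∃ n, n = M / 108 := ⟨_, rfl⟩
  have n1 : 108 * n ≤ M := by omega
  have n2 : M ≤ 216 * n := by omega
  have l1 := p2_log s2
  have l2 : Nat.log 2 (2 * M) ≤ 4 * s + 5 :=
    (Nat.log_mono_right (Nat.mul_le_mul_left 2 (Nat.le_self_pow two_ne_zero M))).trans l1
  obtain ⟨mm, hmm⟩ : ∃ mm : ℕ → ℕ, ∀ j, mm j = 6 * (M / 6 + 1 + j) + 1 := ⟨_, fun _ => rfl⟩
  have m1 : ∀ j, (mm j).Coprime 6 := fun j => hmm j ▸ p2_cop _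
  have m2 : ∀ j, M < mm j := fun j => by rw [hmm]; omega
  have m3 : ∀ j < n, mm j ≤ 2 * M := fun j hj => by rw [hmm]; omega
  have m4 : ∀ j : ℕ, ((6 * (M / 6 + 1) + 1 : ℕ) : ℤ) + 6 * j = mm j := fun j => by
    rw [hmm]; push_cast; ring
  have core := t9_core (J := n) (L := M) (N := 2 * M) 6 1 ((6 * (M / 6 + 1) + 1 : ℕ) : ℤ) (fun _ => 0)
    (fun l hl j hj => by
      rw [m4] at hj
      have h1 : l.Coprime 6 := Nat.Coprime.coprime_dvd_left (Int.natCast_dvd_natCast.1 hj) (m1 j)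
      refine ⟨?_, Nat.isCoprime_iff_coprime.2 h1, isCoprime_one_right⟩
      rintro rfl
      norm_num at h1)
    (fun j hj => by
      rw [m4]
      have := m2 j
      have := m3 j hj
      omega) (by omega) (by omega)
  simp only [m4, zero_add, one_mul, Nat.isCoprime_iff_coprime] at core
  obtain ⟨P, hP, hP'⟩ : ∃ P : Finset (ℕ × ℕ), n * M ≤ 4 * #P ∧
      ∀ p ∈ P, p.1 < n ∧ p.2 < M ∧ p.2.Coprime (mm p.1) := by
    refine ⟨_, core, fun p hp => ?_⟩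
    obtain ⟨h1, h2⟩ := mem_filter.1 hp
    exact ⟨mem_range.1 (mem_product.1 h1).1, mem_range.1 (mem_product.1 h1).2, h2.symm⟩
  have hA : ∀ p ∈ P, 3 * mm p.1 * n ≤ M ^ 2 := fun p hp => by
    have := m3 _ (hP' p hp).1
    nlinarith only [n1, this]
  choose! S h1 h2 using fun p (hp : p ∈ P) => fix2 (m := mm p.1) (A := M ^ 2) (J := n) (L := n) (R := s)
    (by have := m2 p.1; omega) (m1 _) (hA p hp) (by omega) (by omega) (by omega) p.2 (hP' p hp).2.2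
  refine ⟨P.biUnion fun p => (S p).image fun t => (t.1, t.2, mm p.1), ?_, fun t ht => ?_⟩
  · rw [card_biUnion]
    · have e1 : ∀ p ∈ P, n * n ≤ 8 * #((S p).image fun t => (t.1, t.2, mm p.1)) := fun p hp => by
        rw [card_image_of_injective]
        · exact h1 p hp
        · intro t t' e
          simp only [Prod.mk.injEq] at e
          exact Prod.ext e.1 e.2.1
      have e2 := card_nsmul_le_sum P _ _ e1
      rw [smul_eq_mul, ← mul_sum] at e2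
      generalize (∑ p ∈ P, #((S p).image fun t => (t.1, t.2, mm p.1))) = Z at e2 ⊢
      have e3 : M ^ 4 ≤ 32 * 216 ^ 3 * Z := by
        calc M ^ 4 = M ^ 3 * M := by ring
          _ ≤ (216 * n) ^ 3 * M := Nat.mul_le_mul_right _ (Nat.pow_le_pow_left n2 3)
          _ = 216 ^ 3 * (n * M * (n * n)) := by ring
          _ ≤ 216 ^ 3 * (4 * #P * (n * n)) := Nat.mul_le_mul_left _ (Nat.mul_le_mul_right _ hP)
          _ = 216 ^ 3 * 4 * (#P * (n * n)) := by ring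
          _ ≤ 216 ^ 3 * 4 * (8 * Z) := Nat.mul_le_mul_left _ e2
          _ = 32 * 216 ^ 3 * Z := by ring
      have e4 : (M : ℝ) ^ 4 ≤ 32 * 216 ^ 3 * Z := by exact_mod_cast e3
      linarith only [e4]
    · intro p a p' b hne
      refine disjoint_left.2 fun t c d => hne ?_
      obtain ⟨u, hu, rfl⟩ := mem_image.1 c
      obtain ⟨u', hu', e⟩ := mem_image.1 d
      simp only [Prod.mk.injEq] at e
      obtain rfl : u' = u := Prod.ext e.1 e.2.1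
      have e5 : p.1 = p'.1 := by
        have := e.2.2
        rw [hmm, hmm] at this
        omega
      obtain ⟨-, e1, e2⟩ := h2 p a _ hu
      obtain ⟨-, -, e3⟩ := h2 p' b _ hu'
      rw [← e5] at e3
      exact Prod.ext e5 (p2_inj (m1 _) (hP' p a).2.2 ((hP' p a).2.1.trans (m2 _))
        ((hP' p' b).2.1.trans (m2 _)) e1 e2 e3)
  · obtain ⟨p, a, b⟩ := mem_biUnion.1 ht
    obtain ⟨u, hu, rfl⟩ := mem_image.1 b
    obtain ⟨⟨f1, f2, f3, f4, f5, f6, f7⟩, -⟩ := h2 p a u hu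
    have g1 := m3 _ (hP' p a).1
    have g2 : 27 * mm p.1 ^ 2 * n ≤ M ^ 3 := by
      calc 27 * mm p.1 ^ 2 * n ≤ 27 * (2 * M) ^ 2 * n :=
            Nat.mul_le_mul_right _ (Nat.mul_le_mul_left _ (Nat.pow_le_pow_left g1 2))
        _ = M ^ 2 * (108 * n) := by ring
        _ ≤ M ^ 2 * M := Nat.mul_le_mul_left _ n1
        _ = M ^ 3 := by ring
    have g3 : (27 * (mm p.1 : ℤ) ^ 2 * n) ≤ (M : ℤ) ^ 3 := by exact_mod_cast g2
    push_cast at f1 f2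
    exact ⟨f1, f2, f3, f4.le.trans g3, f5, (m2 _).le, g1, f6,
      fun r a1 a2 a3 => f7 r a1 a2 (hs ▸ Nat.le_sqrt'.2 a3)⟩

end Pool.Agent.MP_d0fd9b_nt.S64

end

end

-- part MP_d0fd9b_nt.S64.Pos
section

/-! Positive proportion. -/

set_option autoImplicit false

section
namespace Pool.Agent.MP_d0fd9b_nt.S64

open Finset S72 H72

lemma p3_phi {d : ℤ} (h0 : 0 < d) : ∃ c : ℕ, 1 ≤ c ∧ c ≤ 9 ∧ 27 * d = -t10_phi d * c ^ 2 ∧
    d ≤ 3 * -t10_phi d := by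
  unfold t10_phi
  split_ifs with h
  · obtain ⟨k, rfl⟩ := h
    rw [Int.mul_ediv_cancel_left _ (by norm_num)]
    exact ⟨9, by norm_num, le_rfl, by push_cast; ring, by omega⟩
  · exact ⟨3, by norm_num, by norm_num, by push_cast; ring, by omega⟩

lemma p3_pt {F M m : ℕ} {a x : ℤ} (F0 : 0 < F) (hF : ∀ r, 0 < r → r ≤ 128 → r ∣ F) (hM : 30 * F ≤ M)
    (ha : (M : ℤ) ^ 2 < a) (ha2 : a ≤ 2 * M ^ 2) (x0 : 0 ≤ x) (hx : x ≤ M ^ 3) (hc : IsCoprime a x)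
    (m1 : M ≤ m) (m2 : m ≤ 2 * M) (hd : (27 * m ^ 2 : ℤ) ∣ 4 * a ^ 3 - x ^ 2)
    (hr : ∀ r : ℕ, IsPrimePow r → 128 < r → r ^ 2 ≤ M →
      ¬ (27 * m ^ 2 * r ^ 2 : ℤ) ∣ 4 * a ^ 3 - x ^ 2) :
    ∃ (e : ℤ) (y : ℕ), Squarefree e ∧ e < 0 ∧ x ^ 2 - e * y ^ 2 = 4 * a ^ 3 ∧
      ((t10_Q (4 * M ^ 4) e ∧ (M : ℤ) ^ 4 ≤ 108 * F ^ 2 * -e ∧
        m ∈ (Icc 1 (9 * F)).image fun g => y / g) ∨
      (-e ≤ 4 * M ^ 3 ∧ m ∈ y.divisors ∧ y ≠ 0 ∧ y ≤ M ^ 4)) := by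
  obtain ⟨D, hD⟩ := hd
  have M30 : (30 : ℤ) ≤ M := by omega
  have M0 : (0 : ℤ) < M := by omega
  have m1' : (M : ℤ) ≤ m := by exact_mod_cast m1
  have m2' : (m : ℤ) ≤ 2 * M := by exact_mod_cast m2
  have m0 : 0 < m := by omega
  have a3 : (M : ℤ) ^ 6 < a ^ 3 :=
    (le_of_eq (by ring)).trans_lt (pow_lt_pow_left₀ ha (by positivity) three_ne_zero)
  have a0 : 0 < a := lt_trans (by positivity) ha
  have a4 : a ^ 3 ≤ 8 * (M : ℤ) ^ 6 := (pow_le_pow_left₀ a0.le ha2 3).trans (le_of_eq (by ring))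
  have x2 : x ^ 2 ≤ (M : ℤ) ^ 6 := (pow_le_pow_left₀ x0 hx 2).trans (le_of_eq (by ring))
  have q1 : (M : ℤ) ^ 2 ≤ m ^ 2 := pow_le_pow_left₀ M0.le m1' 2
  have q2 : (m : ℤ) ^ 2 ≤ 4 * M ^ 2 := (pow_le_pow_left₀ (by positivity) m2' 2).trans (le_of_eq (by ring))
  have M2 : (0 : ℤ) < M ^ 2 := by positivity
  have M6 : (0 : ℤ) < M ^ 6 := by positivity
  have D0 : 0 < D := by
    by_contra h
    have : 27 * (m : ℤ) ^ 2 * D ≤ 0 := mul_nonpos_of_nonneg_of_nonpos (by positivity) (not_lt.1 h)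
    omega
  have D1 : (M : ℤ) ^ 4 ≤ 36 * D := by
    refine le_of_mul_le_mul_left (a := (M : ℤ) ^ 2) ?_ M2
    linarith only [mul_le_mul_of_nonneg_right q2 D0.le, hD, a3, x2]
  have D2 : 27 * D ≤ 32 * (M : ℤ) ^ 4 := by
    refine le_of_mul_le_mul_left (a := (M : ℤ) ^ 2) ?_ M2
    linarith only [mul_le_mul_of_nonneg_right q1 D0.le, sq_nonneg x, hD, a4]
  obtain ⟨d, f, hdf, hs⟩ := Nat.sq_mul_squarefree D.toNat
  have e1 : (f : ℤ) ^ 2 * d = D := by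
    have := congrArg (Nat.cast : ℕ → ℤ) hdf
    rwa [Int.toNat_of_nonneg D0.le, Nat.cast_mul, Nat.cast_pow] at this
  have f0 : 0 < f := Nat.pos_of_ne_zero (by rintro rfl; simp at e1; omega)
  have d0 : (0 : ℤ) < d := by exact_mod_cast Nat.pos_of_ne_zero hs.ne_zero
  have hs' : Squarefree (d : ℤ) := Int.squarefree_natCast.2 hs
  obtain ⟨p1, p2, p3, -⟩ := t10_phi_spec hs' d0
  obtain ⟨c, c1, c9, p5, p6⟩ := p3_phi d0
  have eq1 : x ^ 2 - t10_phi d * ((c * f * m : ℕ) : ℤ) ^ 2 = 4 * a ^ 3 := by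
    push_cast
    linear_combination (-1) * hD + 27 * (m : ℤ) ^ 2 * e1 - ((m : ℤ) * f) ^ 2 * p5
  have y0 : 0 < c * f * m := by positivity
  refine ⟨t10_phi d, c * f * m, p1, p2, eq1, ?_⟩
  have f1 : (1 : ℤ) ≤ (f : ℤ) ^ 2 := by exact_mod_cast Nat.one_le_pow _ _ f0
  by_cases hfF : f ∣ F
  · left
    have fF : f ≤ F := Nat.le_of_dvd F0 hfF
    have f2 : (f : ℤ) ^ 2 ≤ F ^ 2 := by exact_mod_cast Nat.pow_le_pow_left fF 2
    have dD : (d : ℤ) ≤ D := by linarith only [mul_le_mul_of_nonneg_right f1 d0.le, e1]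
    have d1 : (M : ℤ) ^ 4 ≤ 36 * F ^ 2 * d := by linarith only [mul_le_mul_of_nonneg_right f2 d0.le, D1, e1]
    have hM' : 900 * (F : ℤ) ^ 2 ≤ M ^ 2 := by
      have : (30 * F) ^ 2 ≤ M ^ 2 := Nat.pow_le_pow_left hM 2
      have : ((30 * F : ℤ)) ^ 2 ≤ M ^ 2 := by exact_mod_cast this
      linarith
    have d2 : 25 * (M : ℤ) ^ 2 ≤ d := by
      refine le_of_mul_le_mul_left (a := 36 * (F : ℤ) ^ 2) ?_ (by positivity)
      linarith only [mul_le_mul_of_nonneg_right hM' M2.le, d1]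
    refine ⟨⟨p1, p2, by omega, imag_nontrivial p1 a0 (by omega) (by exact_mod_cast y0.ne') hc eq1,
      d, hs', d0, by omega, real_nontrivial (m := m * f) hs' a0 (by omega) (by positivity) hc ?_,
      rfl⟩, ?_, mem_image.2 ⟨c * f, mem_Icc.2 ⟨Nat.mul_pos c1 f0, Nat.mul_le_mul c9 fF⟩,
        Nat.mul_div_cancel_left _ (by positivity)⟩⟩
    · linear_combination hD - 27 * (m : ℤ) ^ 2 * e1
    · linarith only [mul_le_mul_of_nonneg_left p6 (show (0 : ℤ) ≤ 36 * F ^ 2 by positivity), d1]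
  · right
    rw [Nat.dvd_iff_prime_pow_dvd_dvd] at hfF
    push Not at hfF
    obtain ⟨p, k, hp, h1, h2⟩ := hfF
    have k0 : k ≠ 0 := by rintro rfl; simp at h2
    have h3 : 128 < p ^ k := not_le.1 fun h => h2 (hF _ (pow_pos hp.pos k) h)
    have h4 : M < (p ^ k) ^ 2 := not_le.1 fun h => hr _ (hp.isPrimePow.pow k0) h3 h (by
      obtain ⟨u, hu⟩ := h1
      refine ⟨u ^ 2 * d, ?_⟩
      rw [hD, ← e1, hu]
      push_cast
      ring)
    have h5 : (M : ℤ) ≤ f ^ 2 := by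
      exact_mod_cast h4.le.trans (Nat.pow_le_pow_left (Nat.le_of_dvd f0 h1) 2)
    refine ⟨?_, Nat.mem_divisors.2 ⟨Dvd.intro_left _ rfl, y0.ne'⟩, y0.ne', ?_⟩
    · refine le_of_mul_le_mul_left (a := (M : ℤ)) ?_ M0
      linarith only [mul_le_mul_of_nonneg_right h5 d0.le, mul_le_mul_of_nonneg_left p3 M0.le, D0, D2, e1]
    · have h6 : ((c * f * m : ℕ) : ℤ) ^ 2 ≤ ((M : ℤ) ^ 4) ^ 2 := by
        have h7 : (1 : ℤ) * ((c * f * m : ℕ) : ℤ) ^ 2 ≤ -t10_phi d * ((c * f * m : ℕ) : ℤ) ^ 2 :=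
          mul_le_mul_of_nonneg_right (by omega) (sq_nonneg _)
        have h8 : (32 : ℤ) * M ^ 6 ≤ M ^ 2 * M ^ 6 := mul_le_mul_of_nonneg_right (by nlinarith only [M30]) M6.le
        linarith only [sq_nonneg x, a4, eq1, h7, h8]
      exact_mod_cast (abs_le_of_sq_le_sq' h6 (by positivity)).2

lemma p3_sum {A K : ℝ} (hA : 0 ≤ A) (hK : 0 ≤ K) (T : Finset (ℤ × ℤ × ℕ)) (ee : ℤ × ℤ × ℕ → ℤ)
    (y : ℤ × ℤ × ℕ → ℕ) (D : ℕ → Finset ℕ)
    (hT : ∀ t ∈ T, Squarefree (ee t) ∧ ee t < 0 ∧ 0 < t.1 ∧ (t.1 : ℝ) ≤ A ∧ IsCoprime t.1 t.2.1 ∧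
      t.2.1 ^ 2 - ee t * y t ^ 2 = 4 * t.1 ^ 3 ∧ t.2.2 ∈ D (y t) ∧ (#(D (y t)) : ℝ) ≤ K) :
    (#T : ℝ) ≤ ∑ e ∈ T.image ee, K * (1000 * torsion 3 e * (1 + A / √|(e : ℝ)|)) := by
  classical
  rw [card_eq_sum_card_image ee T, Nat.cast_sum]
  refine sum_le_sum fun e he => ?_
  obtain ⟨t, ht, rfl⟩ := mem_image.1 he
  have h1 := rep_le (hT t ht).1 (hT t ht).2.1 hA
    ((T.filter fun u => ee u = ee t).image fun u => (u.1, u.2.1, (y u : ℤ))) fun u hu => by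
      obtain ⟨v, hv, rfl⟩ := mem_image.1 hu
      obtain ⟨v1, v2⟩ := mem_filter.1 hv
      obtain ⟨-, -, r1, r2, r3, r4, -⟩ := hT v v1
      exact ⟨r1, r2, r3, v2 ▸ r4⟩
  have h2 := card_le_mul_card_image (f := fun u : ℤ × ℤ × ℕ => (u.1, u.2.1, (y u : ℤ)))
    (T.filter fun u => ee u = ee t) ⌊K⌋₊ fun b hb => by
      obtain ⟨v, hv, rfl⟩ := mem_image.1 hb
      refine le_trans (card_le_card_of_injOn (t := D (y v)) (fun u => u.2.2) (fun u hu => ?_)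
        fun u hu u' hu' h => ?_) (Nat.le_floor (hT v (mem_filter.1 hv).1).2.2.2.2.2.2.2)
      · obtain ⟨u1, u2⟩ := mem_filter.1 hu
        have : y u = y v := Nat.cast_injective (R := ℤ) (congrArg (·.2.2) u2)
        exact this ▸ (hT u (mem_filter.1 u1).1).2.2.2.2.2.2.1
      · have h3 := (mem_filter.1 hu).2.trans (mem_filter.1 hu').2.symm
        exact Prod.ext (congrArg (·.1) h3) (Prod.ext (congrArg (·.2.1) h3) h)
  refine le_trans (by exact_mod_cast h2) (mul_le_mul (Nat.floor_le hK) h1 (by positivity) hK)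

lemma p3_core : ∃ c : ℝ, 0 < c ∧ ∀ᶠ w : ℕ in Filter.atTop, ∃ E : Finset ℤ,
    c * (w : ℝ) ^ 24 ≤ #E ∧ ∀ e ∈ E, t10_Q (4 * (w ^ 6 : ℕ) ^ 4) e := by
  classical
  obtain ⟨F, F0, hF⟩ : ∃ F : ℕ, 0 < F ∧ ∀ r, 0 < r → r ≤ 128 → r ∣ F :=
    ⟨_, Nat.factorial_pos 128, fun r => Nat.dvd_factorial⟩
  obtain ⟨c, c0, hS⟩ := many2
  obtain ⟨C, C0, hC⟩ := second2
  obtain ⟨B, B1, hB⟩ := H72.tau_le (ε := 1 / 24) (by positivity)
  have F1 : (1 : ℝ) ≤ F := by exact_mod_cast F0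
  obtain ⟨K, hK⟩ : ∃ K : ℝ, K = 9 * F * (1000 * (1 + 22 * F)) := ⟨_, rfl⟩
  have K0 : 0 < K := by rw [hK]; positivity
  refine ⟨(c / 2) ^ 2 / (K ^ 2 * (4 * (C + 1))), by positivity, ?_⟩
  filter_upwards [(Filter.tendsto_pow_atTop (n := 6) (by norm_num)).eventually hS,
    Filter.eventually_ge_atTop (30 * F),
    (tendsto_natCast_atTop_atTop (R := ℝ)).eventually_ge_atTop (2000 * B * (8 * C + 20) / c)]
    with w ⟨S, s1, s2⟩ h1 h2
  have w4 : 4 ≤ w := by omega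
  have w4' : (4 : ℝ) ≤ w := by exact_mod_cast w4
  have w0 : (0 : ℝ) < w := by linarith only [w4']
  have hP : ∀ t : ℤ × ℤ × ℕ, ∃ (e : ℤ) (y : ℕ), t ∈ S → Squarefree e ∧ e < 0 ∧
      t.2.1 ^ 2 - e * y ^ 2 = 4 * t.1 ^ 3 ∧
      ((t10_Q (4 * (w ^ 6 : ℕ) ^ 4) e ∧ ((w ^ 6 : ℕ) : ℤ) ^ 4 ≤ 108 * F ^ 2 * -e ∧
        t.2.2 ∈ (Icc 1 (9 * F)).image fun g => y / g) ∨
      (-e ≤ 4 * (w ^ 6 : ℕ) ^ 3 ∧ t.2.2 ∈ y.divisors ∧ y ≠ 0 ∧ y ≤ (w ^ 6) ^ 4)) := fun t => by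
    by_cases h : t ∈ S
    · obtain ⟨a1, a2, a3, a4, a5, a6, a7, a8, a9⟩ := s2 t h
      obtain ⟨e, y, h'⟩ := p3_pt F0 hF (h1.trans (Nat.le_self_pow (by norm_num) w)) a1 a2 a3 a4 a5 a6
        a7 a8 a9
      exact ⟨e, y, fun _ => h'⟩
    · exact ⟨0, 0, fun h' => (h h').elim⟩
  choose ee yy hey using hP
  have hb : ∀ t ∈ S, 0 < t.1 ∧ (t.1 : ℝ) ≤ 2 * (w : ℝ) ^ 12 ∧ IsCoprime t.1 t.2.1 := fun t ht => by
    obtain ⟨a1, a2, -, -, a5, -⟩ := s2 t ht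
    refine ⟨lt_of_le_of_lt (by positivity) a1, ?_, a5⟩
    have : (t.1 : ℝ) ≤ 2 * ((w : ℝ) ^ 6) ^ 2 := by exact_mod_cast a2
    exact this.trans (le_of_eq (by ring))
  set G : ℤ × ℤ × ℕ → Prop := fun t => t10_Q (4 * (w ^ 6 : ℕ) ^ 4) (ee t) ∧
    ((w ^ 6 : ℕ) : ℤ) ^ 4 ≤ 108 * F ^ 2 * -ee t ∧
    t.2.2 ∈ (Icc 1 (9 * F)).image fun g => yy t / g with hG
  have g1 := p3_sum (A := 2 * (w : ℝ) ^ 12) (K := 9 * F) (by positivity) (by positivity)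
    (S.filter G) ee yy (fun y => (Icc 1 (9 * F)).image fun g => y / g) fun t ht => by
      obtain ⟨t1, t2⟩ := mem_filter.1 ht
      obtain ⟨b1, b2, b3⟩ := hb t t1
      obtain ⟨q1, q2, q3, -⟩ := hey t t1
      refine ⟨q1, q2, b1, b2, b3, q3, t2.2.2, ?_⟩
      have := card_image_le (s := Icc 1 (9 * F)) (f := fun g => yy t / g)
      rw [Nat.card_Icc, Nat.add_sub_cancel] at this
      exact_mod_cast this
  have hbad : ∀ t ∈ S.filter fun t => ¬ G t, -ee t ≤ 4 * (w ^ 6 : ℕ) ^ 3 ∧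
      t.2.2 ∈ (yy t).divisors ∧ yy t ≠ 0 ∧ yy t ≤ (w ^ 6) ^ 4 := fun t ht =>
    (hey t (mem_filter.1 ht).1).2.2.2.resolve_left (mem_filter.1 ht).2
  have g2 := p3_sum (A := 2 * (w : ℝ) ^ 12) (K := B * w) (by positivity) (by positivity)
    (S.filter fun t => ¬ G t) ee yy Nat.divisors fun t ht => by
      obtain ⟨b1, b2, b3⟩ := hb t (mem_filter.1 ht).1
      obtain ⟨q1, q2, q3, -⟩ := hey t (mem_filter.1 ht).1
      obtain ⟨-, r2, r3, r4⟩ := hbad t ht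
      refine ⟨q1, q2, b1, b2, b3, q3, r2, (hB _ r3 ((w : ℝ) ^ 24) ?_).trans ?_⟩
      · rw [← pow_mul] at r4
        exact_mod_cast r4
      · have := t10_rpow (w := w) (by linarith only [w4']) 24 1 (δ := 1 / 24) (by norm_num)
        rw [pow_one] at this
        exact mul_le_mul_of_nonneg_left this (by linarith only [B1])
  set E := (S.filter G).image ee
  set V := (S.filter fun t => ¬ G t).image ee
  have hE : ∀ e ∈ E, t10_Q (4 * (w ^ 6 : ℕ) ^ 4) e ∧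
      ((w ^ 6 : ℕ) : ℤ) ^ 4 ≤ 108 * F ^ 2 * -e := fun e he => by
    obtain ⟨t, ht, rfl⟩ := mem_image.1 he
    exact ⟨(mem_filter.1 ht).2.1, (mem_filter.1 ht).2.2.1⟩
  have hV : ∀ e ∈ V, Squarefree e ∧ e < 0 ∧ -e ≤ (4 * w ^ 18 : ℕ) := fun e he => by
    obtain ⟨t, ht, rfl⟩ := mem_image.1 he
    obtain ⟨q1, q2, -⟩ := hey t (mem_filter.1 ht).1
    exact ⟨q1, q2, (hbad t ht).1.trans (le_of_eq (by push_cast; ring))⟩
  refine ⟨E, ?_, fun e he => (hE e he).1⟩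
  have g3 : (#(S.filter G) : ℝ) ≤ K * ∑ e ∈ E, (torsion 3 e : ℝ) := by
    refine g1.trans ?_
    rw [mul_sum]
    refine sum_le_sum fun e he => ?_
    have e0 := (hE e he).1.2.1
    have a1 : ((w : ℝ) ^ 6) ^ 4 ≤ 108 * F ^ 2 * |(e : ℝ)| := by
      have := (hE e he).2
      rw [← abs_of_neg e0] at this
      exact_mod_cast this
    have e1 : 0 < |(e : ℝ)| := abs_pos.2 (by exact_mod_cast e0.ne)
    have a2 : (w : ℝ) ^ 12 ≤ 11 * F * √|(e : ℝ)| := by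
      refine (abs_le_of_sq_le_sq' ?_ (by positivity)).2
      rw [mul_pow, Real.sq_sqrt e1.le]
      linarith only [mul_pos (pow_pos (by linarith only [F1] : (0 : ℝ) < F) 2) e1, a1]
    have a3 : 2 * (w : ℝ) ^ 12 / √|(e : ℝ)| ≤ 22 * F := by
      rw [div_le_iff₀ (Real.sqrt_pos.2 e1)]
      linarith only [a2]
    calc _ ≤ 9 * F * (1000 * (torsion 3 e : ℝ) * (1 + 22 * F)) := by gcongr
      _ = _ := by rw [hK]; ring
  have v1 : ∑ e ∈ V, (torsion 3 e : ℝ) ^ 2 ≤ C * (4 * (w : ℝ) ^ 18) := by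
    refine le_trans (sum_le_sum_of_subset_of_nonneg (fun e he => ?_) fun _ _ _ => by positivity)
      ((hC (4 * w ^ 18) (Nat.succ_le_of_lt (by positivity))).trans (le_of_eq (by push_cast; rfl)))
    obtain ⟨p1, p2, p3⟩ := hV e he
    exact mem_filter.2 ⟨mem_Icc.2 ⟨by omega, by omega⟩, p1, by omega⟩
  have v2 : ∑ e ∈ V, 1 / |(e : ℝ)| ≤ 20 * w := by
    refine (t10_harm (4 * w ^ 18) V fun e he => (hV e he).2).trans ?_
    have l1 : Real.log w ≤ w := (Real.log_le_sub_one_of_pos w0).trans (by linarith only [])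
    have l2 : Real.log (4 * w ^ 18 : ℕ) ≤ Real.log ((w : ℝ) ^ 19) := by
      refine Real.log_le_log (by positivity) ?_
      push_cast
      rw [pow_succ' (w : ℝ) 18]
      gcongr
    rw [Real.log_pow] at l2
    push_cast at l2 ⊢
    linarith only [w4', l1, l2]
  have g4 : (#(S.filter fun t => ¬ G t) : ℝ) ≤ c / 2 * (w : ℝ) ^ 24 :=
    calc _ ≤ _ := g2
      _ ≤ ∑ e ∈ V, B * w * (1000 * (2 * (w : ℝ) ^ 3 * (torsion 3 e : ℝ) ^ 2 +
          (w : ℝ) ^ 21 * (1 / |(e : ℝ)|))) := by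
        refine sum_le_sum fun e he => mul_le_mul_of_nonneg_left ?_ (by positivity)
        have e0 : 0 < |(e : ℝ)| := abs_pos.2 (by exact_mod_cast (hV e he).2.1.ne)
        have s1 : (1 / √|(e : ℝ)|) ^ 2 = 1 / |(e : ℝ)| := by
          rw [div_pow, Real.sq_sqrt e0.le, one_pow]
        have s2 : (torsion 3 e : ℝ) ≤ (torsion 3 e : ℝ) ^ 2 := by
          exact_mod_cast Nat.le_self_pow two_ne_zero _
        have s3 : 1 * (torsion 3 e : ℝ) ^ 2 ≤ (w : ℝ) ^ 3 * (torsion 3 e : ℝ) ^ 2 :=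
          mul_le_mul_of_nonneg_right (one_le_pow₀ (by linarith only [w4'])) (by positivity)
        have s4 := mul_nonneg (pow_pos w0 3).le
          (sq_nonneg ((torsion 3 e : ℝ) - (w : ℝ) ^ 9 * (1 / √|(e : ℝ)|)))
        rw [div_eq_mul_one_div (2 * (w : ℝ) ^ 12), ← s1]
        linarith only [s2, s3, s4]
      _ = B * w * (1000 * (2 * (w : ℝ) ^ 3 * ∑ e ∈ V, (torsion 3 e : ℝ) ^ 2 +
          (w : ℝ) ^ 21 * ∑ e ∈ V, 1 / |(e : ℝ)|)) := by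
        rw [← mul_sum, ← mul_sum, sum_add_distrib, ← mul_sum, ← mul_sum]
      _ ≤ B * w * (1000 * (2 * (w : ℝ) ^ 3 * (C * w * (4 * (w : ℝ) ^ 18)) +
          (w : ℝ) ^ 21 * (20 * w))) := by
        gcongr
        refine v1.trans ?_
        gcongr
        exact le_mul_of_one_le_right C0 (by linarith only [w4'])
      _ = 1000 * B * (8 * C + 20) * (w : ℝ) ^ 23 := by ring
      _ ≤ c / 2 * w * (w : ℝ) ^ 23 := by
        rw [div_le_iff₀ c0] at h2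
        exact mul_le_mul_of_nonneg_right (by linarith only [h2]) (by positivity)
      _ = _ := by ring
  have g5 : (#(S.filter G) : ℝ) + #(S.filter fun t => ¬ G t) = #S := by
    exact_mod_cast card_filter_add_card_filter_not (s := S) G
  have g6 : c / 2 * (w : ℝ) ^ 24 ≤ K * ∑ e ∈ E, (torsion 3 e : ℝ) := by
    have : c * ((w ^ 6 : ℕ) : ℝ) ^ 4 = c * (w : ℝ) ^ 24 := by push_cast; ring
    linarith only [s1, g3, g4, g5, this]
  have v3 : ∑ e ∈ E, (torsion 3 e : ℝ) ^ 2 ≤ (C + 1) * (4 * (w : ℝ) ^ 24) := by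
    refine le_trans (sum_le_sum_of_subset_of_nonneg (fun e he => ?_) fun _ _ _ => by positivity)
      ((hC (4 * (w ^ 6) ^ 4) (Nat.succ_le_of_lt (by positivity))).trans ?_)
    · obtain ⟨p1, p2, p3, -⟩ := (hE e he).1
      refine mem_filter.2 ⟨mem_Icc.2 ⟨?_, by omega⟩, p1, by omega⟩
      push_cast at p3 ⊢
      omega
    · push_cast
      rw [← pow_mul]
      gcongr
      linarith only []
  have c4 := sq_sum_le_card_mul_sum_sq (s := E) (f := fun e => (torsion 3 e : ℝ))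
  rw [div_mul_eq_mul_div, div_le_iff₀ (by positivity)]
  refine le_of_mul_le_mul_right (a := (w : ℝ) ^ 24) ?_ (by positivity)
  calc _ = (c / 2 * (w : ℝ) ^ 24) ^ 2 := by ring
    _ ≤ (K * ∑ e ∈ E, (torsion 3 e : ℝ)) ^ 2 := pow_le_pow_left₀ (by positivity) g6 2
    _ = K ^ 2 * (∑ e ∈ E, (torsion 3 e : ℝ)) ^ 2 := mul_pow _ _ _
    _ ≤ K ^ 2 * (#E * ((C + 1) * (4 * (w : ℝ) ^ 24))) := by
      gcongr
      exact c4.trans (by gcongr)
    _ = _ := by ring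

open Classical in
theorem positive {s : ℤ} (hs : s = 1 ∨ s = -1) : ∃ c : ℝ, 0 < c ∧ ∀ᶠ N : ℕ in Filter.atTop,
    c * N ≤ #((Icc (1 : ℤ) N).filter fun d => Squarefree d ∧ 1 < torsion 3 (s * d)) := by
  obtain ⟨c, c0, hc⟩ := p3_core
  obtain ⟨w₀, hw⟩ := Filter.eventually_atTop.1 (hc.and (Filter.eventually_ge_atTop 1))
  refine ⟨c / (4 * 2 ^ 24), by positivity, ?_⟩
  filter_upwards [Filter.eventually_ge_atTop (w₀ ^ 24 * 4)] with N hN
  obtain ⟨w, a1, a2, a3⟩ := t10_root (K := 24) (N := N / 4) (by norm_num)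
    ((Nat.le_div_iff_mul_le (by norm_num)).2 hN)
  obtain ⟨⟨E, e1, e2⟩, w1⟩ := hw w a1
  have a4 : N ≤ 4 * 2 ^ 24 * w ^ 24 := by
    have : (w + 1) ^ 24 ≤ (2 * w) ^ 24 := Nat.pow_le_pow_left (by omega) _
    rw [mul_pow] at this
    omega
  have a5 : c / (4 * 2 ^ 24) * N ≤ c * (w : ℝ) ^ 24 := by
    rw [div_mul_eq_mul_div, mul_div_assoc]
    refine mul_le_mul_of_nonneg_left ?_ c0.le
    rw [div_le_iff₀' (by positivity)]
    exact_mod_cast a4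
  refine a5.trans (e1.trans ?_)
  have a6 : 4 * ((w ^ 6 : ℕ) : ℤ) ^ 4 ≤ N := by
    have : 4 * (w ^ 6) ^ 4 ≤ N := by
      rw [show (w ^ 6) ^ 4 = w ^ 24 from (pow_mul w 6 4).symm]
      omega
    exact_mod_cast this
  have : #E ≤ #((Icc (1 : ℤ) N).filter fun d => Squarefree d ∧ 1 < torsion 3 (s * d)) := by
    rcases hs with rfl | rfl
    · refine le_trans (card_le_card fun e he => ?_) (card_image_le (f := t10_phi))
      obtain ⟨-, -, -, -, d, p1, p2, p3, p4, p5⟩ := e2 e he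
      exact mem_image.2 ⟨d, mem_filter.2 ⟨mem_Icc.2 ⟨p2, p3.trans a6⟩, p1, by rwa [one_mul]⟩, p5⟩
    · refine le_trans (card_le_card fun e he => ?_) (card_image_le (f := fun d => -d))
      obtain ⟨p1, p2, p3, p4, -⟩ := e2 e he
      exact mem_image.2 ⟨-e, mem_filter.2 ⟨mem_Icc.2 ⟨by omega, p3.trans a6⟩, t10_neg p1,
        by rwa [neg_one_mul, neg_neg]⟩, neg_neg e⟩
  exact_mod_cast this

end Pool.Agent.MP_d0fd9b_nt.S64

end

end
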